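import Mathlib

/-!
# [H4 CU] Complexes of modules and relative homology, definitions

`Cx R`: a complex `… → M 2 → M 1 → M 0`. For families of submodules `B, A` (subcomplexes `A ≤ B`): `Zc K B A n` the relative
cycles (`x ∈ B n` with `d x ∈ A`), `Bd K B A n = d B + A`, `Hr K B A n` their quotient. `Acy K B A`: `Zc ≤ Bd` in all degrees.
-/

namespace Pool.Agent.H4.CU

noncomputable section

/-- a chain complex of modules -/
structure Cx (R : Type) [CommRing R] where
  M : ℕ → Type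
  [ac : ∀ n, AddCommGroup (M n)]
  [mo : ∀ n, Module R (M n)]
  d : ∀ n, M (n + 1) →ₗ[R] M n
  dd : ∀ n x, d n (d (n + 1) x) = 0

attribute [instance] Cx.ac Cx.mo

variable {R : Type} [CommRing R]

/-- a family of submodules -/
abbrev Fam (K : Cx R) : Type := ∀ n, Submodule R (K.M n)

/-- the family is stable under `d` -/
def Sc (K : Cx R) (A : Fam K) : Prop := ∀ n, ∀ x ∈ A (n + 1), K.d n x ∈ A n

/-- relative cycles -/
def Zc (K : Cx R) (B A : Fam K) : ∀ n, Submodule R (K.M n)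
  | 0 => B 0
  | n + 1 => B (n + 1) ⊓ (A n).comap (K.d n)

/-- relative boundaries -/
def Bd (K : Cx R) (B A : Fam K) (n : ℕ) : Submodule R (K.M n) := (B (n + 1)).map (K.d n) ⊔ A n

/-- relative homology of `(B, A)` -/
abbrev Hr (K : Cx R) (B A : Fam K) (n : ℕ) : Type :=
  Zc K B A n ⧸ (Bd K B A n).submoduleOf (Zc K B A n)

/-- the relative homology is zero -/
def Acy (K : Cx R) (B A : Fam K) : Prop := ∀ n, Zc K B A n ≤ Bd K B A n

theorem mem_zc_succ {K : Cx R} {B A : Fam K} {n : ℕ} {x : K.M (n + 1)} :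
    x ∈ Zc K B A (n + 1) ↔ x ∈ B (n + 1) ∧ K.d n x ∈ A n := Iff.rfl

theorem mem_zc_zero {K : Cx R} {B A : Fam K} {x : K.M 0} : x ∈ Zc K B A 0 ↔ x ∈ B 0 := Iff.rfl

theorem mem_bd {K : Cx R} {B A : Fam K} {n : ℕ} {x : K.M n} :
    x ∈ Bd K B A n ↔ ∃ b ∈ B (n + 1), ∃ a ∈ A n, K.d n b + a = x := by
  unfold Bd
  rw [Submodule.mem_sup]
  constructor
  · rintro ⟨y, ⟨b, hb, rfl⟩, a, ha, h⟩
    exact ⟨b, hb, a, ha, h⟩
  · rintro ⟨b, hb, a, ha, h⟩
    exact ⟨K.d n b, ⟨b, hb, rfl⟩, a, ha, h⟩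

/-- a function on modules with values in an abelian group, additive on finitely generated modules and zero on `R` -/
structure EulerFn (R : Type) [CommRing R] (A : Type) [AddCommGroup A] where
  cl : ∀ (M : Type) [AddCommGroup M] [Module R M], A
  iso : ∀ (M N : Type) [AddCommGroup M] [Module R M] [AddCommGroup N] [Module R N],
    (M ≃ₗ[R] N) → cl M = cl N
  add : ∀ (M : Type) [AddCommGroup M] [Module R M] [Module.Finite R M] (N : Submodule R M),
    cl M = cl N + cl (M ⧸ N)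
  self : cl R = 0

/-- the modules `H 0, H 1, …` are finitely generated, zero for large `k`, and `∑ (-1)^k cl (H k) = w` -/
def Good {A : Type} [AddCommGroup A] (E : EulerFn R A) (H : ℕ → Type) [∀ k, AddCommGroup (H k)]
    [∀ k, Module R (H k)] (w : A) : Prop :=
  (∀ k, Module.Finite R (H k)) ∧ ∃ N, (∀ k, N ≤ k → Subsingleton (H k)) ∧
    ∀ N', N ≤ N' → ∑ k ∈ Finset.range N', (-1 : ℤ) ^ k • E.cl (H k) = w

end

end Pool.Agent.H4.CU
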