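import Pool.Agent.H4.CU.Defs
import Pool.Agent.H4.CU.Alg

/-! # [H4 CU DD] `d d = 0`, and the complexes `CC R Z`, `CK φ Z`

Proof of `dC_dC`: `ch_ext` (for `dC R Z n ∘ₗ dC R Z (n+1) = 0`) and `dC_gC` twice give `∑_{i : Fin (n+2)} ∑_{j : Fin (n+1)} (-1)^(i+j) F(i, j)`,
`F(i, j) = ∑_{ε ε'} ± gC (face j ε' (face i ε σ))` (`ε, ε' ∈ {0, 1}`, sign `+` iff `ε = ε'`). For `i ≤ j` (`i, j : Fin (n+1)`)
`face j ε' (face i.castSucc ε σ) = face i ε (face j.succ ε' σ)`: both are `x ↦ σ(y)` with `y` = `x` with `ε` inserted at `i` and `ε'` at `j + 1`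
(pointwise check with `Fin.insertNth_apply_same`, `Fin.insertNth_apply_succAbove`, `Fin.succAbove_succAbove`-type lemmas; compare `Mathlib/AlgebraicTopology/AlternatingFaceMapComplex.lean`, `d_squared`).
So `F(i.castSucc, j) = F(j.succ, i)` for `i ≤ j`, and the two signs are opposite: the terms with `i ≤ j` cancel the terms with `i > j` by the
bijection `(i, j) ↦ (j.succ, i.castLT)` exactly as in `d_squared`. `dK_dK`: from `dC_dC` (`Submodule.Quotient.mk_surjective`, `Submodule.mapQ_apply`). -/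

namespace Pool.Agent.H4.CU

noncomputable section

private theorem sa_sa {n : ℕ} (i j : Fin (n + 1)) (h : i ≤ j) (r : Fin n) :
    i.castSucc.succAbove (j.succAbove r) = j.succ.succAbove (i.succAbove r) := by
  have h' : (i : ℕ) ≤ j := h
  apply Fin.ext
  simp only [Fin.succAbove, Fin.lt_def]
  split_ifs <;> simp_all <;> omega

private theorem ins_comm {n : ℕ} (i j : Fin (n + 1)) (h : i ≤ j) (e e' : J) (x : Qb n) :
    (i.castSucc.insertNth e (j.insertNth e' x) : Qb (n + 2)) =
      j.succ.insertNth e' (i.insertNth e x) := by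
  funext l
  refine i.castSucc.succAboveCases ?_ (fun m => ?_) l
  · have h1 : i.castSucc = j.succ.succAbove i := by
      rw [Fin.succAbove_of_castSucc_lt]
      exact Fin.castSucc_lt_succ_iff.mpr h
    rw [Fin.insertNth_apply_same]
    conv_rhs => rw [h1]
    rw [Fin.insertNth_apply_succAbove, Fin.insertNth_apply_same]
  · rw [Fin.insertNth_apply_succAbove]
    refine j.succAboveCases ?_ (fun r => ?_) m
    · have h1 : i.castSucc.succAbove j = j.succ := by
        rw [Fin.succAbove_of_le_castSucc]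
        exact Fin.castSucc_le_castSucc_iff.mpr h
      rw [Fin.insertNth_apply_same, h1, Fin.insertNth_apply_same]
    · rw [Fin.insertNth_apply_succAbove, sa_sa i j h r, Fin.insertNth_apply_succAbove,
        Fin.insertNth_apply_succAbove]

private theorem face_face {Z : Type} [TopologicalSpace Z] {n : ℕ} (i j : Fin (n + 1)) (h : i ≤ j)
    (e e' : J) (σ : Cb Z (n + 2)) :
    face j e' (face i.castSucc e σ) = face i e (face j.succ e' σ) := by
  ext x
  rw [face_apply, face_apply, face_apply, face_apply, ins_comm i j h]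

private def FF (R : Type) [CommRing R] {Z : Type} [TopologicalSpace Z] {n : ℕ}
    (σ : Cb Z (n + 2)) (i : Fin (n + 2)) (j : Fin (n + 1)) : Ch R Z n :=
  (gC R (face j 0 (face i 0 σ)) - gC R (face j 1 (face i 0 σ))) -
    (gC R (face j 0 (face i 1 σ)) - gC R (face j 1 (face i 1 σ)))

private theorem FF_comm (R : Type) [CommRing R] {Z : Type} [TopologicalSpace Z] {n : ℕ}
    (σ : Cb Z (n + 2)) (i j : Fin (n + 1)) (h : i ≤ j) :
    FF R σ i.castSucc j = FF R σ j.succ i := by
  unfold FF
  rw [face_face i j h, face_face i j h, face_face i j h, face_face i j h]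
  abel

private def iv {n : ℕ} (p : Fin (n + 2) × Fin (n + 1)) : Fin (n + 2) × Fin (n + 1) :=
  if h : (p.1 : ℕ) ≤ p.2 then (p.2.succ, ⟨p.1, lt_of_le_of_lt h p.2.2⟩)
  else (p.2.castSucc, ⟨(p.1 : ℕ) - 1, by have := p.1.2; omega⟩)

private theorem sum_zero (R : Type) [CommRing R] {Z : Type} [TopologicalSpace Z] {n : ℕ}
    (σ : Cb Z (n + 2)) :
    ∑ p : Fin (n + 2) × Fin (n + 1), (-1 : R) ^ ((p.1 : ℕ) + (p.2 : ℕ)) • FF R σ p.1 p.2 = 0 := by
  have key : ∀ i j : Fin (n + 1), i ≤ j →
      (-1 : R) ^ ((i.castSucc : ℕ) + (j : ℕ)) • FF R σ i.castSucc j +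
        (-1 : R) ^ ((j.succ : ℕ) + (i : ℕ)) • FF R σ j.succ i = 0 := by
    intro i j hij
    rw [FF_comm R σ i j hij, ← add_smul]
    have h1 : ((j.succ : Fin (n + 2)) : ℕ) + (i : ℕ) = ((i.castSucc : Fin (n + 2)) : ℕ) + (j : ℕ) + 1 := by
      simp only [Fin.val_succ, Fin.val_castSucc]
      omega
    rw [h1, pow_succ, mul_neg_one, add_neg_cancel, zero_smul]
  refine Finset.sum_involution (fun p _ => iv p) ?_ ?_ (fun _ _ => Finset.mem_univ _) ?_
  · rintro ⟨a, b⟩ -
    by_cases h : (a : ℕ) ≤ b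
    · have ha : a = (⟨(a : ℕ), lt_of_le_of_lt h b.2⟩ : Fin (n + 1)).castSucc := Fin.ext rfl
      have hiv : iv (a, b) = (b.succ, ⟨(a : ℕ), lt_of_le_of_lt h b.2⟩) := by
        unfold iv
        rw [dif_pos h]
      rw [hiv]
      have h2 := key ⟨(a : ℕ), lt_of_le_of_lt h b.2⟩ b h
      rw [← ha] at h2
      exact h2
    · have hlt : (a : ℕ) - 1 < n + 1 := by
        have := a.2
        omega
      have ha : a = (⟨(a : ℕ) - 1, hlt⟩ : Fin (n + 1)).succ := by
        apply Fin.ext
        simp only [Fin.val_succ]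
        omega
      have hiv : iv (a, b) = (b.castSucc, ⟨(a : ℕ) - 1, hlt⟩) := by
        unfold iv
        rw [dif_neg h]
      rw [hiv]
      have hle : b ≤ (⟨(a : ℕ) - 1, hlt⟩ : Fin (n + 1)) := by
        rw [Fin.le_def]
        simp only
        omega
      have h2 := key b ⟨(a : ℕ) - 1, hlt⟩ hle
      rw [← ha] at h2
      rw [add_comm]
      exact h2
  · rintro ⟨a, b⟩ - - h
    by_cases h1 : (a : ℕ) ≤ b
    · have hiv : iv (a, b) = (b.succ, ⟨(a : ℕ), lt_of_le_of_lt h1 b.2⟩) := by
        unfold iv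
        rw [dif_pos h1]
      rw [hiv] at h
      have h2 : b.succ = a := congrArg Prod.fst h
      have h3 : (b : ℕ) + 1 = a := by
        rw [← h2]
        simp
      omega
    · have hlt : (a : ℕ) - 1 < n + 1 := by
        have := a.2
        omega
      have hiv : iv (a, b) = (b.castSucc, ⟨(a : ℕ) - 1, hlt⟩) := by
        unfold iv
        rw [dif_neg h1]
      rw [hiv] at h
      have h2 : b.castSucc = a := congrArg Prod.fst h
      have h3 : (b : ℕ) = a := by
        rw [← h2]
        simp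
      omega
  · rintro ⟨a, b⟩ -
    by_cases h1 : (a : ℕ) ≤ b
    · have hiv : iv (a, b) = (b.succ, ⟨(a : ℕ), lt_of_le_of_lt h1 b.2⟩) := by
        unfold iv
        rw [dif_pos h1]
      simp only [hiv]
      unfold iv
      rw [dif_neg (by simp only [Fin.val_succ]; omega)]
      refine Prod.ext (Fin.ext ?_) (Fin.ext ?_)
      · simp
      · simp
    · have hlt : (a : ℕ) - 1 < n + 1 := by
        have := a.2
        omega
      have hiv : iv (a, b) = (b.castSucc, ⟨(a : ℕ) - 1, hlt⟩) := by
        unfold iv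
        rw [dif_neg h1]
      simp only [hiv]
      unfold iv
      rw [dif_pos (by simp only [Fin.val_castSucc]; omega)]
      refine Prod.ext (Fin.ext ?_) (Fin.ext ?_)
      · simp only [Fin.val_succ]
        omega
      · simp

theorem dC_dC (R : Type) [CommRing R] (Z : Type) [TopologicalSpace Z] (n : ℕ) (x : Ch R Z (n + 2)) :
    dC R Z n (dC R Z (n + 1) x) = 0 := by
  have h0 : dC R Z n ∘ₗ dC R Z (n + 1) = 0 := by
    refine ch_ext fun σ => ?_
    rw [LinearMap.comp_apply, LinearMap.zero_apply, dC_gC, map_sum]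
    rw [← sum_zero R σ, Fintype.sum_prod_type]
    refine Finset.sum_congr rfl fun i _ => ?_
    rw [map_smul, map_sub, dC_gC, dC_gC, ← Finset.sum_sub_distrib, Finset.smul_sum]
    refine Finset.sum_congr rfl fun j _ => ?_
    rw [← smul_sub, smul_smul, ← pow_add]
    rfl
  exact congrArg (fun f => f x) h0

section
variable {Γ : Type} [Group Γ] {R : Type} [CommRing R] (φ : Γ →* R)
  (Z : Type) [TopologicalSpace Z] [MulAction Γ Z] [ContinuousConstSMul Γ Z]

theorem dK_dK (n : ℕ) (x : KK φ Z (n + 2)) : dK φ Z n (dK φ Z (n + 1) x) = 0 := by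
  obtain ⟨y, rfl⟩ := Submodule.Quotient.mk_surjective _ x
  unfold dK
  rw [Submodule.mapQ_apply, Submodule.mapQ_apply, dC_dC, Submodule.Quotient.mk_zero]

/-- the complex of the `φ`-coinvariants of the cubical chains -/
def CK : Cx R where
  M n := KK φ Z n
  ac _ := inferInstance
  mo _ := inferInstance
  d n := dK φ Z n
  dd n x := dK_dK φ Z n x

end

/-- the complex of the cubical chains -/
def CC (R : Type) [CommRing R] (Z : Type) [TopologicalSpace Z] : Cx R where
  M n := Ch R Z n
  ac _ := inferInstance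
  mo _ := inferInstance
  d n := dC R Z n
  dd n x := dC_dC R Z n x

end

end Pool.Agent.H4.CU
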