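import Pool.Agent.H4.CU.DD

/-! # [H4 CU HTP] The homotopy operator on cubical chains

`h : C(J × Z, Z')`, `prism h σ (x_0, x') = h(x_0, σ(x'))`. Faces: `face 0 ε (prism h σ) = h_ε ∘ σ`, `face i.succ ε (prism h σ) = prism h (face i ε σ)`
(`Fin.insertNth`: `Fin.insertNth_zero'`/`Fin.cons`, `Fin.tail`, and `(i.succ).insertNth ε x = Fin.cons (x 0) (i.insertNth ε (Fin.tail x))`: pointwise with
`Fin.cases` and `Fin.succ_succAbove_succ`). If `σ` is degenerate in `i`, `prism h σ` is degenerate in `i.succ`.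
So by `dC_gC` and `Fin.sum_univ_succ`: `d (prism σ) = h_0 σ - h_1 σ - prism (d σ)` (`(-1)^(i+1)`). In degree `0`: `d (prism σ) = h_0 σ - h_1 σ`. -/

namespace Pool.Agent.H4.CU

noncomputable section

variable {R : Type} [CommRing R] {Z Z' : Type} [TopologicalSpace Z] [TopologicalSpace Z'] {n : ℕ}

/-- the prism of a cube -/
def prism (h : C(J × Z, Z')) (σ : Cb Z n) : Cb Z' (n + 1) where
  toFun x := h (x 0, σ fun i => x i.succ)
  continuous_toFun := by fun_prop

/-- the map `h(t, ·)` -/
def slice (h : C(J × Z, Z')) (t : J) : C(Z, Z') where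
  toFun z := h (t, z)
  continuous_toFun := by fun_prop

theorem prism_face_zero (h : C(J × Z, Z')) (σ : Cb Z n) (ε : J) :
    face 0 ε (prism h σ) = (slice h ε).comp σ := by
  ext x
  have h0 : (Fin.insertNth (α := fun _ => J) 0 ε x) 0 = ε := Fin.insertNth_apply_same _ _ _
  have h1 : (fun i : Fin n => (Fin.insertNth (α := fun _ => J) 0 ε x) i.succ) = x := by
    funext i
    have h2 := Fin.insertNth_apply_succAbove (α := fun _ => J) 0 ε x i
    rw [Fin.succAbove_zero] at h2
    exact h2
  show h ((Fin.insertNth (α := fun _ => J) 0 ε x) 0,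
    σ fun i => (Fin.insertNth (α := fun _ => J) 0 ε x) i.succ) = h (ε, σ x)
  rw [h0, h1]

theorem prism_face_succ (h : C(J × Z, Z')) (σ : Cb Z (n + 1)) (i : Fin (n + 1)) (ε : J) :
    face i.succ ε (prism h σ) = prism h (face i ε σ) := by
  ext x
  have h0 : (Fin.insertNth (α := fun _ => J) i.succ ε x) 0 = x 0 := by
    have h2 := Fin.insertNth_apply_succAbove (α := fun _ => J) i.succ ε x 0
    rw [Fin.succ_succAbove_zero] at h2
    exact h2
  have h1 : (fun j : Fin (n + 1) => (Fin.insertNth (α := fun _ => J) i.succ ε x) j.succ) =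
      Fin.insertNth (α := fun _ => J) i ε (fun j => x j.succ) := by
    funext j
    refine i.succAboveCases ?_ (fun k => ?_) j
    · rw [Fin.insertNth_apply_same, Fin.insertNth_apply_same]
    · rw [Fin.insertNth_apply_succAbove]
      have h2 := Fin.insertNth_apply_succAbove (α := fun _ => J) i.succ ε x k.succ
      rw [Fin.succ_succAbove_succ] at h2
      exact h2
  show h ((Fin.insertNth (α := fun _ => J) i.succ ε x) 0,
    σ fun j => (Fin.insertNth (α := fun _ => J) i.succ ε x) j.succ) =
      h (x 0, σ (Fin.insertNth (α := fun _ => J) i ε (fun j => x j.succ)))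
  rw [h0, h1]

theorem prism_deg (h : C(J × Z, Z')) {σ : Cb Z n} (hσ : Deg σ) : Deg (prism h σ) := by
  obtain ⟨i, hi⟩ := hσ
  refine ⟨i.succ, fun x t => ?_⟩
  have h0 : Function.update x i.succ t 0 = x 0 :=
    Function.update_of_ne (Fin.succ_ne_zero i).symm _ _
  have h1 : (fun j : Fin n => Function.update x i.succ t j.succ) =
      Function.update (fun j : Fin n => x j.succ) i t := by
    funext j
    by_cases hj : j = i
    · subst hj
      rw [Function.update_self, Function.update_self]
    · rw [Function.update_of_ne hj, Function.update_of_ne (fun h => hj (Fin.succ_injective _ h))]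
  show h (Function.update x i.succ t 0, σ fun j => Function.update x i.succ t j.succ) =
    h (x 0, σ fun j => x j.succ)
  rw [h0, h1, hi]

variable (R n) in
/-- the homotopy operator -/
def PC (h : C(J × Z, Z')) : Ch R Z n →ₗ[R] Ch R Z' (n + 1) :=
  liftC (fun σ => gC R (prism h σ)) fun _ hσ => gC_deg R (prism_deg h hσ)

theorem PC_gC (h : C(J × Z, Z')) (σ : Cb Z n) : PC R n h (gC R σ) = gC R (prism h σ) := liftC_gC _ _ _

theorem dC_PC (h : C(J × Z, Z')) (x : Ch R Z (n + 1)) :
    dC R Z' (n + 1) (PC R (n + 1) h x) + PC R n h (dC R Z n x) =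
      mapC R (n + 1) (slice h 0) x - mapC R (n + 1) (slice h 1) x := by
  have key : dC R Z' (n + 1) ∘ₗ PC R (n + 1) h + PC R n h ∘ₗ dC R Z n =
      mapC R (n + 1) (slice h 0) - mapC R (n + 1) (slice h 1) := by
    refine ch_ext fun σ => ?_
    rw [LinearMap.add_apply, LinearMap.comp_apply, LinearMap.comp_apply, LinearMap.sub_apply,
      PC_gC, mapC_gC, mapC_gC, dC_gC, dC_gC, Fin.sum_univ_succ, map_sum, prism_face_zero,
      prism_face_zero]
    have h1 : ∑ i : Fin (n + 1), (-1 : R) ^ ((i.succ : Fin (n + 2)) : ℕ) •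
        (gC R (face i.succ 0 (prism h σ)) - gC R (face i.succ 1 (prism h σ))) +
        ∑ i : Fin (n + 1), PC R n h ((-1 : R) ^ (i : ℕ) • (gC R (face i 0 σ) - gC R (face i 1 σ))) =
          0 := by
      rw [← Finset.sum_add_distrib]
      refine Finset.sum_eq_zero fun i _ => ?_
      rw [prism_face_succ, prism_face_succ, map_smul, map_sub, PC_gC, PC_gC, Fin.val_succ, pow_succ,
        mul_neg_one, neg_smul, neg_add_cancel]
    rw [add_assoc, h1, add_zero, Fin.val_zero, pow_zero, one_smul]
  exact congrArg (fun f => f x) key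

theorem dC_PC_zero (h : C(J × Z, Z')) (x : Ch R Z 0) :
    dC R Z' 0 (PC R 0 h x) = mapC R 0 (slice h 0) x - mapC R 0 (slice h 1) x := by
  have key : dC R Z' 0 ∘ₗ PC R 0 h = mapC R 0 (slice h 0) - mapC R 0 (slice h 1) := by
    refine ch_ext fun σ => ?_
    rw [LinearMap.comp_apply, LinearMap.sub_apply, PC_gC, mapC_gC, mapC_gC, dC_gC,
      Fin.sum_univ_succ, prism_face_zero, prism_face_zero]
    simp
  exact congrArg (fun f => f x) key

end

end Pool.Agent.H4.CU
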