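import Pool.Agent.H4.CU.Alg

/-! # [H4 CU A6] Relative homology: transport along a chain map

`f : K → K'` a chain map, injective on `B`, `f(B) = B'`, `f(A) = A'`, `A ≤ B`. Then `f` maps `Zc B A n` onto `Zc B' A' n`
(if `f x ∈ B'`..: an element of `Zc B' A' (n+1)` is `f x` with `x ∈ B (n+1)`, and `f (d x) = d (f x) ∈ A' n = f(A n)`, so `f (d x) = f a`, `d x - a ∈ B n`, `d x = a` by injectivity)
and `Bd B A n` onto `Bd B' A' n`, and `f x ∈ Bd B' A' n` with `x ∈ B n` gives `x ∈ Bd B A n` (same argument: `f x = d (f b) + f a = f (d b + a)`, `d b + a ∈ B n` by `hBs`).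
`LinearEquiv.ofBijective` of `Submodule.mapQ` of the restriction of `f`. -/

namespace Pool.Agent.H4.CU

variable {R : Type} [CommRing R]

theorem hr_map {K K' : Cx R} (f : ∀ n, K.M n →ₗ[R] K'.M n)
    (hf : ∀ n x, f n (K.d n x) = K'.d n (f (n + 1) x)) {B A : Fam K} {B' A' : Fam K'}
    (hBs : Sc K B) (hAs : Sc K A) (hAB : A ≤ B) (hinj : ∀ n, ∀ x ∈ B n, f n x = 0 → x = 0)
    (hB : ∀ n, (B n).map (f n) = B' n) (hA : ∀ n, (A n).map (f n) = A' n) (n : ℕ) :
    Nonempty (Hr K B A n ≃ₗ[R] Hr K' B' A' n) := by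
  have hfB : ∀ n, ∀ x ∈ B n, f n x ∈ B' n := fun n x hx => by
    rw [← hB n]; exact Submodule.mem_map_of_mem hx
  have hfA : ∀ n, ∀ x ∈ A n, f n x ∈ A' n := fun n x hx => by
    rw [← hA n]; exact Submodule.mem_map_of_mem hx
  have hfB' : ∀ n, ∀ y ∈ B' n, ∃ x ∈ B n, f n x = y := fun n y hy => by
    rw [← hB n] at hy; exact hy
  have hfA' : ∀ n, ∀ y ∈ A' n, ∃ x ∈ A n, f n x = y := fun n y hy => by
    rw [← hA n] at hy; exact hy
  have hinj2 : ∀ n, ∀ x ∈ B n, ∀ y ∈ B n, f n x = f n y → x = y := by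
    intro n x hx y hy h
    have := hinj n (x - y) (Submodule.sub_mem _ hx hy) (by rw [map_sub, h, sub_self])
    exact sub_eq_zero.mp this
  have hzc : ∀ n, ∀ x ∈ Zc K B A n, f n x ∈ Zc K' B' A' n := by
    intro n x hx
    cases n with
    | zero => exact hfB 0 x hx
    | succ n =>
      rw [mem_zc_succ] at hx ⊢
      refine ⟨hfB _ _ hx.1, ?_⟩
      rw [← hf]
      exact hfA _ _ hx.2
  have hzc' : ∀ n, ∀ y ∈ Zc K' B' A' n, ∃ x ∈ Zc K B A n, f n x = y := by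
    intro n y hy
    cases n with
    | zero => exact hfB' 0 y hy
    | succ n =>
      rw [mem_zc_succ] at hy
      obtain ⟨x, hx, rfl⟩ := hfB' _ _ hy.1
      refine ⟨x, ?_, rfl⟩
      rw [mem_zc_succ]
      refine ⟨hx, ?_⟩
      have h1 := hy.2
      rw [← hf] at h1
      obtain ⟨a, ha, h2⟩ := hfA' _ _ h1
      have h3 := hinj2 n a (hAB n ha) (K.d n x) (hBs n x hx) h2
      rw [← h3]
      exact ha
  have hzB : ∀ n, ∀ x ∈ Zc K B A n, x ∈ B n := by
    intro n x hx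
    cases n with
    | zero => exact hx
    | succ n => exact hx.1
  have hbd : ∀ n, ∀ x ∈ B n, (f n x ∈ Bd K' B' A' n ↔ x ∈ Bd K B A n) := by
    intro n x hx
    rw [mem_bd, mem_bd]
    constructor
    · rintro ⟨b', hb', a', ha', h⟩
      obtain ⟨b, hb, rfl⟩ := hfB' _ _ hb'
      obtain ⟨a, ha, rfl⟩ := hfA' _ _ ha'
      refine ⟨b, hb, a, ha, ?_⟩
      apply hinj2 n _ (Submodule.add_mem _ (hBs n b hb) (hAB n ha)) _ hx
      rw [map_add, hf, h]
    · rintro ⟨b, hb, a, ha, rfl⟩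
      refine ⟨f (n + 1) b, hfB _ _ hb, f n a, hfA _ _ ha, ?_⟩
      rw [map_add, hf]
  let F : Zc K B A n →ₗ[R] Zc K' B' A' n := (f n).restrict (hzc n)
  let G : Zc K B A n →ₗ[R] Hr K' B' A' n := (Submodule.mkQ _) ∘ₗ F
  have hsurj : Function.Surjective G := by
    apply (Submodule.mkQ_surjective _).comp
    rintro ⟨y, hy⟩
    obtain ⟨x, hx, rfl⟩ := hzc' n y hy
    exact ⟨⟨x, hx⟩, rfl⟩
  have hker : LinearMap.ker G = (Bd K B A n).submoduleOf (Zc K B A n) := by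
    ext x
    obtain ⟨x, hx⟩ := x
    rw [LinearMap.mem_ker]
    have h1 : G ⟨x, hx⟩ = Submodule.Quotient.mk (⟨f n x, hzc n x hx⟩ : Zc K' B' A' n) := rfl
    rw [h1, Submodule.Quotient.mk_eq_zero]
    exact hbd n x (hzB n x hx)
  exact ⟨(Submodule.quotEquivOfEq _ _ hker.symm).trans (G.quotKerEquivOfSurjective hsurj)⟩

end Pool.Agent.H4.CU
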