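import Pool.Agent.H4.CU.DD

/-! # [H4 CU ICJ] Chains inside subsets (no group)

`subCF R U` is the family `n ↦ subC R n U`. `subC_univ`: `ch_span`. `sc_subCF`: `dC_gC`, the faces of a cube in `U` are cubes in `U` (`Submodule.span_induction`).
`subC_inf`: the projection `Ch R Z n → Ch R Z n`, `gC σ ↦ gC σ` if `range σ ⊆ U`, else `0` (`liftC` with `if`); it is the identity on `subC U` and maps `subC V` into `subC (U ∩ V)`. -/

namespace Pool.Agent.H4.CU

variable (R : Type) [CommRing R] {Z : Type} [TopologicalSpace Z]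

/-- the family of the chains inside `U` -/
noncomputable def subCF (U : Set Z) : Fam (CC R Z) := fun n => subC R n U

theorem subC_univ (n : ℕ) : subC R n (Set.univ : Set Z) = ⊤ := by
  rw [eq_top_iff, ← ch_span]
  unfold subC
  refine Submodule.span_mono ?_
  rintro c ⟨σ, rfl⟩
  exact ⟨σ, Set.subset_univ _, rfl⟩

theorem subC_empty (n : ℕ) : subC R n (∅ : Set Z) = ⊥ := by
  unfold subC
  rw [Submodule.span_eq_bot]
  rintro c ⟨σ, hσ, rfl⟩
  exact absurd (hσ ⟨fun _ => 0, rfl⟩) (Set.notMem_empty _)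

theorem sc_subCF (U : Set Z) : Sc (CC R Z) (subCF R U) := by
  intro n x hx
  have h : subC R (n + 1) U ≤ (subC R n U).comap (dC R Z n) := by
    conv_lhs => unfold subC
    rw [Submodule.span_le]
    rintro c ⟨σ, hσ, rfl⟩
    rw [SetLike.mem_coe, Submodule.mem_comap, dC_gC]
    refine Submodule.sum_mem _ fun i _ => Submodule.smul_mem _ _ (Submodule.sub_mem _ ?_ ?_)
    · refine gC_mem ?_
      rintro z ⟨y, rfl⟩
      exact hσ ⟨_, rfl⟩
    · refine gC_mem ?_
      rintro z ⟨y, rfl⟩
      exact hσ ⟨_, rfl⟩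
  exact h hx

theorem subC_inf (U V : Set Z) (n : ℕ) : subC R n U ⊓ subC R n V = subC R n (U ∩ V) := by
  classical
  obtain ⟨π, hπ⟩ : ∃ π : Ch R Z n →ₗ[R] Ch R Z n,
      ∀ σ : Cb Z n, π (gC R σ) = if Set.range σ ⊆ U then gC R σ else 0 := by
    refine ⟨liftC (fun σ => if Set.range σ ⊆ U then gC R σ else 0) ?_, fun σ => ?_⟩
    · intro σ hσ
      rw [gC_deg R hσ, ite_self]
    · rw [liftC_gC]
  refine le_antisymm ?_ (le_inf (subC_mono Set.inter_subset_left)
    (subC_mono Set.inter_subset_right))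
  rintro x ⟨hxU, hxV⟩
  have h1 : π x = x := by
    have h2 : subC R n U ≤ LinearMap.eqLocus π LinearMap.id := by
      unfold subC
      rw [Submodule.span_le]
      rintro c ⟨σ, hσ, rfl⟩
      rw [SetLike.mem_coe, LinearMap.mem_eqLocus, hπ, if_pos hσ, LinearMap.id_apply]
    have h3 := h2 hxU
    rw [LinearMap.mem_eqLocus, LinearMap.id_apply] at h3
    exact h3
  have h2 : subC R n V ≤ (subC R n (U ∩ V)).comap π := by
    conv_lhs => unfold subC
    rw [Submodule.span_le]
    rintro c ⟨σ, hσ, rfl⟩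
    rw [SetLike.mem_coe, Submodule.mem_comap, hπ]
    split_ifs with h
    · exact gC_mem (Set.subset_inter h hσ)
    · exact Submodule.zero_mem _
  have h3 := h2 hxV
  rw [Submodule.mem_comap, h1] at h3
  exact h3

end Pool.Agent.H4.CU
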