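import Pool.Agent.H4.CU.AT3
import Pool.Agent.H4.CU.ICJ
import Pool.Agent.H4.CU.A6

/-! # [H4 CU AT4] The homology of (open cells, open cells without centres), trivial stabiliser

`hr_map` with `K = CC R (Fin n → ℝ)`, `K' = CK φ X`, `f k = mkQ ∘ mapC R k Φ` (so `f k (gC τ) = gK (Φ ∘ τ)`), `B = subCF (ball)`, `A = subCF (ball ∩ {x ≠ 0})`, `B' = subF (cellsOf)`,
`A' = subF (cellsOf ∖ centres)`; take the inverse of the resulting isomorphism. `f d = d f`: `dC_mapC`.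
`map (f k) (subC (ball)) = subK (cellsOf)`: `Submodule.map_span`; `⊆`: `gK (Φ ∘ τ)`; `⊇`: `σ = g (Φ ∘ τ)` (`one_cell`), `gK σ = φ(g) gK (Φ ∘ τ)` (`gK_act`).
`map (f k) (subC (ball ∩ {≠ 0})) = subK (cellsOf ∖ centres)`: the same, `Φ (τ y) ∈ centres ↔ τ y = 0` (`centre_iff` with `g = 1`), and for `σ = g (Φ ∘ τ)` in `cellsOf ∖ centres`: `τ y ≠ 0` (`centre_iff`).
Injectivity on `B`: the map `ρ : KK φ X k → Ch R (Fin n → ℝ) k`, `liftK` of the function `v σ = φ(g) gC τ` if `σ = g (Φ ∘ τ)` with `range τ ⊆ ball` (choice; `g` and `τ` are unique: at every `y`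
`cell_uniq` gives `τ y = τ' y` and `g⁻¹ g'` fixes `Φ(ball)` pointwise, so `g = g'` by `hst`), `v σ = 0` if there is no such `g, τ`. `v` is zero on degenerate cubes: `σ = g (Φ ∘ τ)` degenerate ⟹
`τ` degenerate (`Φ` is injective on the ball, `g` is injective). `v ((act h).comp σ) = φ(h) v σ`: `h σ = (h g) (Φ ∘ τ)` (and if `h σ` is of this form then so is `σ`). `ρ (f x) = x` for `x ∈ subC (ball)`:
on `gC τ` with `g = 1` (`LinearMap.eqOn_span` or `Submodule.span_induction`). -/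

namespace Pool.Agent.H4.CU

variable {Γ : Type} [Group Γ] {R : Type} [CommRing R] (φ : Γ →* R) {X : Type} [TopologicalSpace X] [T2Space X]
  [MulAction Γ X] [ContinuousConstSMul Γ X] {Z A : Set X} {n : ℕ} {Φ : C(Fin n → ℝ, X)}

/-- the cube `σ` is the translate by `p.1` of a cube in the ball -/
private def Rp (Φ : C(Fin n → ℝ, X)) {k : ℕ} (σ : Cb X k) (p : Γ × Cb (Fin n → ℝ) k) : Prop :=
  Set.range p.2 ⊆ Metric.ball (0 : Fin n → ℝ) 1 ∧ σ = (act p.1).comp (Φ.comp p.2)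

private theorem rp_uniq (h : Att Γ Z A n Φ)
    (hst : ∀ g : Γ, (∀ x ∈ Metric.ball (0 : Fin n → ℝ) 1, g • Φ x = Φ x) → g = 1)
    {k : ℕ} {σ : Cb X k} {p q : Γ × Cb (Fin n → ℝ) k} (hp : Rp Φ σ p) (hq : Rp Φ σ q) : p = q := by
  obtain ⟨g, τ⟩ := p
  obtain ⟨g', τ'⟩ := q
  obtain ⟨hp1, hp2⟩ := hp
  obtain ⟨hq1, hq2⟩ := hq
  have h1 : ∀ y, g • Φ (τ y) = g' • Φ (τ' y) := fun y => by
    have h2 : ((act g).comp (Φ.comp τ)) y = ((act g').comp (Φ.comp τ')) y := by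
      rw [← show σ = (act g).comp (Φ.comp τ) from hp2, ← show σ = (act g').comp (Φ.comp τ') from hq2]
    exact h2
  have h3 : ∀ y, τ y = τ' y := fun y =>
    (h.cell_uniq (hp1 ⟨y, rfl⟩) (hq1 ⟨y, rfl⟩) (h1 y)).1
  have h4 := (h.cell_uniq (hp1 ⟨fun _ => 0, rfl⟩) (hq1 ⟨fun _ => 0, rfl⟩) (h1 _)).2.2
  have h5 := hst _ h4
  have h6 : g = g' := by
    rw [inv_mul_eq_one] at h5
    exact h5
  have h7 : τ = τ' := ContinuousMap.ext h3
  rw [h6, h7]

open Classical in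
/-- the function on the cubes -/
private noncomputable def vv (Φ : C(Fin n → ℝ, X)) {k : ℕ} (σ : Cb X k) : Ch R (Fin n → ℝ) k :=
  if hσ : ∃ p : Γ × Cb (Fin n → ℝ) k, Rp Φ σ p then φ hσ.choose.1 • gC R hσ.choose.2 else 0

private theorem vv_rp (h : Att Γ Z A n Φ)
    (hst : ∀ g : Γ, (∀ x ∈ Metric.ball (0 : Fin n → ℝ) 1, g • Φ x = Φ x) → g = 1)
    {k : ℕ} {σ : Cb X k} {p : Γ × Cb (Fin n → ℝ) k} (hp : Rp Φ σ p) :
    vv φ Φ σ = φ p.1 • gC R p.2 := by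
  have hex : ∃ p : Γ × Cb (Fin n → ℝ) k, Rp Φ σ p := ⟨p, hp⟩
  have h1 : hex.choose = p := rp_uniq h hst hex.choose_spec hp
  unfold vv
  rw [dif_pos hex, h1]

private theorem vv_deg (h : Att Γ Z A n Φ) {k : ℕ} (σ : Cb X k) (hσ : Deg σ) :
    vv φ Φ σ = 0 := by
  unfold vv
  split_ifs with hex
  · obtain ⟨i, hi⟩ := hσ
    have h1 := hex.choose_spec
    obtain ⟨h2, h3⟩ := h1
    have h4 : ∀ y, σ y = hex.choose.1 • Φ (hex.choose.2 y) := fun y => by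
      conv_lhs => rw [h3]
      rfl
    have h5 : Deg hex.choose.2 := by
      refine ⟨i, fun x t => ?_⟩
      have h6 := hi x t
      rw [h4, h4] at h6
      exact (h.cell_uniq (h2 ⟨_, rfl⟩) (h2 ⟨_, rfl⟩) h6).1
    rw [gC_deg R h5, smul_zero]
  · rfl

private theorem vv_act (h : Att Γ Z A n Φ)
    (hst : ∀ g : Γ, (∀ x ∈ Metric.ball (0 : Fin n → ℝ) 1, g • Φ x = Φ x) → g = 1)
    {k : ℕ} (g : Γ) (σ : Cb X k) : vv φ Φ ((act g).comp σ) = φ g • vv φ Φ σ := by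
  by_cases hex : ∃ p : Γ × Cb (Fin n → ℝ) k, Rp Φ σ p
  · obtain ⟨p, hp⟩ := hex
    have h1 : Rp Φ ((act g).comp σ) (g * p.1, p.2) := by
      refine ⟨hp.1, ?_⟩
      conv_lhs => rw [hp.2]
      ext y
      exact (mul_smul g p.1 _).symm
    rw [vv_rp φ h hst h1, vv_rp φ h hst hp, map_mul, mul_smul]
  · have h1 : ¬ ∃ p : Γ × Cb (Fin n → ℝ) k, Rp Φ ((act g).comp σ) p := by
      rintro ⟨p, hp⟩
      refine hex ⟨(g⁻¹ * p.1, p.2), hp.1, ?_⟩
      ext y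
      have h2 : ((act g).comp σ) y = ((act p.1).comp (Φ.comp p.2)) y := by rw [← hp.2]
      have h3 : g • σ y = p.1 • Φ (p.2 y) := h2
      change σ y = (g⁻¹ * p.1) • Φ (p.2 y)
      rw [mul_smul, ← h3, inv_smul_smul]
    unfold vv
    rw [dif_neg hex, dif_neg h1, smul_zero]

omit [T2Space X] in
private theorem map_sub (Φ : C(Fin n → ℝ, X)) (k : ℕ) (U : Set (Fin n → ℝ)) (V : Set X)
    (hUB : U ⊆ Metric.ball 0 1)
    (hVc : ∀ σ : Cb X k, Set.range σ ⊆ V → ∃ (g : Γ) (τ : Cb (Fin n → ℝ) k),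
      Set.range τ ⊆ Metric.ball 0 1 ∧ σ = (act g).comp (Φ.comp τ))
    (hUV : ∀ (g : Γ), ∀ x ∈ Metric.ball (0 : Fin n → ℝ) 1, g • Φ x ∈ V ↔ x ∈ U) :
    (subC R k U).map ((coinv φ X k).mkQ ∘ₗ mapC R k Φ) = subK φ k V := by
  apply le_antisymm
  · unfold subC
    rw [Submodule.map_span, Submodule.span_le]
    rintro c ⟨b, ⟨τ, hτ, rfl⟩, rfl⟩
    have h1 : ((coinv φ X k).mkQ ∘ₗ mapC R k Φ) (gC R τ) = gK φ (Φ.comp τ) := by
      rw [LinearMap.comp_apply, mapC_gC]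
      rfl
    rw [h1]
    refine gK_mem φ ?_
    rintro z ⟨y, rfl⟩
    have h2 := (hUV 1 (τ y) (hUB (hτ ⟨y, rfl⟩))).2 (hτ ⟨y, rfl⟩)
    rw [one_smul] at h2
    exact h2
  · unfold subK
    rw [Submodule.span_le]
    rintro c ⟨σ, hσ, rfl⟩
    obtain ⟨g, τ, hτ, rfl⟩ := hVc σ hσ
    have h1 : ((coinv φ X k).mkQ ∘ₗ mapC R k Φ) (gC R τ) = gK φ (Φ.comp τ) := by
      rw [LinearMap.comp_apply, mapC_gC]
      rfl
    rw [gK_act, ← h1]
    refine Submodule.smul_mem _ _ (Submodule.mem_map_of_mem (gC_mem ?_))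
    rintro x ⟨y, rfl⟩
    exact (hUV g (τ y) (hτ ⟨y, rfl⟩)).1 (hσ ⟨y, rfl⟩)

theorem Att.free (h : Att Γ Z A n Φ) (hst : ∀ g : Γ, (∀ x ∈ Metric.ball (0 : Fin n → ℝ) 1, g • Φ x = Φ x) → g = 1)
    (k : ℕ) : Nonempty (Hr (CK φ X) (subF φ (cellsOf Γ Φ)) (subF φ (cellsOf Γ Φ \ centres Γ Φ)) k ≃ₗ[R]
      Hr (CC R (Fin n → ℝ)) (subCF R (Metric.ball 0 1)) (subCF R (Metric.ball 0 1 ∩ {x : Fin n → ℝ | x ≠ 0})) k) := by
  have key := hr_map (K := CC R (Fin n → ℝ)) (K' := CK φ X)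
    (fun k => (coinv φ X k).mkQ ∘ₗ mapC R k Φ) (B := subCF R (Metric.ball 0 1))
    (A := subCF R (Metric.ball 0 1 ∩ {x : Fin n → ℝ | x ≠ 0})) (B' := subF φ (cellsOf Γ Φ))
    (A' := subF φ (cellsOf Γ Φ \ centres Γ Φ)) ?_ (sc_subCF R _) (sc_subCF R _) ?_ ?_ ?_ ?_ k
  · exact ⟨key.some.symm⟩
  · intro k x
    change (coinv φ X k).mkQ (mapC R k Φ (dC R _ k x)) = dK φ X k ((coinv φ X (k + 1)).mkQ (mapC R (k + 1) Φ x))
    have h1 : mapC R k Φ (dC R _ k x) = dC R X k (mapC R (k + 1) Φ x) := by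
      have h2 := congrArg (fun f => f x) (dC_mapC (R := R) (n := k) Φ)
      exact h2.symm
    rw [h1]
    rfl
  · intro k
    exact subC_mono Set.inter_subset_left
  · intro k x hx hfx
    let ρ : KK φ X k →ₗ[R] Ch R (Fin n → ℝ) k := liftK φ (vv φ Φ) (vv_deg φ h) (vv_act φ h hst)
    have h1 : ∀ y ∈ subC R k (Metric.ball (0 : Fin n → ℝ) 1),
        ρ (((coinv φ X k).mkQ ∘ₗ mapC R k Φ) y) = y := by
      intro y hy
      unfold subC at hy
      refine Submodule.span_induction ?_ ?_ ?_ ?_ hy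
      · rintro c ⟨τ, hτ, rfl⟩
        have h2 : ((coinv φ X k).mkQ ∘ₗ mapC R k Φ) (gC R τ) = gK φ (Φ.comp τ) := by
          rw [LinearMap.comp_apply, mapC_gC]
          rfl
        rw [h2]
        change liftK φ (vv φ Φ) (vv_deg φ h) (vv_act φ h hst) (gK φ (Φ.comp τ)) = gC R τ
        rw [liftK_gK]
        have h3 : Rp Φ (Φ.comp τ) ((1 : Γ), τ) := by
          refine ⟨hτ, ?_⟩
          ext y
          exact (one_smul Γ _).symm
        rw [vv_rp φ h hst h3]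
        change φ 1 • gC R τ = gC R τ
        rw [map_one, one_smul]
      · rw [map_zero, map_zero]
      · intro a b _ _ ha hb
        rw [map_add, map_add, ha, hb]
      · intro r a _ ha
        rw [map_smul, map_smul, ha]
    have h4 := h1 x hx
    have h5 : ((coinv φ X k).mkQ ∘ₗ mapC R k Φ) x = 0 := hfx
    rw [h5, map_zero] at h4
    exact h4.symm
  · intro k
    refine map_sub φ Φ k _ _ (subset_refl _) (fun σ hσ => h.one_cell σ hσ) (fun g x hx => ?_)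
    exact ⟨fun _ => hx, fun _ => ⟨g, x, hx, rfl⟩⟩
  · intro k
    refine map_sub φ Φ k _ _ Set.inter_subset_left
      (fun σ hσ => h.one_cell σ (hσ.trans Set.sdiff_subset)) (fun g x hx => ?_)
    have h1 := h.centre_iff g (Metric.ball_subset_closedBall hx)
    constructor
    · intro h2
      exact ⟨hx, fun h3 => h2.2 (h1.2 h3)⟩
    · intro h2
      exact ⟨⟨g, x, hx, rfl⟩, fun h3 => h2.2 (h1.1 h3)⟩

end Pool.Agent.H4.CU
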