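import Pool.Agent.H4.CU.Alg

/-! # [H4 CU A8] Relative homology: homotopy equivalences and homotopy operators

`hr_heq`: `f g = 1`, `1 - g f = d P + P d`, everything compatible with `A, A'`: `f` induces an isomorphism `H(K, A) → H(K', A')` with inverse induced by `g`
(`LinearEquiv.ofLinear` or bijectivity: surjective by `f g = 1`; injective: `f x = d y + a'`, then `x = g f x + d P x + P d x`, `g f x = d (g y) + g a'`, `P (d x) ∈ A` as `d x ∈ A`).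
`acy_of_htp`: `x ∈ Zc B A n`: `x = e x + d P x (+ P d x)`, `e x ∈ A`, `P x ∈ B`, `P (d x) ∈ A`.
`acy_of_sd`: for `x ∈ Zc B A n`: `S x ∈ Zc B A n` and `x - S x = d T x (+ T d x) ∈ Bd B A n`; by induction `x - S^m x ∈ Bd B A n` for all `m`
(`Function.iterate_succ_apply'`), and `S^m x ∈ A n ≤ Bd B A n` for some `m`. -/

namespace Pool.Agent.H4.CU

variable {R : Type} [CommRing R]

private theorem hr_eqv {K K' : Cx R} {B A : Fam K} {B' A' : Fam K'} (n : ℕ)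
    (f : K.M n →ₗ[R] K'.M n) (g : K'.M n →ₗ[R] K.M n)
    (hfZ : ∀ x ∈ Zc K B A n, f x ∈ Zc K' B' A' n) (hgZ : ∀ x ∈ Zc K' B' A' n, g x ∈ Zc K B A n)
    (hfB : ∀ x ∈ Bd K B A n, f x ∈ Bd K' B' A' n) (hgB : ∀ x ∈ Bd K' B' A' n, g x ∈ Bd K B A n)
    (h1 : ∀ x ∈ Zc K B A n, g (f x) - x ∈ Bd K B A n)
    (h2 : ∀ x ∈ Zc K' B' A' n, f (g x) - x ∈ Bd K' B' A' n) :
    Nonempty (Hr K B A n ≃ₗ[R] Hr K' B' A' n) := by
  let F : Zc K B A n →ₗ[R] Zc K' B' A' n := f.restrict hfZ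
  let G : Zc K' B' A' n →ₗ[R] Zc K B A n := g.restrict hgZ
  have hF : (Bd K B A n).submoduleOf (Zc K B A n) ≤
      ((Bd K' B' A' n).submoduleOf (Zc K' B' A' n)).comap F := by
    intro x hx
    exact hfB _ hx
  have hG : (Bd K' B' A' n).submoduleOf (Zc K' B' A' n) ≤
      ((Bd K B A n).submoduleOf (Zc K B A n)).comap G := by
    intro x hx
    exact hgB _ hx
  refine ⟨LinearEquiv.ofLinearMap (Submodule.mapQ _ _ F hF) (Submodule.mapQ _ _ G hG) ?_ ?_⟩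
  · ext x
    simp only [LinearMap.comp_apply, Submodule.mkQ_apply, Submodule.mapQ_apply, LinearMap.id_comp]
    rw [Submodule.Quotient.eq]
    exact h2 _ x.2
  · ext x
    simp only [LinearMap.comp_apply, Submodule.mkQ_apply, Submodule.mapQ_apply, LinearMap.id_comp]
    rw [Submodule.Quotient.eq]
    exact h1 _ x.2

theorem hr_heq {K K' : Cx R} (f : ∀ n, K.M n →ₗ[R] K'.M n) (g : ∀ n, K'.M n →ₗ[R] K.M n)
    (hf : ∀ n x, f n (K.d n x) = K'.d n (f (n + 1) x)) (hg : ∀ n x, g n (K'.d n x) = K.d n (g (n + 1) x))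
    (hfg : ∀ n x, f n (g n x) = x) (P : ∀ n, K.M n →ₗ[R] K.M (n + 1))
    (h0 : ∀ x, K.d 0 (P 0 x) = x - g 0 (f 0 x))
    (h1 : ∀ n x, K.d (n + 1) (P (n + 1) x) + P n (K.d n x) = x - g (n + 1) (f (n + 1) x))
    {A : Fam K} {A' : Fam K'} (hAs : Sc K A) (hfA : ∀ n, ∀ x ∈ A n, f n x ∈ A' n)
    (hgA : ∀ n, ∀ x ∈ A' n, g n x ∈ A n) (hPA : ∀ n, ∀ x ∈ A n, P n x ∈ A (n + 1)) (n : ℕ) :
    Nonempty (Hr K ⊤ A n ≃ₗ[R] Hr K' ⊤ A' n) := by
  have hfB : ∀ x ∈ Bd K ⊤ A n, f n x ∈ Bd K' ⊤ A' n := by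
    intro x hx
    obtain ⟨b, -, a, ha, rfl⟩ := mem_bd.1 hx
    rw [map_add, hf]
    exact mem_bd.2 ⟨f (n + 1) b, trivial, f n a, hfA n a ha, rfl⟩
  have hgB : ∀ x ∈ Bd K' ⊤ A' n, g n x ∈ Bd K ⊤ A n := by
    intro x hx
    obtain ⟨b, -, a, ha, rfl⟩ := mem_bd.1 hx
    rw [map_add, hg]
    exact mem_bd.2 ⟨g (n + 1) b, trivial, g n a, hgA n a ha, rfl⟩
  refine hr_eqv n (f n) (g n) ?_ ?_ hfB hgB ?_ ?_
  · cases n with
    | zero => intro x _; exact trivial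
    | succ n =>
      intro x hx
      refine ⟨trivial, ?_⟩
      show K'.d n (f (n + 1) x) ∈ A' n
      rw [← hf]
      exact hfA n _ hx.2
  · cases n with
    | zero => intro x _; exact trivial
    | succ n =>
      intro x hx
      refine ⟨trivial, ?_⟩
      show K.d n (g (n + 1) x) ∈ A n
      rw [← hg]
      exact hgA n _ hx.2
  · cases n with
    | zero =>
      intro x _
      have e : g 0 (f 0 x) - x = K.d 0 (-(P 0 x)) + 0 := by
        rw [map_neg, h0]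
        abel
      rw [e]
      exact mem_bd.2 ⟨_, trivial, 0, zero_mem _, rfl⟩
    | succ n =>
      intro x hx
      have e : g (n + 1) (f (n + 1) x) - x = K.d (n + 1) (-(P (n + 1) x)) + -(P n (K.d n x)) := by
        have h2 := h1 n x
        rw [map_neg]
        have h3 : g (n + 1) (f (n + 1) x) = x - (K.d (n + 1) (P (n + 1) x) + P n (K.d n x)) := by
          rw [h2]
          abel
        rw [h3]
        abel
      rw [e]
      exact mem_bd.2 ⟨_, trivial, _, neg_mem (hPA n _ hx.2), rfl⟩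
  · intro x _
    rw [hfg, sub_self]
    exact zero_mem _

theorem acy_of_htp {K : Cx R} {B A : Fam K} (e : ∀ n, K.M n →ₗ[R] K.M n)
    (P : ∀ n, K.M n →ₗ[R] K.M (n + 1)) (he : ∀ n, ∀ x ∈ B n, e n x ∈ A n)
    (hPB : ∀ n, ∀ x ∈ B n, P n x ∈ B (n + 1)) (hPA : ∀ n, ∀ x ∈ A n, P n x ∈ A (n + 1))
    (h0 : ∀ x ∈ B 0, K.d 0 (P 0 x) = x - e 0 x)
    (h1 : ∀ n, ∀ x ∈ B (n + 1), K.d (n + 1) (P (n + 1) x) + P n (K.d n x) = x - e (n + 1) x) :
    Acy K B A := by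
  intro n
  cases n with
  | zero =>
    intro x hx
    refine mem_bd.2 ⟨P 0 x, hPB 0 x hx, e 0 x, he 0 x hx, ?_⟩
    rw [h0 x hx]
    abel
  | succ n =>
    intro x hx
    refine mem_bd.2 ⟨P (n + 1) x, hPB _ x hx.1, P n (K.d n x) + e (n + 1) x,
      add_mem (hPA n _ hx.2) (he _ x hx.1), ?_⟩
    rw [← add_assoc, h1 n x hx.1]
    abel

theorem acy_of_sd {K : Cx R} {B A : Fam K} (hAB : A ≤ B) (S : ∀ n, K.M n →ₗ[R] K.M n)
    (T : ∀ n, K.M n →ₗ[R] K.M (n + 1)) (hSB : ∀ n, ∀ x ∈ B n, S n x ∈ B n)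
    (hSA : ∀ n, ∀ x ∈ A n, S n x ∈ A n) (hTB : ∀ n, ∀ x ∈ B n, T n x ∈ B (n + 1))
    (hTA : ∀ n, ∀ x ∈ A n, T n x ∈ A (n + 1)) (hSd : ∀ n x, K.d n (S (n + 1) x) = S n (K.d n x))
    (h0 : ∀ x, K.d 0 (T 0 x) = x - S 0 x)
    (h1 : ∀ n x, K.d (n + 1) (T (n + 1) x) + T n (K.d n x) = x - S (n + 1) x)
    (hsm : ∀ n, ∀ x ∈ B n, ∃ m : ℕ, (S n)^[m] x ∈ A n) : Acy K B A := by
  intro n x hx
  have hZB : ∀ y ∈ Zc K B A n, y ∈ B n := by
    intro y hy
    cases n with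
    | zero => exact hy
    | succ n => exact hy.1
  have hZ : ∀ y ∈ Zc K B A n, S n y ∈ Zc K B A n := by
    intro y hy
    cases n with
    | zero => exact hSB 0 y hy
    | succ n =>
      refine ⟨hSB _ y hy.1, ?_⟩
      show K.d n (S (n + 1) y) ∈ A n
      rw [hSd]
      exact hSA n _ hy.2
  have hD : ∀ y ∈ Zc K B A n, y - S n y ∈ Bd K B A n := by
    intro y hy
    cases n with
    | zero =>
      refine mem_bd.2 ⟨T 0 y, hTB 0 y hy, 0, zero_mem _, ?_⟩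
      rw [h0, add_zero]
    | succ n =>
      exact mem_bd.2 ⟨T (n + 1) y, hTB _ y hy.1, T n (K.d n y), hTA n _ hy.2, h1 n y⟩
  have hI : ∀ m : ℕ, (S n)^[m] x ∈ Zc K B A n ∧ x - (S n)^[m] x ∈ Bd K B A n := by
    intro m
    induction m with
    | zero =>
      refine ⟨hx, ?_⟩
      rw [Function.iterate_zero_apply, sub_self]
      exact zero_mem _
    | succ m ih =>
      rw [Function.iterate_succ_apply']
      refine ⟨hZ _ ih.1, ?_⟩
      have e : x - S n ((S n)^[m] x) = (x - (S n)^[m] x) + ((S n)^[m] x - S n ((S n)^[m] x)) := by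
        abel
      rw [e]
      exact add_mem ih.2 (hD _ ih.1)
  obtain ⟨m, hm⟩ := hsm n x (hZB x hx)
  have e : x = (x - (S n)^[m] x) + (S n)^[m] x := by abel
  rw [e]
  exact add_mem (hI m).2 (mem_bd.2 ⟨0, zero_mem _, _, hm, by rw [map_zero, zero_add]⟩)

end Pool.Agent.H4.CU
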