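import Pool.Agent.H4.CU.DD

/-! # [H4 CU INJ] Chains inside invariant subsets

`Inv Γ U`: `g • z ∈ U` for `z ∈ U`. `subF φ U` is the family `n ↦ subK φ n U`.
`subK_univ`: `kk_span`. `sc_subF`: `dK_gK`; the faces of a cube in `A` are cubes in `A` (`Submodule.span_induction`).
`subK_inf` (`U` invariant): the projection `π : KK φ Z n → KK φ Z n`, `gK σ ↦ gK σ` if `range σ ⊆ U`, else `0` (`liftK` with `if`, `gK_deg`, `gK_act`;
`range ((act g).comp σ) ⊆ U ↔ range σ ⊆ U` by invariance under `g` and `g⁻¹`). `π x = x` for `x ∈ subK U`, `π x ∈ subK (U ∩ V)` for `x ∈ subK V` (span inductions). -/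

namespace Pool.Agent.H4.CU

/-- `U` is invariant -/
def Inv (Γ : Type) [Group Γ] {Z : Type} [MulAction Γ Z] (U : Set Z) : Prop :=
  ∀ (g : Γ) (z : Z), z ∈ U → g • z ∈ U

variable {Γ : Type} [Group Γ] {R : Type} [CommRing R] (φ : Γ →* R)
  {Z : Type} [TopologicalSpace Z] [MulAction Γ Z] [ContinuousConstSMul Γ Z]

/-- the family of the chains inside `U` -/
noncomputable def subF (U : Set Z) : Fam (CK φ Z) := fun n => subK φ n U

theorem subK_univ (n : ℕ) : subK φ n (Set.univ : Set Z) = ⊤ := by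
  rw [eq_top_iff, ← kk_span φ]
  unfold subK
  refine Submodule.span_mono ?_
  rintro c ⟨σ, rfl⟩
  exact ⟨σ, Set.subset_univ _, rfl⟩

theorem subK_empty (n : ℕ) : subK φ n (∅ : Set Z) = ⊥ := by
  unfold subK
  rw [Submodule.span_eq_bot]
  rintro c ⟨σ, hσ, rfl⟩
  exact absurd (hσ ⟨fun _ => 0, rfl⟩) (Set.notMem_empty _)

theorem sc_subF (U : Set Z) : Sc (CK φ Z) (subF φ U) := by
  intro n x hx
  have h : subK φ (n + 1) U ≤ (subK φ n U).comap (dK φ Z n) := by
    conv_lhs => unfold subK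
    rw [Submodule.span_le]
    rintro c ⟨σ, hσ, rfl⟩
    rw [SetLike.mem_coe, Submodule.mem_comap, dK_gK]
    refine Submodule.sum_mem _ fun i _ => Submodule.smul_mem _ _ (Submodule.sub_mem _ ?_ ?_)
    · refine gK_mem φ ?_
      rintro z ⟨y, rfl⟩
      exact hσ ⟨_, rfl⟩
    · refine gK_mem φ ?_
      rintro z ⟨y, rfl⟩
      exact hσ ⟨_, rfl⟩
  exact h hx

theorem subK_inf {U V : Set Z} (hU : Inv Γ U) (n : ℕ) : subK φ n U ⊓ subK φ n V = subK φ n (U ∩ V) := by
  classical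
  have hr : ∀ (g : Γ) (σ : Cb Z n), Set.range ((act g).comp σ) ⊆ U ↔ Set.range σ ⊆ U := by
    intro g σ
    constructor
    · rintro h z ⟨y, rfl⟩
      have h1 : g • σ y ∈ U := h ⟨y, rfl⟩
      have h2 := hU g⁻¹ _ h1
      rwa [inv_smul_smul] at h2
    · rintro h z ⟨y, rfl⟩
      exact hU g _ (h ⟨y, rfl⟩)
  obtain ⟨π, hπ⟩ : ∃ π : KK φ Z n →ₗ[R] KK φ Z n,
      ∀ σ : Cb Z n, π (gK φ σ) = if Set.range σ ⊆ U then gK φ σ else 0 := by
    refine ⟨liftK φ (fun σ => if Set.range σ ⊆ U then gK φ σ else 0) ?_ ?_, fun σ => ?_⟩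
    · intro σ hσ
      beta_reduce
      rw [gK_deg φ hσ, ite_self]
    · intro g σ
      beta_reduce
      by_cases h : Set.range σ ⊆ U
      · rw [if_pos h, if_pos ((hr g σ).2 h), gK_act]
      · rw [if_neg h, if_neg (fun h' => h ((hr g σ).1 h')), smul_zero]
    · rw [liftK_gK]
  refine le_antisymm ?_ (le_inf (subK_mono φ Set.inter_subset_left)
    (subK_mono φ Set.inter_subset_right))
  rintro x ⟨hxU, hxV⟩
  have h1 : π x = x := by
    have h2 : subK φ n U ≤ LinearMap.eqLocus π LinearMap.id := by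
      unfold subK
      rw [Submodule.span_le]
      rintro c ⟨σ, hσ, rfl⟩
      rw [SetLike.mem_coe, LinearMap.mem_eqLocus, hπ, if_pos hσ, LinearMap.id_apply]
    have h3 := h2 hxU
    rw [LinearMap.mem_eqLocus, LinearMap.id_apply] at h3
    exact h3
  have h2 : subK φ n V ≤ (subK φ n (U ∩ V)).comap π := by
    conv_lhs => unfold subK
    rw [Submodule.span_le]
    rintro c ⟨σ, hσ, rfl⟩
    rw [SetLike.mem_coe, Submodule.mem_comap, hπ]
    split_ifs with h
    · exact gK_mem φ (Set.subset_inter h hσ)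
    · exact Submodule.zero_mem _
  have h3 := h2 hxV
  rw [Submodule.mem_comap, h1] at h3
  exact h3

end Pool.Agent.H4.CU
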