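import Pool.Agent.H4.CU.SD

/-! # [H4 CU SML] Small cubes

Let `Lip m = {a : C(Qb n, Qb n) | dist (a x) (a y) ≤ (1/2)^m * dist x y}` (sup metric on `Qb n`). `hmap ε ∈ Lip 1` in the strong form
`dist (hmap ε x) (hmap ε y) = dist x y / 2` (`≤` is enough, `dist_pi_le_iff`), so `a ∈ Lip m → a.comp (hmap ε) ∈ Lip (m+1)`.
Claim: `(sdC)^[m] (gC (σ.comp a))`… precisely: `(sdC R Z n)^[m] (gC R σ) ∈ span {gC (σ.comp a) | a ∈ Lip m}` (induction on `m` with `Function.iterate_succ_apply'`, `sdC_gC`,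
`Submodule.span_induction`). Lebesgue number (`lebesgue_number_lemma_of_metric` for the compact `Qb n` and the open sets `σ⁻¹(O)`, `σ⁻¹(O')`; `hU, hV` say that they cover `Qb n` and that
`σ x ∈ O` implies `σ x ∈ U` etc.): there is `δ > 0` such that every set of diameter `< δ` of the cube goes into `U` or into `V`; the diameter of `Qb n` is at most `1`, so `(1/2)^m < δ`
for all `m ≥ m_0` (`exists_pow_lt_of_lt_one`, `pow_le_pow_of_le_one`), and for `a ∈ Lip m` the range of `σ.comp a` is inside `U` or inside `V`.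
(If `n = 0` the cube is a point; nothing special.) -/

namespace Pool.Agent.H4.CU

variable {R : Type} [CommRing R] {Z : Type} [TopologicalSpace Z] {n : ℕ}

private theorem hmap_lip (ε : Fin n → Bool) (x y : Qb n) :
    dist (hmap ε x) (hmap ε y) ≤ (1 / 2) * dist x y := by
  rw [dist_pi_le_iff (by positivity)]
  intro i
  have h1 : dist (hmap ε x i) (hmap ε y i) = (1 / 2) * dist (x i) (y i) := by
    show dist (half (ε i) (x i)) (half (ε i) (y i)) = _
    rw [Subtype.dist_eq, Subtype.dist_eq, Real.dist_eq, Real.dist_eq]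
    have : ((half (ε i) (x i) : J) : ℝ) - ((half (ε i) (y i) : J) : ℝ) =
        (1 / 2) * ((x i : ℝ) - (y i : ℝ)) := by
      unfold half
      simp only
      ring
    rw [this, abs_mul, abs_of_pos (by norm_num : (0 : ℝ) < 1 / 2)]
  rw [h1]
  exact mul_le_mul_of_nonneg_left (dist_le_pi_dist x y i) (by norm_num)

private theorem qb_diam (x y : Qb n) : dist x y ≤ 1 := by
  rw [dist_pi_le_iff (by norm_num)]
  intro i
  rw [Subtype.dist_eq, Real.dist_eq, abs_le]
  have h1 := (x i).2.1
  have h2 := (x i).2.2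
  have h3 := (y i).2.1
  have h4 := (y i).2.2
  constructor <;> linarith

private theorem iter_span (σ : Cb Z n) (m : ℕ) : (sdC R Z n)^[m] (gC R σ) ∈
    Submodule.span R {c | ∃ a : C(Qb n, Qb n), (∀ x y, dist (a x) (a y) ≤ (1 / 2) ^ m * dist x y) ∧
      c = gC R (σ.comp a)} := by
  induction m with
  | zero =>
    refine Submodule.subset_span ⟨ContinuousMap.id _, fun x y => by simp, ?_⟩
    rw [ContinuousMap.comp_id]
    rfl
  | succ m ih =>
    rw [Function.iterate_succ_apply']
    refine Submodule.span_induction (p := fun c _ => sdC R Z n c ∈ Submodule.span R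
      {c | ∃ a : C(Qb n, Qb n), (∀ x y, dist (a x) (a y) ≤ (1 / 2) ^ (m + 1) * dist x y) ∧
      c = gC R (σ.comp a)}) ?_ ?_ ?_ ?_ ih
    · rintro c ⟨a, ha, rfl⟩
      rw [sdC_gC]
      refine Submodule.sum_mem _ fun ε _ => Submodule.subset_span ⟨a.comp (hmap ε), ?_, ?_⟩
      · intro x y
        have h1 := ha (hmap ε x) (hmap ε y)
        have h2 := hmap_lip ε x y
        calc dist ((a.comp (hmap ε)) x) ((a.comp (hmap ε)) y)
            ≤ (1 / 2) ^ m * dist (hmap ε x) (hmap ε y) := h1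
          _ ≤ (1 / 2) ^ m * ((1 / 2) * dist x y) :=
              mul_le_mul_of_nonneg_left h2 (by positivity)
          _ = (1 / 2) ^ (m + 1) * dist x y := by ring
      · rw [ContinuousMap.comp_assoc]
    · rw [map_zero]
      exact zero_mem _
    · intro x y _ _ hx hy
      rw [map_add]
      exact add_mem hx hy
    · intro r x _ hx
      rw [map_smul]
      exact Submodule.smul_mem _ _ hx

theorem small_cube {U V O O' : Set Z} (hO : IsOpen O) (hO' : IsOpen O') (hU : U = O ∩ (U ∪ V))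
    (hV : V = O' ∩ (U ∪ V)) (σ : Cb Z n) (hσ : Set.range σ ⊆ U ∪ V) :
    ∃ m₀ : ℕ, ∀ m, m₀ ≤ m → (sdC R Z n)^[m] (gC R σ) ∈ subC R n U ⊔ subC R n V := by
  obtain ⟨δ, hδ, hball⟩ := lebesgue_number_lemma_of_metric (s := (Set.univ : Set (Qb n)))
    (c := fun b : Bool => if b then σ ⁻¹' O else σ ⁻¹' O') isCompact_univ
    (by
      intro b
      cases b
      · simpa using hO'.preimage σ.continuous
      · simpa using hO.preimage σ.continuous)
    (by
      intro x _
      rw [Set.mem_iUnion]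
      rcases hσ ⟨x, rfl⟩ with h | h
      · refine ⟨true, ?_⟩
        have h2 : σ x ∈ O ∩ (U ∪ V) := hU.subset h
        simpa using h2.1
      · refine ⟨false, ?_⟩
        have h2 : σ x ∈ O' ∩ (U ∪ V) := hV.subset h
        simpa using h2.1)
  obtain ⟨m₀, hm₀⟩ := exists_pow_lt_of_lt_one hδ (by norm_num : (1 / 2 : ℝ) < 1)
  refine ⟨m₀, fun m hm => ?_⟩
  have hpow : (1 / 2 : ℝ) ^ m < δ :=
    lt_of_le_of_lt (pow_le_pow_of_le_one (by norm_num) (by norm_num) hm) hm₀
  have hle : Submodule.span R {c | ∃ a : C(Qb n, Qb n),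
      (∀ x y, dist (a x) (a y) ≤ (1 / 2) ^ m * dist x y) ∧ c = gC R (σ.comp a)} ≤
      subC R n U ⊔ subC R n V := by
    rw [Submodule.span_le]
    rintro c ⟨a, ha, rfl⟩
    obtain ⟨b, hb⟩ := hball (a fun _ => 0) (Set.mem_univ _)
    have hin : ∀ y, a y ∈ (fun b : Bool => if b then σ ⁻¹' O else σ ⁻¹' O') b := by
      intro y
      apply hb
      rw [Metric.mem_ball]
      calc dist (a y) (a fun _ => 0) ≤ (1 / 2) ^ m * dist y (fun _ => 0) := ha _ _
        _ ≤ (1 / 2) ^ m * 1 := mul_le_mul_of_nonneg_left (qb_diam _ _) (by positivity)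
        _ < δ := by rw [mul_one]; exact hpow
    cases b
    · refine Submodule.mem_sup_right (gC_mem ?_)
      rintro z ⟨y, rfl⟩
      have h1 : σ (a y) ∈ O' := by simpa using hin y
      exact hV.symm.subset ⟨h1, hσ ⟨a y, rfl⟩⟩
    · refine Submodule.mem_sup_left (gC_mem ?_)
      rintro z ⟨y, rfl⟩
      have h1 : σ (a y) ∈ O := by simpa using hin y
      exact hU.symm.subset ⟨h1, hσ ⟨a y, rfl⟩⟩
  exact hle (iter_span σ m)

end Pool.Agent.H4.CU
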