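import Pool.Agent.H4.CU.TT
import Pool.Agent.H4.CU.SML
import Pool.Agent.H4.CU.INJ
import Pool.Agent.H4.CU.A8

/-! # [H4 CU FE] Excision: small chains

Descend `sdC` and `TC` to `KK φ Z n` (`Submodule.mapQ`: both commute with `mapC (act g)`, so they map `coinv` into `coinv`), call them `S, T`. `S, T` preserve
`subK φ n A` for every `A` (`gK σ`: `sdC_gC`, `TC_mem`).
`acy_of_sd` with `B = subF (U ∪ V)`, `A = subF U ⊔ subF V` (`subK_mono`; the operators preserve a sup of preserved submodules: `Submodule.mem_sup`).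
Smallness: `{x | ∃ m₀, ∀ m ≥ m₀, S^m x ∈ subK U ⊔ subK V}` is a submodule (max of the two `m₀`; `S^m` is linear: `iterate_map_add` or `LinearMap.iterate`…), it contains `gK σ` for
`range σ ⊆ U ∪ V` by `small_cube` (the image of `subC U ⊔ subC V` under `mkQ` is in `subK U ⊔ subK V`; `mkQ` commutes with `S`). -/

namespace Pool.Agent.H4.CU

variable {Γ : Type} [Group Γ] {R : Type} [CommRing R] (φ : Γ →* R)
  {Z : Type} [TopologicalSpace Z] [MulAction Γ Z] [ContinuousConstSMul Γ Z]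

private theorem mk_mem {n : ℕ} {A : Set Z} {x : Ch R Z n} (h : x ∈ subC R n A) :
    (Submodule.Quotient.mk x : KK φ Z n) ∈ subK φ n A := by
  have h1 : subC R n A ≤ (subK φ n A).comap (Submodule.mkQ (coinv φ Z n)) := by
    unfold subC
    rw [Submodule.span_le]
    rintro c ⟨σ, hσ, rfl⟩
    exact gK_mem φ hσ
  exact h1 h

variable (Z) in
/-- the subdivision on the coinvariants -/
private noncomputable def SK (n : ℕ) : KK φ Z n →ₗ[R] KK φ Z n :=
  Submodule.mapQ _ _ (sdC R Z n) (by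
    unfold coinv
    rw [Submodule.span_le]
    rintro c ⟨g, b, rfl⟩
    rw [SetLike.mem_coe, Submodule.mem_comap, map_sub, map_smul, sdC_mapC]
    exact Submodule.subset_span ⟨g, sdC R Z n b, rfl⟩)

variable (Z) in
/-- the homotopy on the coinvariants -/
private noncomputable def TK (n : ℕ) : KK φ Z n →ₗ[R] KK φ Z (n + 1) :=
  Submodule.mapQ _ _ (TC R Z n) (by
    unfold coinv
    rw [Submodule.span_le]
    rintro c ⟨g, b, rfl⟩
    rw [SetLike.mem_coe, Submodule.mem_comap, map_sub, map_smul, TC_mapC]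
    exact Submodule.subset_span ⟨g, TC R Z n b, rfl⟩)

private theorem SK_mk {n : ℕ} (x : Ch R Z n) : SK φ Z n (Submodule.Quotient.mk x) =
    Submodule.Quotient.mk (sdC R Z n x) := rfl

private theorem TK_mk {n : ℕ} (x : Ch R Z n) : TK φ Z n (Submodule.Quotient.mk x) =
    Submodule.Quotient.mk (TC R Z n x) := rfl

private theorem dK_mk {n : ℕ} (x : Ch R Z (n + 1)) : dK φ Z n (Submodule.Quotient.mk x) =
    Submodule.Quotient.mk (dC R Z n x) := rfl

private theorem SK_sub {n : ℕ} {A : Set Z} {x : KK φ Z n} (h : x ∈ subK φ n A) :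
    SK φ Z n x ∈ subK φ n A := by
  have h1 : subK φ n A ≤ (subK φ n A).comap (SK φ Z n) := by
    conv_lhs => unfold subK
    rw [Submodule.span_le]
    rintro c ⟨σ, hσ, rfl⟩
    rw [SetLike.mem_coe, Submodule.mem_comap]
    unfold gK
    rw [SK_mk, sdC_gC]
    refine mk_mem φ (Submodule.sum_mem _ fun ε _ => gC_mem ?_)
    rw [ContinuousMap.coe_comp]
    exact (Set.range_comp_subset_range _ _).trans hσ
  exact h1 h

private theorem TK_sub {n : ℕ} {A : Set Z} {x : KK φ Z n} (h : x ∈ subK φ n A) :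
    TK φ Z n x ∈ subK φ (n + 1) A := by
  have h1 : subK φ n A ≤ (subK φ (n + 1) A).comap (TK φ Z n) := by
    conv_lhs => unfold subK
    rw [Submodule.span_le]
    rintro c ⟨σ, hσ, rfl⟩
    rw [SetLike.mem_coe, Submodule.mem_comap]
    unfold gK
    rw [TK_mk]
    exact mk_mem φ (TC_mem hσ)
  exact h1 h

private theorem SK_iter {n : ℕ} (m : ℕ) (x : Ch R Z n) :
    (SK φ Z n)^[m] (Submodule.Quotient.mk x) = Submodule.Quotient.mk ((sdC R Z n)^[m] x) := by
  induction m with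
  | zero => rfl
  | succ m ih => rw [Function.iterate_succ_apply', Function.iterate_succ_apply', ih, SK_mk]

private theorem small_K {U V O O' : Set Z} (hO : IsOpen O) (hO' : IsOpen O') (hU : U = O ∩ (U ∪ V))
    (hV : V = O' ∩ (U ∪ V)) {n : ℕ} {x : KK φ Z n} (hx : x ∈ subK φ n (U ∪ V)) :
    ∃ m₀ : ℕ, ∀ m, m₀ ≤ m → (SK φ Z n)^[m] x ∈ subK φ n U ⊔ subK φ n V := by
  unfold subK at hx
  induction hx using Submodule.span_induction with
  | mem c hc =>
    obtain ⟨σ, hσ, rfl⟩ := hc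
    obtain ⟨m₀, h⟩ := small_cube (R := R) hO hO' hU hV σ hσ
    refine ⟨m₀, fun m hm => ?_⟩
    have h1 := h m hm
    unfold gK
    rw [SK_iter]
    rw [Submodule.mem_sup] at h1 ⊢
    obtain ⟨a, ha, b, hb, hab⟩ := h1
    exact ⟨_, mk_mem φ ha, _, mk_mem φ hb, by rw [← Submodule.Quotient.mk_add, hab]⟩
  | zero =>
    refine ⟨0, fun m _ => ?_⟩
    rw [← Module.End.pow_apply, map_zero]
    exact zero_mem _
  | add x y _ _ hx hy =>
    obtain ⟨m₀, h⟩ := hx
    obtain ⟨m₁, h'⟩ := hy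
    refine ⟨max m₀ m₁, fun m hm => ?_⟩
    rw [← Module.End.pow_apply, map_add, Module.End.pow_apply, Module.End.pow_apply]
    exact add_mem (h m ((le_max_left _ _).trans hm)) (h' m ((le_max_right _ _).trans hm))
  | smul a x _ hx =>
    obtain ⟨m₀, h⟩ := hx
    refine ⟨m₀, fun m hm => ?_⟩
    rw [← Module.End.pow_apply, map_smul, Module.End.pow_apply]
    exact Submodule.smul_mem _ _ (h m hm)

private theorem TK_sup {U V : Set Z} {n : ℕ} {x : KK φ Z n} (hx : x ∈ subK φ n U ⊔ subK φ n V) :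
    TK φ Z n x ∈ subK φ (n + 1) U ⊔ subK φ (n + 1) V := by
  rw [Submodule.mem_sup] at hx ⊢
  obtain ⟨a, ha, b, hb, rfl⟩ := hx
  exact ⟨_, TK_sub φ ha, _, TK_sub φ hb, (map_add _ _ _).symm⟩

private theorem dK_SK (n : ℕ) (x : KK φ Z (n + 1)) :
    dK φ Z n (SK φ Z (n + 1) x) = SK φ Z n (dK φ Z n x) := by
  obtain ⟨y, rfl⟩ := Submodule.Quotient.mk_surjective _ x
  rw [SK_mk, dK_mk, dK_mk, SK_mk, dC_sdC]

private theorem dK_TK_zero (x : KK φ Z 0) : dK φ Z 0 (TK φ Z 0 x) = x - SK φ Z 0 x := by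
  obtain ⟨y, rfl⟩ := Submodule.Quotient.mk_surjective _ x
  rw [TK_mk, dK_mk, dC_TC_zero, SK_mk, Submodule.Quotient.mk_sub]

private theorem dK_TK (n : ℕ) (x : KK φ Z (n + 1)) :
    dK φ Z (n + 1) (TK φ Z (n + 1) x) + TK φ Z n (dK φ Z n x) = x - SK φ Z (n + 1) x := by
  obtain ⟨y, rfl⟩ := Submodule.Quotient.mk_surjective _ x
  rw [TK_mk, dK_mk, dK_mk, TK_mk, SK_mk, ← Submodule.Quotient.mk_add,
    ← Submodule.Quotient.mk_sub, dC_TC]

theorem factE {U V O O' : Set Z} (hO : IsOpen O) (hO' : IsOpen O') (hU : U = O ∩ (U ∪ V))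
    (hV : V = O' ∩ (U ∪ V)) : Acy (CK φ Z) (subF φ (U ∪ V)) (subF φ U ⊔ subF φ V) := by
  have hs : ∀ (f : ∀ n, KK φ Z n →ₗ[R] KK φ Z n), (∀ (A : Set Z) n, ∀ x ∈ subK φ n A, f n x ∈ subK φ n A) →
      ∀ n, ∀ x ∈ subK φ n U ⊔ subK φ n V, f n x ∈ subK φ n U ⊔ subK φ n V := by
    intro f hf n x hx
    rw [Submodule.mem_sup] at hx ⊢
    obtain ⟨a, ha, b, hb, rfl⟩ := hx
    exact ⟨_, hf U n a ha, _, hf V n b hb, (map_add _ _ _).symm⟩
  refine acy_of_sd (K := CK φ Z) (B := subF φ (U ∪ V)) (A := subF φ U ⊔ subF φ V) ?_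
    (fun n => SK φ Z n) (fun n => TK φ Z n) ?_ ?_ ?_ ?_ ?_ ?_ ?_ ?_
  · exact sup_le (fun n => subK_mono φ Set.subset_union_left)
      (fun n => subK_mono φ Set.subset_union_right)
  · exact fun n x hx => SK_sub φ hx
  · exact fun n x hx => hs (fun n => SK φ Z n) (fun A n x hx => SK_sub φ hx) n x hx
  · exact fun n x hx => TK_sub φ hx
  · exact fun n x hx => TK_sup φ hx
  · exact dK_SK φ
  · exact dK_TK_zero φ
  · exact dK_TK φ
  · intro n x hx
    obtain ⟨m₀, h⟩ := small_K φ hO hO' hU hV hx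
    exact ⟨m₀, h m₀ le_rfl⟩

end Pool.Agent.H4.CU
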