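import Pool.Agent.H4.CU.Alg

/-! # [H4 CU A3] Relative homology: `H(U, U ⊓ V) ≅ H(U ⊔ V, V)`

Induced by the inclusion `Zc U (U ⊓ V) n ≤ Zc (U ⊔ V) V n`. Surjective: `x = u + v` (`Submodule.mem_sup`) with (if `n = m + 1`) `d x ∈ V`: `d u = d x - d v ∈ V` and `d u ∈ U`,
so `u ∈ Zc U (U ⊓ V) n`, `x - u = v`. Injective: `x ∈ U`, `x = d (u + v) + v'`: `x - d u = d v + v' ∈ U ⊓ V`, so `x = d u + (x - d u) ∈ Bd U (U ⊓ V) n`.
(`(U ⊓ V) n = U n ⊓ V n` by `rfl`.) `hr_sub`: if `A n = B n = ⊥`-like degenerate cases are needed: `hr_bot`: `B = ⊥` gives the zero module. -/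

namespace Pool.Agent.H4.CU

variable {R : Type} [CommRing R]

private theorem exc_le {K : Cx R} {U V : Fam K} (n : ℕ) :
    Zc K U (U ⊓ V) n ≤ Zc K (U ⊔ V) V n := by
  cases n with
  | zero =>
    intro x hx
    exact Submodule.mem_sup_left hx
  | succ n =>
    rintro x ⟨hx, hdx⟩
    exact ⟨Submodule.mem_sup_left hx, hdx.2⟩

private theorem exc_bd {K : Cx R} {U V : Fam K} (n : ℕ) :
    Bd K U (U ⊓ V) n ≤ Bd K (U ⊔ V) V n := by
  intro x hx
  obtain ⟨b, hb, a, ha, rfl⟩ := mem_bd.1 hx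
  exact mem_bd.2 ⟨b, Submodule.mem_sup_left hb, a, ha.2, rfl⟩

private theorem exc_inj {K : Cx R} {U V : Fam K} (hU : Sc K U) (hV : Sc K V) (n : ℕ)
    {x : K.M n} (hx : x ∈ U n) (h : x ∈ Bd K (U ⊔ V) V n) : x ∈ Bd K U (U ⊓ V) n := by
  obtain ⟨b, hb, a, ha, rfl⟩ := mem_bd.1 h
  obtain ⟨u, hu, v, hv, rfl⟩ := Submodule.mem_sup.1 hb
  refine mem_bd.2 ⟨u, hu, K.d n v + a, ⟨?_, ?_⟩, ?_⟩
  · have h1 : K.d n v + a = (K.d n (u + v) + a) - K.d n u := by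
      rw [map_add]; abel
    rw [h1]
    exact Submodule.sub_mem _ hx (hU n u hu)
  · exact Submodule.add_mem _ (hV n v hv) ha
  · rw [map_add]; abel

private theorem exc_sur {K : Cx R} {U V : Fam K} (hU : Sc K U) (hV : Sc K V) (n : ℕ)
    {x : K.M n} (hx : x ∈ Zc K (U ⊔ V) V n) :
    ∃ u ∈ Zc K U (U ⊓ V) n, u - x ∈ Bd K (U ⊔ V) V n := by
  cases n with
  | zero =>
    obtain ⟨u, hu, v, hv, rfl⟩ := Submodule.mem_sup.1 hx
    refine ⟨u, hu, mem_bd.2 ⟨0, Submodule.zero_mem _, -v, Submodule.neg_mem _ hv, ?_⟩⟩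
    rw [map_zero]; abel
  | succ n =>
    obtain ⟨hx1, hx2⟩ := hx
    obtain ⟨u, hu, v, hv, rfl⟩ := Submodule.mem_sup.1 hx1
    refine ⟨u, ⟨hu, ⟨hU n u hu, ?_⟩⟩, mem_bd.2 ⟨0, Submodule.zero_mem _, -v,
      Submodule.neg_mem _ hv, ?_⟩⟩
    · have h1 : K.d n u = K.d n (u + v) - K.d n v := by
        rw [map_add]; abel
      rw [h1]
      exact Submodule.sub_mem _ hx2 (hV n v hv)
    · rw [map_zero]; abel

theorem hr_exc {K : Cx R} {U V : Fam K} (hU : Sc K U) (hV : Sc K V) (n : ℕ) :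
    Nonempty (Hr K U (U ⊓ V) n ≃ₗ[R] Hr K (U ⊔ V) V n) := by
  let f : Zc K U (U ⊓ V) n →ₗ[R] Zc K (U ⊔ V) V n := Submodule.inclusion (exc_le n)
  have hf : (Bd K U (U ⊓ V) n).submoduleOf (Zc K U (U ⊓ V) n) ≤
      ((Bd K (U ⊔ V) V n).submoduleOf (Zc K (U ⊔ V) V n)).comap f := by
    intro x hx
    exact exc_bd n hx
  let g := Submodule.mapQ _ _ f hf
  refine ⟨LinearEquiv.ofBijective g ⟨?_, ?_⟩⟩
  · rw [← LinearMap.ker_eq_bot, LinearMap.ker_eq_bot']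
    intro y hy
    obtain ⟨x, rfl⟩ := Submodule.Quotient.mk_surjective _ y
    have h1 : Submodule.Quotient.mk (f x) = (0 : Hr K (U ⊔ V) V n) := hy
    rw [Submodule.Quotient.mk_eq_zero] at h1
    rw [Submodule.Quotient.mk_eq_zero]
    have hxU : (x : K.M n) ∈ U n := by
      cases n with
      | zero => exact x.2
      | succ n => exact x.2.1
    exact exc_inj hU hV n hxU h1
  · intro y
    obtain ⟨x, rfl⟩ := Submodule.Quotient.mk_surjective _ y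
    obtain ⟨u, hu, h1⟩ := exc_sur hU hV n x.2
    refine ⟨Submodule.Quotient.mk ⟨u, hu⟩, ?_⟩
    change Submodule.Quotient.mk (f ⟨u, hu⟩) = Submodule.Quotient.mk x
    rw [Submodule.Quotient.eq]
    exact h1

theorem hr_bot {K : Cx R} {B A : Fam K} (hB : ∀ n, B n = ⊥) (n : ℕ) : Subsingleton (Hr K B A n) := by
  have hz : ∀ x : Zc K B A n, x = 0 := by
    intro x
    apply Subtype.ext
    have h1 : (x : K.M n) ∈ B n := by
      cases n with
      | zero => exact x.2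
      | succ n => exact x.2.1
    rw [hB n] at h1
    exact (Submodule.mem_bot R).1 h1
  refine ⟨fun a b => ?_⟩
  obtain ⟨x, rfl⟩ := Submodule.Quotient.mk_surjective _ a
  obtain ⟨y, rfl⟩ := Submodule.Quotient.mk_surjective _ b
  rw [hz x, hz y]

end Pool.Agent.H4.CU
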