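import Pool.Agent.H4.CU.Alg

/-! # [H4 CU A4] Relative homology: an acyclic pair at the top

`A ≤ B ≤ C`, `(C, B)` acyclic: `H(B, A) ≅ H(C, A)`, induced by the inclusion `Zc B A n ≤ Zc C A n`.
Surjective: `x ∈ Zc C A n`; `x ∈ Zc C B n` (as `A ≤ B`), so `x = d c + b`; `b ∈ B` and (if `n = m + 1`) `d b = d x ∈ A`, so `b ∈ Zc B A n`, and `x - b = d c ∈ Bd C A n`.
Injective: `x ∈ Zc B A n`, `x = d c + a`, `c ∈ C (n+1)`, `a ∈ A n`: `d c = x - a ∈ B n`, so `c ∈ Zc C B (n+1)`, `c = d c' + b'`, `b' ∈ B (n+1)`, `d c = d b'`, `x = d b' + a ∈ Bd B A n`. -/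

namespace Pool.Agent.H4.CU

variable {R : Type} [CommRing R]

theorem hr_right {K : Cx R} {A B C : Fam K} (hA : Sc K A) (hB : Sc K B) (hC : Sc K C) (hAB : A ≤ B)
    (hBC : B ≤ C) (h : Acy K C B) (n : ℕ) : Nonempty (Hr K B A n ≃ₗ[R] Hr K C A n) := by
  have hZ : Zc K B A n ≤ Zc K C A n := by
    cases n with
    | zero => exact hBC 0
    | succ n => exact inf_le_inf (hBC (n + 1)) le_rfl
  have hBd : Bd K B A n ≤ Bd K C A n := sup_le_sup_right (Submodule.map_mono (hBC (n + 1))) _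
  have hle : (Bd K B A n).submoduleOf (Zc K B A n) ≤
      ((Bd K C A n).submoduleOf (Zc K C A n)).comap (Submodule.inclusion hZ) := by
    intro x hx
    exact hBd hx
  have hsurj : ∀ y ∈ Zc K C A n, ∃ x ∈ Zc K B A n, x - y ∈ Bd K C A n := by
    intro y hy
    have hyB : y ∈ Zc K C B n := by
      cases n with
      | zero => exact hy
      | succ n => exact mem_zc_succ.2 ⟨(mem_zc_succ.1 hy).1, hAB n (mem_zc_succ.1 hy).2⟩
    obtain ⟨c, hc, b, hb, hcb⟩ := mem_bd.1 (h n hyB)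
    refine ⟨b, ?_, ?_⟩
    · cases n with
      | zero => exact hb
      | succ m =>
        refine mem_zc_succ.2 ⟨hb, ?_⟩
        have h2 := (mem_zc_succ.1 hy).2
        rw [← hcb, map_add, K.dd, zero_add] at h2
        exact h2
    · refine mem_bd.2 ⟨-c, (C (n + 1)).neg_mem hc, 0, Submodule.zero_mem _, ?_⟩
      rw [← hcb, map_neg]
      abel
  have hinj : ∀ x ∈ Zc K B A n, x ∈ Bd K C A n → x ∈ Bd K B A n := by
    intro x hx hxC
    obtain ⟨c, hc, a, ha, hca⟩ := mem_bd.1 hxC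
    have hxB : x ∈ B n := by
      cases n with
      | zero => exact hx
      | succ m => exact (mem_zc_succ.1 hx).1
    have h1 : c ∈ Zc K C B (n + 1) := by
      refine mem_zc_succ.2 ⟨hc, ?_⟩
      have h2 : K.d n c = x - a := by rw [← hca]; abel
      rw [h2]
      exact (B n).sub_mem hxB (hAB n ha)
    obtain ⟨c', hc', b', hb', hcb⟩ := mem_bd.1 (h (n + 1) h1)
    refine mem_bd.2 ⟨b', hb', a, ha, ?_⟩
    rw [← hca, ← hcb, map_add, K.dd, zero_add]
  refine ⟨LinearEquiv.ofBijective (Submodule.mapQ _ _ (Submodule.inclusion hZ) hle) ⟨?_, ?_⟩⟩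
  · rw [injective_iff_map_eq_zero]
    intro q hq
    obtain ⟨x, rfl⟩ := Submodule.Quotient.mk_surjective _ q
    rw [Submodule.mapQ_apply, Submodule.Quotient.mk_eq_zero] at hq
    rw [Submodule.Quotient.mk_eq_zero]
    exact hinj x.1 x.2 hq
  · intro q
    obtain ⟨y, rfl⟩ := Submodule.Quotient.mk_surjective _ q
    obtain ⟨x, hx, hxy⟩ := hsurj y.1 y.2
    refine ⟨Submodule.Quotient.mk ⟨x, hx⟩, ?_⟩
    rw [Submodule.mapQ_apply, Submodule.Quotient.eq]
    exact hxy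

end Pool.Agent.H4.CU
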