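import Pool.Agent.H4.CU.ICJ

/-! # [H4 CU LOZ] The homology of a point

`Fin 0 → ℝ` is a point and `{x | x ≠ 0} = ∅`: `subC_empty`. A cube of dimension `≥ 1` in a one point space is degenerate, so `Ch R (Fin 0 → ℝ) k` is zero for `k ≥ 1` (`gC_deg`, `ch_span`), and
`Ch R (Fin 0 → ℝ) 0 ≃ R`: `gC` of the only `0`-cube is a generator and `liftC (fun _ => 1) : Ch R _ 0 → R` (a `0`-cube is never degenerate: `Fin 0`) is bijective.
`Zc ⊤ _ 0 = ⊤`, `Bd ⊤ _ 0 = range (d 0) ⊔ ⊥ = ⊥` (the source of `d 0` is zero). -/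

namespace Pool.Agent.H4.CU

variable (R : Type) [CommRing R]

private theorem loz_empty : {x : Fin 0 → ℝ | x ≠ 0} = ∅ := by
  ext x
  simp only [Set.mem_ofPred_eq, Set.mem_empty_iff_false, iff_false, not_not]
  exact Subsingleton.elim _ _

private theorem loz_succ (k : ℕ) (x : Ch R (Fin 0 → ℝ) (k + 1)) : x = 0 := by
  have h1 : x ∈ Submodule.span R (Set.range (gC R : Cb (Fin 0 → ℝ) (k + 1) → Ch R (Fin 0 → ℝ) (k + 1))) := by
    rw [ch_span]
    exact Submodule.mem_top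
  have h2 : Submodule.span R
      (Set.range (gC R : Cb (Fin 0 → ℝ) (k + 1) → Ch R (Fin 0 → ℝ) (k + 1))) ≤ ⊥ := by
    rw [Submodule.span_le]
    rintro y ⟨σ, rfl⟩
    rw [SetLike.mem_coe, Submodule.mem_bot]
    exact gC_deg R ⟨0, fun _ _ => Subsingleton.elim _ _⟩
  exact (Submodule.mem_bot R).1 (h2 h1)

private theorem loz_bij : Function.Bijective
    (liftC (R := R) (Z := Fin 0 → ℝ) (n := 0) (fun _ => (1 : R)) fun _ h => h.choose.elim0) := by
  obtain ⟨σ₀⟩ : Nonempty (Cb (Fin 0 → ℝ) 0) := ⟨ContinuousMap.const _ 0⟩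
  constructor
  · rw [← LinearMap.ker_eq_bot, LinearMap.ker_eq_bot']
    intro x hx
    have h1 : x ∈ Submodule.span R (Set.range (gC R : Cb (Fin 0 → ℝ) 0 → Ch R (Fin 0 → ℝ) 0)) := by
      rw [ch_span]
      exact Submodule.mem_top
    have h2 : Set.range (gC R : Cb (Fin 0 → ℝ) 0 → Ch R (Fin 0 → ℝ) 0) = {gC R σ₀} := by
      ext y
      constructor
      · rintro ⟨σ, rfl⟩
        have h3 : σ = σ₀ := ContinuousMap.ext fun _ => Subsingleton.elim _ _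
        rw [h3]
        rfl
      · rintro rfl
        exact ⟨σ₀, rfl⟩
    rw [h2, Submodule.mem_span_singleton] at h1
    obtain ⟨a, rfl⟩ := h1
    rw [map_smul, liftC_gC, smul_eq_mul, mul_one] at hx
    rw [hx, zero_smul]
  · intro a
    exact ⟨a • gC R σ₀, by rw [map_smul, liftC_gC, smul_eq_mul, mul_one]⟩

theorem loc_zero : Nonempty (Hr (CC R (Fin 0 → ℝ)) ⊤ (subCF R {x : Fin 0 → ℝ | x ≠ 0}) 0 ≃ₗ[R] R) ∧
    ∀ k, Subsingleton (Hr (CC R (Fin 0 → ℝ)) ⊤ (subCF R {x : Fin 0 → ℝ | x ≠ 0}) (k + 1)) := by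
  refine ⟨?_, fun k => ?_⟩
  · have hZ : Zc (CC R (Fin 0 → ℝ)) ⊤ (subCF R {x : Fin 0 → ℝ | x ≠ 0}) 0 = ⊤ := rfl
    have hB : Bd (CC R (Fin 0 → ℝ)) ⊤ (subCF R {x : Fin 0 → ℝ | x ≠ 0}) 0 = ⊥ := by
      rw [eq_bot_iff]
      intro x hx
      obtain ⟨b, -, a, ha, rfl⟩ := mem_bd.1 hx
      have h1 : b = 0 := loz_succ R 0 b
      have h2 : a = 0 := by
        have h3 : a ∈ subC R 0 {x : Fin 0 → ℝ | x ≠ 0} := ha
        rw [loz_empty, subC_empty] at h3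
        exact (Submodule.mem_bot R).1 h3
      rw [h1, h2, map_zero, add_zero]
      exact zero_mem _
    have hq : (Bd (CC R (Fin 0 → ℝ)) ⊤ (subCF R {x : Fin 0 → ℝ | x ≠ 0}) 0).submoduleOf
        (Zc (CC R (Fin 0 → ℝ)) ⊤ (subCF R {x : Fin 0 → ℝ | x ≠ 0}) 0) = ⊥ := by
      rw [hB, eq_bot_iff]
      intro x hx
      rw [Submodule.mem_bot]
      have h1 : (x : (CC R (Fin 0 → ℝ)).M 0) ∈ (⊥ : Submodule R ((CC R (Fin 0 → ℝ)).M 0)) := hx
      exact Subtype.ext ((Submodule.mem_bot R).1 h1)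
    exact ⟨(Submodule.quotEquivOfEqBot _ hq).trans
      ((LinearEquiv.ofTop _ hZ).trans (LinearEquiv.ofBijective _ (loz_bij R)))⟩
  · refine ⟨fun x y => ?_⟩
    obtain ⟨x', rfl⟩ := Submodule.Quotient.mk_surjective _ x
    obtain ⟨y', rfl⟩ := Submodule.Quotient.mk_surjective _ y
    have h1 : x' = y' := Subtype.ext
      ((loz_succ R k x'.1).trans (loz_succ R k y'.1).symm)
    rw [h1]

end Pool.Agent.H4.CU
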