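import Pool.Agent.H4.CU.LOC
import Pool.Agent.H4.CU.LOZ
import Pool.Agent.H4.CU.A3
import Pool.Agent.H4.CU.A4

/-! # [H4 CU LOB] The local homology of `ℝ^n` at `0`

`loc_main`: induction on `n` with `loc_zero`, `loc_step`, `loc_step_zero` (cases on `k`).
`loc_ball`: `U = subCF (ball 0 1)`, `V = subCF {x ≠ 0}`, both sets open, their union is everything (`0` is in the ball), so `(⊤, U ⊔ V)` is acyclic (`factEC`, `subC_univ`). `hr_exc` (`U ⊓ V` is
`subCF (ball ∩ {x ≠ 0})` by `subC_inf`) and `hr_right` with `A = V`, `B = U ⊔ V`, `C = ⊤`. `loc_ball_main`: the combination. -/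

namespace Pool.Agent.H4.CU

variable (R : Type) [CommRing R]

theorem loc_main (n : ℕ) :
    Nonempty (Hr (CC R (Fin n → ℝ)) ⊤ (subCF R {x : Fin n → ℝ | x ≠ 0}) n ≃ₗ[R] R) ∧
    ∀ k, k ≠ n → Subsingleton (Hr (CC R (Fin n → ℝ)) ⊤ (subCF R {x : Fin n → ℝ | x ≠ 0}) k) := by
  induction n with
  | zero =>
    refine ⟨(loc_zero R).1, fun k hk => ?_⟩
    obtain ⟨m, rfl⟩ := Nat.exists_eq_succ_of_ne_zero hk
    exact (loc_zero R).2 m
  | succ n ih =>
    obtain ⟨⟨e⟩, h2⟩ := ih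
    refine ⟨?_, fun k hk => ?_⟩
    · obtain ⟨f⟩ := loc_step R n n
      exact ⟨f.trans e⟩
    · cases k with
      | zero => exact loc_step_zero R n
      | succ k =>
        obtain ⟨f⟩ := loc_step R n k
        have h3 := h2 k (fun h => hk (by rw [h]))
        exact f.toEquiv.subsingleton

theorem loc_ball (n k : ℕ) :
    Nonempty (Hr (CC R (Fin n → ℝ)) (subCF R (Metric.ball 0 1))
      (subCF R (Metric.ball 0 1 ∩ {x : Fin n → ℝ | x ≠ 0})) k ≃ₗ[R]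
      Hr (CC R (Fin n → ℝ)) ⊤ (subCF R {x : Fin n → ℝ | x ≠ 0}) k) := by
  have hUs := sc_subCF R (Metric.ball (0 : Fin n → ℝ) 1)
  have hVs := sc_subCF R {x : Fin n → ℝ | x ≠ 0}
  have hun : Metric.ball (0 : Fin n → ℝ) 1 ∪ {x : Fin n → ℝ | x ≠ 0} = Set.univ := by
    rw [Set.eq_univ_iff_forall]
    intro x
    by_cases hx : x = 0
    · left
      rw [hx]
      exact Metric.mem_ball_self one_pos
    · exact Or.inr hx
  have hopV : IsOpen {x : Fin n → ℝ | x ≠ 0} := isOpen_ne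
  have hacy : Acy (CC R (Fin n → ℝ)) ⊤
      (subCF R (Metric.ball (0 : Fin n → ℝ) 1) ⊔ subCF R {x : Fin n → ℝ | x ≠ 0}) := by
    have h1 := factEC R (U := Metric.ball (0 : Fin n → ℝ) 1) (V := {x : Fin n → ℝ | x ≠ 0})
      (O := Metric.ball (0 : Fin n → ℝ) 1) (O' := {x : Fin n → ℝ | x ≠ 0})
      Metric.isOpen_ball hopV (by rw [hun, Set.inter_univ]) (by rw [hun, Set.inter_univ])
    have h2 : subCF R (Metric.ball (0 : Fin n → ℝ) 1 ∪ {x : Fin n → ℝ | x ≠ 0}) = ⊤ := by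
      rw [hun]
      funext m
      exact subC_univ R m
    rw [h2] at h1
    exact h1
  have hinf : subCF R (Metric.ball (0 : Fin n → ℝ) 1) ⊓ subCF R {x : Fin n → ℝ | x ≠ 0} =
      subCF R (Metric.ball 0 1 ∩ {x : Fin n → ℝ | x ≠ 0}) := by
    funext m
    exact subC_inf R _ _ m
  obtain ⟨e⟩ := hr_exc hUs hVs k
  rw [hinf] at e
  have hBs : Sc (CC R (Fin n → ℝ))
      (subCF R (Metric.ball (0 : Fin n → ℝ) 1) ⊔ subCF R {x : Fin n → ℝ | x ≠ 0}) := by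
    intro m x hx
    obtain ⟨u, hu, v, hv, rfl⟩ := Submodule.mem_sup.1 hx
    rw [map_add]
    exact Submodule.add_mem_sup (hUs m u hu) (hVs m v hv)
  have hTs : Sc (CC R (Fin n → ℝ)) ⊤ := fun m x _ => Submodule.mem_top
  obtain ⟨f⟩ := hr_right hVs hBs hTs le_sup_right le_top hacy k
  exact ⟨e.trans f⟩

theorem loc_ball_main (n : ℕ) :
    Nonempty (Hr (CC R (Fin n → ℝ)) (subCF R (Metric.ball 0 1))
      (subCF R (Metric.ball 0 1 ∩ {x : Fin n → ℝ | x ≠ 0})) n ≃ₗ[R] R) ∧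
    ∀ k, k ≠ n → Subsingleton (Hr (CC R (Fin n → ℝ)) (subCF R (Metric.ball 0 1))
      (subCF R (Metric.ball 0 1 ∩ {x : Fin n → ℝ | x ≠ 0})) k) := by
  obtain ⟨⟨e⟩, h2⟩ := loc_main R n
  refine ⟨?_, fun k hk => ?_⟩
  · obtain ⟨f⟩ := loc_ball R n n
    exact ⟨f.trans e⟩
  · obtain ⟨f⟩ := loc_ball R n k
    have h3 := h2 k hk
    exact f.toEquiv.subsingleton

end Pool.Agent.H4.CU
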