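import Pool.Agent.H4.CU.AT2
import Pool.Agent.H4.CU.AT4
import Pool.Agent.H4.CU.FE
import Pool.Agent.H4.CU.LOB

/-! # [H4 CU AT5] The homology of `(Z, A)`

Let `V = Z ∖ centres`, `U = cellsOf`. `Hr (Z, A) ≅ Hr (Z, V)` (`hr_left`, `Att.acy`, `A ⊆ V ⊆ Z`: centres are not in `A` by `cells_eq`). `U ∪ V = Z`, `U = Aᶜ ∩ Z`, `V = (centres)ᶜ ∩ Z`
(`cells_eq`, `clA`, `centres_closed`; a centre is in `cellsOf`), so `factE` gives `Acy (subF Z) (subF U ⊔ subF V)` and `hr_right` (`A := subF V`, `B := subF U ⊔ subF V`, `C := subF Z`):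
`Hr (U ⊔ V, V) ≅ Hr (Z, V)`; `hr_exc`: `Hr (U, U ⊓ V) ≅ Hr (U ⊔ V, V)`, and `subF U ⊓ subF V = subF (U ∩ V)` (`subK_inf`, `inv_cells`), `U ∩ V = cellsOf ∖ centres`.
First case of `hst`: `Att.free` and `loc_ball_main`. Second case: `Att.kill` and `hr_bot`. -/

namespace Pool.Agent.H4.CU

variable {Γ : Type} [Group Γ] {R : Type} [CommRing R] (φ : Γ →* R) {X : Type} [TopologicalSpace X] [T2Space X]
  [MulAction Γ X] [ContinuousConstSMul Γ X] {Z A : Set X} {n : ℕ} {Φ : C(Fin n → ℝ, X)}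

private theorem sc_sup' {K : Cx R} {A B : Fam K} (hA : Sc K A) (hB : Sc K B) : Sc K (A ⊔ B) := by
  intro n x hx
  obtain ⟨a, ha, b, hb, rfl⟩ := Submodule.mem_sup.1 hx
  rw [map_add]
  exact Submodule.add_mem _ (Submodule.mem_sup_left (hA n a ha))
    (Submodule.mem_sup_right (hB n b hb))

private theorem subF_mono {U V : Set X} (h : U ⊆ V) : subF φ U ≤ subF φ V :=
  fun _ => subK_mono φ h

theorem Att.hr_iso (h : Att Γ Z A n Φ) (k : ℕ) : Nonempty (Hr (CK φ X) (subF φ Z) (subF φ A) k ≃ₗ[R]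
    Hr (CK φ X) (subF φ (cellsOf Γ Φ)) (subF φ (cellsOf Γ Φ \ centres Γ Φ)) k) := by
  have hcU : centres Γ Φ ⊆ cellsOf Γ Φ := by
    rintro z ⟨g, rfl⟩
    exact ⟨g, 0, Metric.mem_ball_self one_pos, rfl⟩
  have hU : cellsOf Γ Φ = Z \ A := h.cells_eq
  have hAV : A ⊆ Z \ centres Γ Φ := by
    intro a ha
    refine ⟨h.sub ha, fun hc => ?_⟩
    have h1 := hcU hc
    rw [hU] at h1
    exact h1.2 ha
  have hUV : cellsOf Γ Φ ∪ (Z \ centres Γ Φ) = Z := by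
    apply Set.Subset.antisymm
    · refine Set.union_subset ?_ Set.sdiff_subset
      rw [hU]
      exact Set.sdiff_subset
    · intro z hz
      by_cases hA : z ∈ A
      · exact Or.inr (hAV hA)
      · left
        rw [hU]
        exact ⟨hz, hA⟩
  have hint : cellsOf Γ Φ ∩ (Z \ centres Γ Φ) = cellsOf Γ Φ \ centres Γ Φ := by
    ext z
    constructor
    · rintro ⟨h1, h2⟩
      exact ⟨h1, h2.2⟩
    · rintro ⟨h1, h2⟩
      refine ⟨h1, ?_, h2⟩
      rw [hU] at h1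
      exact h1.1
  obtain ⟨e1⟩ := hr_left (K := CK φ X) (A := subF φ A) (B := subF φ (Z \ centres Γ Φ))
    (C := subF φ Z) (sc_subF φ _) (sc_subF φ _) (sc_subF φ _) (subF_mono φ hAV)
    (subF_mono φ Set.sdiff_subset) (h.acy φ) k
  have hacy : Acy (CK φ X) (subF φ Z) (subF φ (cellsOf Γ Φ) ⊔ subF φ (Z \ centres Γ Φ)) := by
    have h1 := factE φ (U := cellsOf Γ Φ) (V := Z \ centres Γ Φ) (O := Aᶜ)
      (O' := (centres Γ Φ)ᶜ) h.clA.isOpen_compl h.centres_closed.isOpen_compl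
      (by
        rw [hUV, hU]
        ext z
        constructor
        · rintro ⟨h1, h2⟩
          exact ⟨h2, h1⟩
        · rintro ⟨h1, h2⟩
          exact ⟨h2, h1⟩)
      (by
        rw [hUV]
        ext z
        constructor
        · rintro ⟨h1, h2⟩
          exact ⟨h2, h1⟩
        · rintro ⟨h1, h2⟩
          exact ⟨h2, h1⟩)
    rwa [hUV] at h1
  obtain ⟨e2⟩ := hr_right (K := CK φ X) (A := subF φ (Z \ centres Γ Φ))
    (B := subF φ (cellsOf Γ Φ) ⊔ subF φ (Z \ centres Γ Φ)) (C := subF φ Z)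
    (sc_subF φ _) (sc_sup' (sc_subF φ _) (sc_subF φ _)) (sc_subF φ _) le_sup_right
    (sup_le (subF_mono φ (by rw [hU]; exact Set.sdiff_subset))
      (subF_mono φ Set.sdiff_subset)) hacy k
  obtain ⟨e3⟩ := hr_exc (K := CK φ X) (U := subF φ (cellsOf Γ Φ))
    (V := subF φ (Z \ centres Γ Φ)) (sc_subF φ _) (sc_subF φ _) k
  have hinf : (subF φ (cellsOf Γ Φ) ⊓ subF φ (Z \ centres Γ Φ) : Fam (CK φ X)) =
      subF φ (cellsOf Γ Φ \ centres Γ Φ) := by
    funext j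
    have h1 := subK_inf φ (U := cellsOf Γ Φ) (V := Z \ centres Γ Φ) inv_cells j
    rw [hint] at h1
    exact h1
  rw [hinf] at e3
  exact ⟨e1.trans (e2.symm.trans e3.symm)⟩

theorem Att.hr (h : Att Γ Z A n Φ)
    (hst : (∀ g : Γ, (∀ x ∈ Metric.ball (0 : Fin n → ℝ) 1, g • Φ x = Φ x) → g = 1) ∨
      ∃ g : Γ, (∀ x ∈ Metric.ball (0 : Fin n → ℝ) 1, g • Φ x = Φ x) ∧ IsUnit (1 - φ g)) :
    (∀ k, k ≠ n → Subsingleton (Hr (CK φ X) (subF φ Z) (subF φ A) k)) ∧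
      (Subsingleton (Hr (CK φ X) (subF φ Z) (subF φ A) n) ∨
        Nonempty (Hr (CK φ X) (subF φ Z) (subF φ A) n ≃ₗ[R] R)) := by
  rcases hst with hst | ⟨g, hg, hu⟩
  · obtain ⟨⟨e0⟩, h0⟩ := loc_ball_main R n
    constructor
    · intro k hk
      obtain ⟨e1⟩ := h.hr_iso φ k
      obtain ⟨e2⟩ := h.free φ hst k
      have := h0 k hk
      exact (e1.trans e2).toEquiv.subsingleton
    · right
      obtain ⟨e1⟩ := h.hr_iso φ n
      obtain ⟨e2⟩ := h.free φ hst n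
      exact ⟨e1.trans (e2.trans e0)⟩
  · have h1 : ∀ k, Subsingleton (Hr (CK φ X) (subF φ Z) (subF φ A) k) := by
      intro k
      obtain ⟨e1⟩ := h.hr_iso φ k
      have := hr_bot (K := CK φ X) (B := subF φ (cellsOf Γ Φ))
        (A := subF φ (cellsOf Γ Φ \ centres Γ Φ)) (fun j => h.kill φ g hg hu j) k
      exact e1.toEquiv.subsingleton
    exact ⟨fun k _ => h1 k, Or.inl (h1 n)⟩

end Pool.Agent.H4.CU
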