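import Pool.Agent.H4.CU.CW3

/-! # [H4 CU CW4] Removing an orbit of top-dimensional cells from an invariant subcomplex

`orb G C = ⋃_g g C`. For every `g` there is `e''` with `g openCell n e = openCell n e''` (`CellAct`): the orbit is a union of open `n`-cells. Let `A = Z ∖ orb`.
`subX_step`. `inv`: clear. `dich` for a cell `e'`: if it is disjoint from `Z`, it is disjoint from `A`. If `openCell e' ⊆ Z`: if `openCell e' = g openCell n e` for some `g` it is disjoint from `A`; otherwise it is
disjoint from all `g openCell n e` (`CWComplex.disjoint_openCell_of_ne`; equal cells would give equal open cells), so it is in `A`. `fr`: `openCell m e' ⊆ A`: `m ≤ n` (`hmax`), the frontier is in `Z` and in a union of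
open cells of dimension `< m ≤ n` (`CWComplex.cellFrontier_subset_finite_openCell`), which are disjoint from the open `n`-cells.
`att_step`: `Φ x = map n e (fun i => max (-1) (min 1 (x i)))`, continuous (`continuousOn` on the closed ball; the clamp is continuous with values in `closedBall 0 1` and is the identity on it). `in_ball`: the points
`Φ x` are in `openCell n e ⊆ Z`, in the orbit (`g = 1`). `in_sphere`: `cellFrontier n e ⊆ Z`, in a union of open cells of dimension `< n`. `symm`: `ψ = (map n e).symm` (`continuousOn_symm`, target = image of the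
source = image of the ball, `source_eq`; `PartialEquiv.left_inv`). `cover`: clear. `rigid`: `g openCell n e = openCell n e''`: `e'' = e`: `RigidAct`; else disjoint. `clZ`, `clA`: `SubX.closed`.
`coh`: `SubX.coh` for `Z`: let `openCell m e' ⊆ Z`. If it is in `A` then `closedCell m e' ⊆ A` (`fr` for `A`) and `W ∩ closedCell = (W ∩ A) ∩ closedCell`; else (by `dich` for `A` and the definition) `openCell m e' = g openCell n e`
for some `g`, with `m = n`, and `closedCell m e' = closure (openCell m e') = g closure (openCell n e) = g closedCell n e` (`CWComplex.closure_openCell_eq_closedCell`, `Homeomorph.image_closure`, `Homeomorph.smul`),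
which is `(fun x => g • Φ x) '' closedBall 0 1`. -/

namespace Pool.Agent.H4.CU

open Topology Pool.Agent.H59.FS

/-- the orbit of a set -/
def orb (G : Type) [Group G] {X : Type} [MulAction G X] (C : Set X) : Set X := {z | ∃ g : G, ∃ c ∈ C, z = g • c}

variable {G : Type} [Group G] {X : Type} [TopologicalSpace X] [T2Space X] [CWComplex (Set.univ : Set X)] [MulAction G X]

omit [T2Space X] in
private theorem front_mem {m : ℕ} {e' : RelCWComplex.cell (Set.univ : Set X) m} {z : X}
    (hz : z ∈ RelCWComplex.cellFrontier m e') :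
    ∃ l, l < m ∧ ∃ j : RelCWComplex.cell (Set.univ : Set X) l, z ∈ RelCWComplex.openCell l j := by
  obtain ⟨I, hI⟩ := CWComplex.cellFrontier_subset_finite_openCell m e'
  have h1 := hI hz
  simp only [Set.mem_iUnion] at h1
  obtain ⟨l, hl, j, _, hj⟩ := h1
  exact ⟨l, hl, j, hj⟩

private theorem orb_mem (hcell : CellAct G X) {n : ℕ} {e : RelCWComplex.cell (Set.univ : Set X) n}
    {l : ℕ} {j : RelCWComplex.cell (Set.univ : Set X) l} {z : X}
    (hz : z ∈ orb G (RelCWComplex.openCell n e)) (hj : z ∈ RelCWComplex.openCell l j) :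
    l = n ∧ ∃ g : G, (g • ·) '' RelCWComplex.openCell n e = RelCWComplex.openCell l j := by
  obtain ⟨g, c, hc, rfl⟩ := hz
  obtain ⟨e'', he⟩ := hcell g n e
  have h1 : g • c ∈ RelCWComplex.openCell n e'' := by
    rw [← he]
    exact ⟨c, hc, rfl⟩
  have h2 : ¬ Disjoint (RelCWComplex.openCell n e'') (RelCWComplex.openCell l j) := fun h3 =>
    Set.disjoint_left.1 h3 h1 hj
  have h4 := RelCWComplex.eq_of_not_disjoint_openCell h2
  obtain ⟨rfl, h5⟩ := Sigma.mk.inj_iff.1 h4
  obtain rfl := eq_of_heq h5
  exact ⟨rfl, g, he⟩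

omit [TopologicalSpace X] [T2Space X] [CWComplex (Set.univ : Set X)] in
private theorem orb_smul {C : Set X} {g : G} {z : X} (h : g • z ∈ orb G C) : z ∈ orb G C := by
  obtain ⟨g', c, hc, h1⟩ := h
  refine ⟨g⁻¹ * g', c, hc, ?_⟩
  rw [mul_smul, ← h1, inv_smul_smul]

theorem subX_step (hcell : CellAct G X) {Z : Set X} (h : SubX G Z) {n : ℕ}
    (e : RelCWComplex.cell (Set.univ : Set X) n)
    (hmax : ∀ (m : ℕ) (e' : RelCWComplex.cell (Set.univ : Set X) m), RelCWComplex.openCell m e' ⊆ Z → m ≤ n) :
    SubX G (Z \ orb G (RelCWComplex.openCell n e)) := by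
  refine ⟨?_, ?_, ?_⟩
  · intro g z hz
    exact ⟨h.inv g z hz.1, fun h1 => hz.2 (orb_smul h1)⟩
  · intro m e'
    rcases h.dich m e' with h1 | h1
    · by_cases hex : ∃ z ∈ RelCWComplex.openCell m e', z ∈ orb G (RelCWComplex.openCell n e)
      · right
        obtain ⟨z, hz, hzo⟩ := hex
        obtain ⟨_, g, hg⟩ := orb_mem hcell hzo hz
        rw [Set.disjoint_left]
        intro y hy hy'
        apply hy'.2
        rw [← hg] at hy
        obtain ⟨c, hc, rfl⟩ := hy
        exact ⟨g, c, hc, rfl⟩
      · left
        intro z hz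
        exact ⟨h1 hz, fun h2 => hex ⟨z, hz, h2⟩⟩
    · right
      exact h1.mono_right Set.sdiff_subset
  · intro m e' he' z hz
    have h1 : RelCWComplex.openCell m e' ⊆ Z := he'.trans Set.sdiff_subset
    refine ⟨h.fr m e' h1 hz, fun h2 => ?_⟩
    obtain ⟨l, hl, j, hj⟩ := front_mem hz
    have h3 := (orb_mem hcell h2 hj).1
    have h4 := hmax m e' h1
    omega

/-- the clamp -/
private def clp {n : ℕ} (x : Fin n → ℝ) : Fin n → ℝ := fun i => max (-1) (min 1 (x i))

private theorem clp_cont {n : ℕ} : Continuous (clp : (Fin n → ℝ) → (Fin n → ℝ)) := by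
  refine continuous_pi fun i => ?_
  exact continuous_const.max (continuous_const.min (continuous_apply i))

private theorem clp_mem {n : ℕ} (x : Fin n → ℝ) : clp x ∈ Metric.closedBall (0 : Fin n → ℝ) 1 := by
  rw [mem_closedBall_zero_iff, pi_norm_le_iff_of_nonneg zero_le_one]
  intro i
  rw [Real.norm_eq_abs, abs_le]
  refine ⟨le_max_left _ _, max_le (by norm_num) (min_le_left _ _)⟩

private theorem clp_eq {n : ℕ} {x : Fin n → ℝ} (hx : x ∈ Metric.closedBall (0 : Fin n → ℝ) 1) :
    clp x = x := by
  rw [mem_closedBall_zero_iff, pi_norm_le_iff_of_nonneg zero_le_one] at hx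
  funext i
  have h1 := hx i
  rw [Real.norm_eq_abs, abs_le] at h1
  change max (-1) (min 1 (x i)) = x i
  rw [min_eq_right h1.2, max_eq_right h1.1]

theorem att_step [ContinuousConstSMul G X] (hcell : CellAct G X) (hrig : RigidAct G X) {Z : Set X} (h : SubX G Z) {n : ℕ}
    (e : RelCWComplex.cell (Set.univ : Set X) n) (he : RelCWComplex.openCell n e ⊆ Z)
    (hmax : ∀ (m : ℕ) (e' : RelCWComplex.cell (Set.univ : Set X) m), RelCWComplex.openCell m e' ⊆ Z → m ≤ n) :
    ∃ Φ : C(Fin n → ℝ, X), Att G Z (Z \ orb G (RelCWComplex.openCell n e)) n Φ ∧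
      Φ '' Metric.ball 0 1 = RelCWComplex.openCell n e := by
  let Φ : C(Fin n → ℝ, X) := ⟨fun x => RelCWComplex.map n e (clp x),
    (RelCWComplex.continuousOn n e).comp_continuous clp_cont clp_mem⟩
  have hΦ : ∀ x ∈ Metric.closedBall (0 : Fin n → ℝ) 1, Φ x = RelCWComplex.map n e x := fun x hx => by
    change RelCWComplex.map n e (clp x) = _
    rw [clp_eq hx]
  have hball : ∀ x ∈ Metric.ball (0 : Fin n → ℝ) 1, Φ x ∈ RelCWComplex.openCell n e := fun x hx =>
    ⟨x, hx, (hΦ x (Metric.ball_subset_closedBall hx)).symm⟩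
  have hball' : ∀ z ∈ RelCWComplex.openCell n e, ∃ x ∈ Metric.ball (0 : Fin n → ℝ) 1, Φ x = z := by
    rintro z ⟨x, hx, rfl⟩
    exact ⟨x, hx, hΦ x (Metric.ball_subset_closedBall hx)⟩
  have himg : Φ '' Metric.ball 0 1 = RelCWComplex.openCell n e := by
    ext z
    constructor
    · rintro ⟨x, hx, rfl⟩
      exact hball x hx
    · intro hz
      obtain ⟨x, hx, h1⟩ := hball' z hz
      exact ⟨x, hx, h1⟩
  have hA := subX_step hcell h e hmax
  refine ⟨Φ, ?_, himg⟩
  refine
    { invA := hA.inv
      invZ := h.inv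
      clA := hA.closed
      clZ := h.closed
      sub := Set.sdiff_subset
      in_ball := ?_
      in_sphere := ?_
      symm := ?_
      cover := ?_
      rigid := ?_
      coh := ?_ }
  · intro x hx
    exact ⟨he (hball x hx), fun h1 => h1.2 ⟨1, Φ x, hball x hx, (one_smul G _).symm⟩⟩
  · intro x hx
    have h1 : Φ x ∈ RelCWComplex.cellFrontier n e :=
      ⟨x, hx, (hΦ x (Metric.sphere_subset_closedBall hx)).symm⟩
    refine ⟨h.fr n e he h1, fun h2 => ?_⟩
    obtain ⟨l, hl, j, hj⟩ := front_mem h1
    have h3 := (orb_mem hcell h2 hj).1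
    omega
  · refine ⟨(RelCWComplex.map n e).symm, ?_, fun x hx => ?_⟩
    · have h1 := RelCWComplex.continuousOn_symm n e
      rw [← PartialEquiv.image_source_eq_target, RelCWComplex.source_eq] at h1
      rw [himg]
      exact h1
    · rw [hΦ x (Metric.ball_subset_closedBall hx)]
      refine (RelCWComplex.map n e).left_inv ?_
      rw [RelCWComplex.source_eq]
      exact hx
  · intro z hz
    by_cases h1 : z ∈ orb G (RelCWComplex.openCell n e)
    · right
      obtain ⟨g, c, hc, rfl⟩ := h1
      obtain ⟨x, hx, rfl⟩ := hball' c hc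
      exact ⟨g, x, hx, rfl⟩
    · exact Or.inl ⟨hz, h1⟩
  · intro g
    obtain ⟨e'', he''⟩ := hcell g n e
    by_cases h1 : e'' = e
    · left
      subst h1
      intro x hx
      exact hrig g n _ he'' _ (hball x hx)
    · right
      intro x hx y hy h2
      have h3 : g • Φ x ∈ RelCWComplex.openCell n e'' := by
        rw [← he'']
        exact ⟨Φ x, hball x hx, rfl⟩
      rw [h2] at h3
      have h4 : ¬ Disjoint (RelCWComplex.openCell n e'') (RelCWComplex.openCell n e) := fun h5 =>
        Set.disjoint_left.1 h5 h3 (hball y hy)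
      have h6 := RelCWComplex.eq_of_not_disjoint_openCell h4
      exact h1 (eq_of_heq (Sigma.mk.inj_iff.1 h6).2)
  · intro W hW hWA hWg
    refine h.coh hW (fun m e' he' => ?_)
    rcases hA.dich m e' with h1 | h1
    · have h2 : RelCWComplex.closedCell m e' ⊆ Z \ orb G (RelCWComplex.openCell n e) := by
        rw [← RelCWComplex.cellFrontier_union_openCell_eq_closedCell]
        exact Set.union_subset (hA.fr m e' h1) h1
      have h3 : W ∩ RelCWComplex.closedCell m e' =
          (W ∩ (Z \ orb G (RelCWComplex.openCell n e))) ∩ RelCWComplex.closedCell m e' := by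
        ext z
        constructor
        · rintro ⟨h4, h5⟩
          exact ⟨⟨h4, h2 h5⟩, h5⟩
        · rintro ⟨⟨h4, _⟩, h5⟩
          exact ⟨h4, h5⟩
      rw [h3]
      exact hWA.inter RelCWComplex.isClosed_closedCell
    · obtain ⟨z, hz⟩ := RelCWComplex.openCell_nonempty m e'
      have h2 : z ∈ orb G (RelCWComplex.openCell n e) := by
        by_contra h3
        exact Set.disjoint_left.1 h1 hz ⟨he' hz, h3⟩
      obtain ⟨_, g, hg⟩ := orb_mem hcell h2 hz
      have h4 : RelCWComplex.closedCell m e' = (fun x => g • Φ x) '' Metric.closedBall 0 1 := by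
        rw [← RelCWComplex.closure_openCell_eq_closedCell, ← hg]
        have h5 := (Homeomorph.smul g).image_closure (RelCWComplex.openCell n e)
        rw [RelCWComplex.closure_openCell_eq_closedCell] at h5
        have h6 : (g • ·) '' RelCWComplex.openCell n e =
            (Homeomorph.smul g : X ≃ₜ X) '' RelCWComplex.openCell n e := rfl
        rw [h6, ← h5]
        ext y
        constructor
        · rintro ⟨c, ⟨x, hx, rfl⟩, rfl⟩
          exact ⟨x, hx, congrArg (fun y => g • y) (hΦ x hx)⟩
        · rintro ⟨x, hx, rfl⟩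
          exact ⟨_, ⟨x, hx, rfl⟩, congrArg (fun y => g • y) (hΦ x hx).symm⟩
      rw [h4]
      exact hWg g

end Pool.Agent.H4.CU
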