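import Pool.Agent.H4.CU.Alg

/-! # [H4 CU GST] The Euler class does not change if the relative homology is `R` in one degree

`H' → H → H'' → H'[-1]` long exact, `H'' k = 0` for `k ≠ m`, `H'' m` is `0` or isomorphic to `R`, `R` noetherian. `Good E H' w → Good E H w`.
Rules: `E.cl` of a subsingleton module is `0` (`E.add M ⊥` for `M` subsingleton, `M ⧸ ⊥ ≃ M`, `⊥ ≃ M`, so `cl M = cl M + cl M`).
For an exact `0 → X → Y → Z → 0` of f.g. modules: `cl Y = cl X + cl Z` (`E.add Y (range)`, `LinearEquiv.ofInjective`, `quotKerEquivOfSurjective`).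
If `H'' k` and `H'' (k+1)` are zero, `i k` is bijective (`LinearEquiv.ofBijective`): same class. If `H'' m = 0`: all `i k` are bijective.
If `H'' m ≃ R`: let `I = range (j m) = ker (δ (m-1))` (a submodule of `H'' m`, f.g. since `R` is noetherian). `H m`: `0 → H' m → H m → I → 0` (`H'' (m+1) = 0`).
`m = 0`: `I = ⊤`, `cl (H 0) = cl (H' 0) + cl R`. `m = l + 1`: `0 → H'' m ⧸ I → H' l → H l → 0` (`j l` has values in `H'' l = 0`, so `i l` is surjective), `cl (H'' m) = cl I + cl (H'' m ⧸ I) = 0`:
`(-1)^m (cl (H m) - cl (H' m)) + (-1)^l (cl (H l) - cl (H' l)) = (-1)^m (cl I + cl (H'' m ⧸ I)) = 0`. All other degrees: equal classes.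
Finiteness: `H k` is an extension of a submodule of `H'' k` by a quotient of `H' k` (`Module.Finite.of_submodule_quotient`, noetherian).
The new `N` is `max N (m + 2)`; compare the sums over `range N'` (`Finset.sum_congr`, or `Finset.sum_sub_distrib` and `Finset.sum_eq_...` for the two degrees). -/

namespace Pool.Agent.H4.CU

variable {R : Type} [CommRing R]

private theorem cl_zero {A : Type} [AddCommGroup A] (E : EulerFn R A) (M : Type) [AddCommGroup M]
    [Module R M] [Subsingleton M] : E.cl M = 0 := by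
  have h0 : Module.Finite R M := Module.Finite.of_surjective (0 : R →ₗ[R] M)
    fun x => ⟨0, Subsingleton.elim _ _⟩
  have h1 := E.add M ⊥
  have e1 : (⊥ : Submodule R M) ≃ₗ[R] M :=
    LinearEquiv.ofBijective (Submodule.subtype ⊥) ⟨Subtype.val_injective,
      fun x => ⟨0, Subsingleton.elim _ _⟩⟩
  have h2 := E.iso _ _ e1
  have h3 := E.iso _ _ (Submodule.quotEquivOfEqBot (⊥ : Submodule R M) rfl)
  rw [h2, h3] at h1
  exact left_eq_add.1 h1

private theorem cl_quot {A : Type} [AddCommGroup A] (E : EulerFn R A) {X Y : Type}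
    [AddCommGroup X] [Module R X] [AddCommGroup Y] [Module R Y] [Module.Finite R X]
    (g : X →ₗ[R] Y) : E.cl X = E.cl (LinearMap.ker g) + E.cl (LinearMap.range g) := by
  rw [E.add X (LinearMap.ker g), E.iso _ _ g.quotKerEquivRange]

private theorem cl_sub {A : Type} [AddCommGroup A] (E : EulerFn R A) {X Y Z : Type}
    [AddCommGroup X] [Module R X] [AddCommGroup Y] [Module R Y] [AddCommGroup Z] [Module R Z]
    (f : X →ₗ[R] Y) (g : Y →ₗ[R] Z) (h : Function.Exact f g) :
    E.cl (LinearMap.ker g) = E.cl (LinearMap.range f) := by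
  have : LinearMap.ker g = LinearMap.range f := LinearMap.exact_iff.1 h
  rw [this]

private theorem tele {A : Type} [AddCommGroup A] (a : ℕ → A) (n : ℕ) :
    ∑ k ∈ Finset.range n, (-1 : ℤ) ^ k • (a k + a (k + 1)) = a 0 - (-1 : ℤ) ^ n • a n := by
  induction n with
  | zero => simp
  | succ n ih =>
    rw [Finset.sum_range_succ, ih, pow_succ, smul_add]
    simp only [mul_neg, mul_one, neg_smul]
    abel

theorem good_les [IsNoetherianRing R] {A : Type} [AddCommGroup A] (E : EulerFn R A)
    (H' H H'' : ℕ → Type) [∀ k, AddCommGroup (H' k)] [∀ k, Module R (H' k)] [∀ k, AddCommGroup (H k)]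
    [∀ k, Module R (H k)] [∀ k, AddCommGroup (H'' k)] [∀ k, Module R (H'' k)]
    (i : ∀ n, H' n →ₗ[R] H n) (j : ∀ n, H n →ₗ[R] H'' n) (δ : ∀ n, H'' (n + 1) →ₗ[R] H' n)
    (h1 : ∀ n, Function.Exact (i n) (j n)) (h2 : ∀ n, Function.Exact (j (n + 1)) (δ n))
    (h3 : ∀ n, Function.Exact (δ n) (i n)) (h4 : Function.Surjective (j 0)) (m : ℕ)
    (h5 : ∀ k, k ≠ m → Subsingleton (H'' k))
    (h6 : Subsingleton (H'' m) ∨ Nonempty (H'' m ≃ₗ[R] R)) {w : A} (hg : Good E H' w) :
    Good E H w := by
  obtain ⟨hfin, N0, hN0, hsum⟩ := hg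
  have hf'' : ∀ k, Module.Finite R (H'' k) := by
    intro k
    by_cases hk : k = m
    · subst hk
      obtain h | ⟨⟨e⟩⟩ := h6
      · exact Module.Finite.of_surjective (0 : R →ₗ[R] H'' k) fun x => ⟨0, Subsingleton.elim _ _⟩
      · exact Module.Finite.equiv e.symm
    · have := h5 k hk
      exact Module.Finite.of_surjective (0 : R →ₗ[R] H'' k) fun x => ⟨0, Subsingleton.elim _ _⟩
  have hcl'' : ∀ k, E.cl (H'' k) = 0 := by
    intro k
    by_cases hk : k = m
    · subst hk
      obtain h | ⟨⟨e⟩⟩ := h6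
      · exact cl_zero E _
      · rw [E.iso _ _ e, E.self]
    · have := h5 k hk
      exact cl_zero E _
  have hf : ∀ k, Module.Finite R (H k) := by
    intro k
    have a1 : Module.Finite R (LinearMap.range (i k)) := inferInstance
    have a2 : Module.Finite R (LinearMap.ker (j k)) := by
      rw [LinearMap.exact_iff.1 (h1 k)]
      exact a1
    have a3 : Module.Finite R (LinearMap.range (j k)) := inferInstance
    have a4 : Module.Finite R (H k ⧸ LinearMap.ker (j k)) :=
      Module.Finite.equiv (j k).quotKerEquivRange.symm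
    exact Module.Finite.of_submodule_quotient (LinearMap.ker (j k))
  let a : ℕ → A := fun k => E.cl (LinearMap.range (j k))
  have hstep : ∀ k, E.cl (H k) = E.cl (H' k) + (a k + a (k + 1)) := by
    intro k
    have b1 : E.cl (H k) = E.cl (LinearMap.range (i k)) + a k := by
      rw [cl_quot E (j k), cl_sub E _ _ (h1 k)]
    have b2 : E.cl (H' k) = E.cl (LinearMap.range (δ k)) + E.cl (LinearMap.range (i k)) := by
      rw [cl_quot E (i k), cl_sub E _ _ (h3 k)]
    have b3 : E.cl (H'' (k + 1)) = a (k + 1) + E.cl (LinearMap.range (δ k)) := by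
      rw [cl_quot E (δ k), cl_sub E _ _ (h2 k)]
    rw [hcl''] at b3
    have b4 : E.cl (LinearMap.range (δ k)) = - a (k + 1) := by
      rw [eq_neg_iff_add_eq_zero, add_comm]
      exact b3.symm
    rw [b1, b2, b4]
    abel
  have ha0 : a 0 = 0 := by
    have : LinearMap.range (j 0) = ⊤ := LinearMap.range_eq_top.2 h4
    show E.cl (LinearMap.range (j 0)) = 0
    rw [this, E.iso _ _ (Submodule.topEquiv (R := R) (M := H'' 0)), hcl'']
  have hak : ∀ k, m + 1 ≤ k → a k = 0 := by
    intro k hk
    have := h5 k (by omega)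
    exact cl_zero E _
  refine ⟨hf, max N0 (m + 1), ?_, ?_⟩
  · intro k hk
    have c1 := hN0 k ((le_max_left _ _).trans hk)
    have c2 := h5 k (by have := (le_max_right N0 (m + 1)).trans hk; omega)
    have c3 : ∀ x : H k, x = 0 := by
      intro x
      obtain ⟨y, rfl⟩ := (h1 k x).1 (Subsingleton.elim _ _)
      rw [Subsingleton.elim y 0, map_zero]
    exact ⟨fun x y => by rw [c3 x, c3 y]⟩
  · intro N' hN'
    rw [← hsum N' ((le_max_left _ _).trans hN')]
    have d1 : ∀ k, (-1 : ℤ) ^ k • E.cl (H k) =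
        (-1 : ℤ) ^ k • E.cl (H' k) + (-1 : ℤ) ^ k • (a k + a (k + 1)) := by
      intro k
      rw [hstep, smul_add]
    simp only [d1]
    rw [Finset.sum_add_distrib, tele, ha0, hak N' ((le_max_right _ _).trans hN'), smul_zero,
      sub_zero, add_zero]

/-- `Good` is invariant under isomorphisms -/
theorem good_iso {A : Type} [AddCommGroup A] (E : EulerFn R A) (H' H : ℕ → Type)
    [∀ k, AddCommGroup (H' k)] [∀ k, Module R (H' k)] [∀ k, AddCommGroup (H k)] [∀ k, Module R (H k)]
    (e : ∀ k, Nonempty (H' k ≃ₗ[R] H k)) {w : A} (hg : Good E H' w) : Good E H w := by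
  obtain ⟨hfin, N0, hN0, hsum⟩ := hg
  refine ⟨fun k => ?_, N0, fun k hk => ?_, fun N' hN' => ?_⟩
  · obtain ⟨e⟩ := e k
    exact Module.Finite.equiv e
  · obtain ⟨e⟩ := e k
    have := hN0 k hk
    exact e.symm.injective.subsingleton
  · rw [← hsum N' hN']
    refine Finset.sum_congr rfl fun k _ => ?_
    obtain ⟨e⟩ := e k
    rw [E.iso _ _ e]

end Pool.Agent.H4.CU
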