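import Pool.Agent.H4.CU.Alg

/-! # [H4 CU LES] The long exact sequence of a pair of subcomplexes

`A ≤ B` stable. `i`: induced by `Zc A ⊥ n ≤ Zc B ⊥ n`. `j`: induced by `Zc B ⊥ n ≤ Zc B A n`. `δ n`: induced by `d : Zc B A (n+1) → Zc A ⊥ n` (`d x ∈ A n`, `d (d x) = 0`);
it maps `Bd B A (n+1) = d B + A` into `d A ≤ Bd A ⊥ n`. All by `Submodule.mapQ` (of `LinearMap.restrict` / `codRestrict`).
Exactness (`Function.Exact f g` : `g y = 0 ↔ y ∈ range f`):
`(i, j)`: `x ∈ Zc B ⊥ n` with `x = d b + a`: `a = x - d b ∈ A`, a cycle, `[x] = i [a]`. Conversely `A n ≤ Bd B A n`.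
`(j, δ)`: `x ∈ Zc B A (n+1)`, `d x = d a` with `a ∈ A (n+1)`: `x - a` is a cycle of `B`, `[x] = j [x - a]`. Conversely the `d` of a cycle is `0`.
`(δ, i)`: `x ∈ Zc A ⊥ n`, `x = d b` with `b ∈ B (n+1)`: `[x] = δ [b]`. Conversely `d x ∈ d B`.
`j 0` is surjective: `Zc B ⊥ 0 = Zc B A 0 = B 0`. -/

namespace Pool.Agent.H4.CU

variable {R : Type} [CommRing R]

private theorem zc_le {K : Cx R} {B A : Fam K} {n : ℕ} {x : K.M n} (h : x ∈ Zc K B A n) :
    x ∈ B n := by
  cases n with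
  | zero => exact h
  | succ n => exact h.1

private theorem zc1 {K : Cx R} {A B : Fam K} (hAB : A ≤ B) (n : ℕ) :
    Zc K A ⊥ n ≤ Zc K B ⊥ n := by
  intro x hx
  cases n with
  | zero => exact hAB 0 hx
  | succ n => exact ⟨hAB _ hx.1, hx.2⟩

private theorem zc2 {K : Cx R} {A B : Fam K} (n : ℕ) : Zc K B ⊥ n ≤ Zc K B A n := by
  intro x hx
  cases n with
  | zero => exact hx
  | succ n =>
    refine ⟨hx.1, ?_⟩
    have h : K.d n x = 0 := hx.2
    change K.d n x ∈ A n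
    rw [h]
    exact zero_mem _

private theorem zc3 {K : Cx R} {A B : Fam K} (n : ℕ) (x : Zc K B A (n + 1)) :
    ((K.d n).comp (Zc K B A (n + 1)).subtype) x ∈ Zc K A ⊥ n := by
  have h1 : K.d n (x : K.M (n + 1)) ∈ A n := x.2.2
  cases n with
  | zero => exact h1
  | succ n =>
    refine ⟨h1, ?_⟩
    change K.d n (K.d (n + 1) (x : K.M (n + 1 + 1))) = 0
    exact K.dd n _

/-- the map induced by an inclusion of cycles -/
private def mI {K : Cx R} {A B A' B' : Fam K} {n : ℕ} (h : Zc K B A n ≤ Zc K B' A' n)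
    (h' : Bd K B A n ≤ Bd K B' A' n) : Hr K B A n →ₗ[R] Hr K B' A' n :=
  Submodule.mapQ _ _ (Submodule.inclusion h) (fun x hx => h' hx)

private theorem mI_mk {K : Cx R} {A B A' B' : Fam K} {n : ℕ} (h : Zc K B A n ≤ Zc K B' A' n)
    (h' : Bd K B A n ≤ Bd K B' A' n) (x : Zc K B A n) :
    mI h h' (Submodule.Quotient.mk x) =
      (Submodule.Quotient.mk (⟨x.1, h x.2⟩ : Zc K B' A' n) : Hr K B' A' n) := rfl

private theorem hr_zero {K : Cx R} {A B : Fam K} {n : ℕ} {x : Zc K B A n} :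
    (Submodule.Quotient.mk x : Hr K B A n) = 0 ↔ (x : K.M n) ∈ Bd K B A n :=
  Submodule.Quotient.mk_eq_zero _

private theorem hr_eq {K : Cx R} {A B : Fam K} {n : ℕ} {x y : Zc K B A n} :
    (Submodule.Quotient.mk x : Hr K B A n) = Submodule.Quotient.mk y ↔
      (x : K.M n) - (y : K.M n) ∈ Bd K B A n :=
  Submodule.Quotient.eq _

private theorem bd1 {K : Cx R} {A B : Fam K} (hAB : A ≤ B) (n : ℕ) :
    Bd K A ⊥ n ≤ Bd K B ⊥ n := by
  intro x hx
  obtain ⟨b, hb, a, ha, rfl⟩ := mem_bd.1 hx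
  exact mem_bd.2 ⟨b, hAB _ hb, a, ha, rfl⟩

private theorem bd2 {K : Cx R} {A B : Fam K} (n : ℕ) : Bd K B ⊥ n ≤ Bd K B A n := by
  intro x hx
  obtain ⟨b, hb, a, ha, rfl⟩ := mem_bd.1 hx
  refine mem_bd.2 ⟨b, hb, a, ?_, rfl⟩
  have : a = 0 := ha
  rw [this]
  exact zero_mem _

/-- the boundary map -/
private def mD {K : Cx R} (A B : Fam K) (n : ℕ) : Hr K B A (n + 1) →ₗ[R] Hr K A ⊥ n :=
  Submodule.mapQ _ _ (LinearMap.codRestrict (Zc K A ⊥ n)
    ((K.d n).comp (Zc K B A (n + 1)).subtype) (zc3 n)) (by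
      intro x hx
      obtain ⟨b, _, a, ha, h⟩ := mem_bd.1 hx
      refine mem_bd.2 ⟨a, ha, 0, zero_mem _, ?_⟩
      have e : K.d n (x : K.M (n + 1)) = K.d n a := by
        have h' : K.d (n + 1) b + a = (x : K.M (n + 1)) := h
        rw [← h', map_add, K.dd, zero_add]
      rw [add_zero]
      exact e.symm)

private theorem mD_mk {K : Cx R} (A B : Fam K) (n : ℕ) (x : Zc K B A (n + 1)) :
    mD A B n (Submodule.Quotient.mk x) =
      (Submodule.Quotient.mk (⟨K.d n x.1, zc3 n x⟩ : Zc K A ⊥ n) : Hr K A ⊥ n) := rfl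

private theorem exact_of {M N P : Type} [AddCommGroup M] [Module R M] [AddCommGroup N] [Module R N]
    [AddCommGroup P] [Module R P] (f : M →ₗ[R] N) (g : N →ₗ[R] P) (h1 : ∀ x, g (f x) = 0)
    (h2 : ∀ y, g y = 0 → ∃ x, f x = y) : Function.Exact f g := by
  intro y
  constructor
  · exact h2 y
  · rintro ⟨x, rfl⟩
    exact h1 x

theorem les {K : Cx R} {A B : Fam K} (hA : Sc K A) (hB : Sc K B) (hAB : A ≤ B) :
    ∃ (i : ∀ n, Hr K A ⊥ n →ₗ[R] Hr K B ⊥ n) (j : ∀ n, Hr K B ⊥ n →ₗ[R] Hr K B A n)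
      (δ : ∀ n, Hr K B A (n + 1) →ₗ[R] Hr K A ⊥ n),
      (∀ n, Function.Exact (i n) (j n)) ∧ (∀ n, Function.Exact (j (n + 1)) (δ n)) ∧
      (∀ n, Function.Exact (δ n) (i n)) ∧ Function.Surjective (j 0) := by
  refine ⟨fun n => mI (zc1 hAB n) (bd1 hAB n), fun n => mI (zc2 n) (bd2 n), fun n => mD A B n,
    ?_, ?_, ?_, ?_⟩
  · intro n
    refine exact_of _ _ ?_ ?_
    · intro z
      obtain ⟨x, rfl⟩ := Submodule.Quotient.mk_surjective _ z
      rw [mI_mk, mI_mk, hr_zero]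
      exact mem_bd.2 ⟨0, zero_mem _, x.1, zc_le x.2, by rw [map_zero, zero_add]⟩
    · intro z hz
      obtain ⟨x, rfl⟩ := Submodule.Quotient.mk_surjective _ z
      rw [mI_mk, hr_zero] at hz
      obtain ⟨b, hb, a, ha, h⟩ := mem_bd.1 hz
      have haz : a ∈ Zc K A ⊥ n := by
        cases n with
        | zero => exact ha
        | succ n =>
          refine ⟨ha, ?_⟩
          change K.d n a = 0
          have h1 : K.d n (x : K.M (n + 1)) = 0 := x.2.2
          have h2 : K.d n (K.d (n + 1) b + a) = 0 := by rw [h]; exact h1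
          rwa [map_add, K.dd, zero_add] at h2
      refine ⟨Submodule.Quotient.mk ⟨a, haz⟩, ?_⟩
      rw [mI_mk, hr_eq]
      refine mem_bd.2 ⟨-b, neg_mem hb, 0, zero_mem _, ?_⟩
      have h' : K.d n b + a = (x : K.M n) := h
      rw [map_neg, add_zero, ← h']
      abel
  · intro n
    refine exact_of _ _ ?_ ?_
    · intro z
      obtain ⟨x, rfl⟩ := Submodule.Quotient.mk_surjective _ z
      rw [mI_mk, mD_mk, hr_zero]
      have h1 : K.d n (x : K.M (n + 1)) = 0 := x.2.2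
      change K.d n (x : K.M (n + 1)) ∈ _
      rw [h1]
      exact zero_mem _
    · intro z hz
      obtain ⟨x, rfl⟩ := Submodule.Quotient.mk_surjective _ z
      rw [mD_mk, hr_zero] at hz
      obtain ⟨a, ha, c, hc, h⟩ := mem_bd.1 hz
      have hc0 : c = 0 := hc
      rw [hc0, add_zero] at h
      have h' : K.d n a = K.d n (x : K.M (n + 1)) := h
      have hxa : (x : K.M (n + 1)) - a ∈ Zc K B ⊥ (n + 1) := by
        refine ⟨sub_mem x.2.1 (hAB _ ha), ?_⟩
        change K.d n ((x : K.M (n + 1)) - a) = 0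
        rw [map_sub, h', sub_self]
      refine ⟨Submodule.Quotient.mk ⟨_, hxa⟩, ?_⟩
      rw [mI_mk, hr_eq]
      refine mem_bd.2 ⟨0, zero_mem _, -a, neg_mem ha, ?_⟩
      rw [map_zero, zero_add]
      change -a = (x : K.M (n + 1)) - a - (x : K.M (n + 1))
      abel
  · intro n
    refine exact_of _ _ ?_ ?_
    · intro z
      obtain ⟨x, rfl⟩ := Submodule.Quotient.mk_surjective _ z
      rw [mD_mk, mI_mk, hr_zero]
      exact mem_bd.2 ⟨x.1, x.2.1, 0, zero_mem _, by rw [add_zero]⟩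
    · intro z hz
      obtain ⟨x, rfl⟩ := Submodule.Quotient.mk_surjective _ z
      rw [mI_mk, hr_zero] at hz
      obtain ⟨b, hb, c, hc, h⟩ := mem_bd.1 hz
      have hc0 : c = 0 := hc
      rw [hc0, add_zero] at h
      have h' : K.d n b = (x : K.M n) := h
      have hbz : b ∈ Zc K B A (n + 1) := by
        refine ⟨hb, ?_⟩
        change K.d n b ∈ A n
        rw [h']
        exact zc_le x.2
      refine ⟨Submodule.Quotient.mk ⟨b, hbz⟩, ?_⟩
      rw [mD_mk, hr_eq]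
      change K.d n b - (x : K.M n) ∈ _
      rw [h', sub_self]
      exact zero_mem _
  · intro z
    obtain ⟨x, rfl⟩ := Submodule.Quotient.mk_surjective _ z
    exact ⟨Submodule.Quotient.mk ⟨x.1, x.2⟩, rfl⟩

end Pool.Agent.H4.CU
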