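import Pool.Agent.H4.CU.CW2
import Pool.Agent.H4.CU.CW4
import Pool.Agent.H4.CU.AT5
import Pool.Agent.H4.CU.LES
import Pool.Agent.H4.CU.GST

/-! # [H4 CU CW5] The Euler class of a proper cocompact rigid CW complex

`good_sub`: `S` as in `reps`. Induction on the number of the `e ∈ S` with `openCell e ⊆ Z` (classical filter).
If there is none then `Z = ∅`: `z ∈ Z` is in some open cell `e` (`CWComplex.iUnion_openCell_eq_complex`), which is inside `Z` (`dich`), `e = g e'` with `e' ∈ S` and `openCell e' = g⁻¹ openCell e ⊆ Z` (`inv`). Then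
`subF φ ∅ k = ⊥` (`subK_empty`), all the homology is zero (`hr_bot`), so `Good` with `N = 0` (every `cl` of a zero module is `0`: `E.add` with `N = ⊤` or `E.add` and `E.iso`: `cl M = cl N + cl (M ⧸ N)` with all three zero
modules, hence isomorphic, so `c = c + c`).
Otherwise let `e` be one of them with `e.1` maximal (`Finset.exists_max_image`). `hmax` holds: a cell `e'` of dimension `m` inside `Z` is `g e''` with `e'' ∈ S` of dimension `m`, inside `Z` (`inv`).
`A = Z ∖ orb`: `subX_step`, `att_step`; the number of the cells of `S` inside `A` is smaller (`A ⊆ Z`, and `e` is not inside `A`: `RelCWComplex.openCell_nonempty`). So `Good E (Hr (A, ⊥)) 0` by induction, and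
`les` (`sc_subF`, `subK_mono`), `Att.hr` (with the alternative `hst` for `e`, transported by `Φ '' ball = openCell n e`), `good_les` give `Good E (Hr (Z, ⊥)) 0`.
`good_cw`: `reps`, `stab`, `good_sub` with `Z = univ` (`subX_univ`), `subF φ univ = ⊤` (`subK_univ`). -/

namespace Pool.Agent.H4.CU

open Topology Pool.Agent.H59.FS

variable {G : Type} [Group G] {X : Type} [TopologicalSpace X] [T2Space X] [CWComplex (Set.univ : Set X)] [MulAction G X]
  [ContinuousConstSMul G X] {R : Type} [CommRing R] [IsNoetherianRing R] (φ : G →* R) {B : Type} [AddCommGroup B]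

private theorem cl_zero5 {A : Type} [AddCommGroup A] (E : EulerFn R A) (M : Type) [AddCommGroup M]
    [Module R M] [Subsingleton M] : E.cl M = 0 := by
  have h0 : Module.Finite R M := Module.Finite.of_surjective (0 : R →ₗ[R] M)
    fun x => ⟨0, Subsingleton.elim _ _⟩
  have h1 := E.add M ⊥
  have e1 : (⊥ : Submodule R M) ≃ₗ[R] M :=
    LinearEquiv.ofBijective (Submodule.subtype ⊥) ⟨Subtype.val_injective,
      fun x => ⟨0, Subsingleton.elim _ _⟩⟩
  have h2 := E.iso _ _ e1
  have h3 := E.iso _ _ (Submodule.quotEquivOfEqBot (⊥ : Submodule R M) rfl)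
  rw [h2, h3] at h1
  exact left_eq_add.1 h1

/-- a cell inside `Z` is a translate of a cell of `S` inside `Z` -/
private theorem mem_S {S : Finset (Σ n, RelCWComplex.cell (Set.univ : Set X) n)}
    (hS : ∀ (n : ℕ) (e : RelCWComplex.cell (Set.univ : Set X) n),
      ∃ (g : G) (e' : RelCWComplex.cell (Set.univ : Set X) n), (⟨n, e'⟩ : Σ n, RelCWComplex.cell (Set.univ : Set X) n) ∈ S ∧
        (g • ·) '' RelCWComplex.openCell n e' = RelCWComplex.openCell n e)
    {Z : Set X} (h : SubX G Z) {n : ℕ} (e : RelCWComplex.cell (Set.univ : Set X) n)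
    (he : RelCWComplex.openCell n e ⊆ Z) :
    ∃ e' : RelCWComplex.cell (Set.univ : Set X) n,
      (⟨n, e'⟩ : Σ n, RelCWComplex.cell (Set.univ : Set X) n) ∈ S ∧ RelCWComplex.openCell n e' ⊆ Z := by
  obtain ⟨g, e', h1, h2⟩ := hS n e
  refine ⟨e', h1, ?_⟩
  intro x hx
  have h3 : g • x ∈ Z := he (by rw [← h2]; exact ⟨x, hx, rfl⟩)
  have h4 := h.inv g⁻¹ (g • x) h3
  rwa [inv_smul_smul] at h4

private theorem good_aux (E : EulerFn R B) (hcell : CellAct G X) (hrig : RigidAct G X)
    (S : Finset (Σ n, RelCWComplex.cell (Set.univ : Set X) n))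
    (hS : ∀ (n : ℕ) (e : RelCWComplex.cell (Set.univ : Set X) n),
      ∃ (g : G) (e' : RelCWComplex.cell (Set.univ : Set X) n), (⟨n, e'⟩ : Σ n, RelCWComplex.cell (Set.univ : Set X) n) ∈ S ∧
        (g • ·) '' RelCWComplex.openCell n e' = RelCWComplex.openCell n e)
    (hst : ∀ (n : ℕ) (e : RelCWComplex.cell (Set.univ : Set X) n),
      (∀ g : G, (∀ x ∈ RelCWComplex.openCell n e, g • x = x) → g = 1) ∨
        ∃ g : G, (∀ x ∈ RelCWComplex.openCell n e, g • x = x) ∧ IsUnit (1 - φ g)) (N : ℕ) :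
    ∀ (Z : Set X) (_ : SubX G Z) (T : Finset (Σ n, RelCWComplex.cell (Set.univ : Set X) n)),
      (∀ c, c ∈ T ↔ c ∈ S ∧ RelCWComplex.openCell c.1 c.2 ⊆ Z) → T.card = N →
      Good E (fun k => Hr (CK φ X) (subF φ Z) ⊥ k) 0 := by
  classical
  induction N using Nat.strong_induction_on with
  | _ N ih =>
  intro Z h T hT hN
  rcases T.eq_empty_or_nonempty with h0 | h0
  · have hZ : Z = ∅ := by
      rw [Set.eq_empty_iff_forall_notMem]
      intro z hz
      have h1 : z ∈ ⋃ (n : ℕ) (e : RelCWComplex.cell (Set.univ : Set X) n), RelCWComplex.openCell n e := by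
        rw [CWComplex.iUnion_openCell_eq_complex]
        exact Set.mem_univ z
      simp only [Set.mem_iUnion] at h1
      obtain ⟨n, e, he⟩ := h1
      have h2 : RelCWComplex.openCell n e ⊆ Z := by
        rcases h.dich n e with h3 | h3
        · exact h3
        · exact absurd hz (Set.disjoint_left.1 h3 he)
      obtain ⟨e', h3, h4⟩ := mem_S hS h e h2
      have h5 := (hT ⟨n, e'⟩).2 ⟨h3, h4⟩
      rw [h0] at h5
      exact Finset.notMem_empty _ h5
    have hs : ∀ k, Subsingleton (Hr (CK φ X) (subF φ Z) ⊥ k) := by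
      intro k
      rw [hZ]
      exact hr_bot (fun n => subK_empty φ n) k
    refine ⟨fun k => ?_, 0, fun k _ => hs k, fun N' _ => ?_⟩
    · have := hs k
      exact Module.Finite.of_surjective (0 : R →ₗ[R] Hr (CK φ X) (subF φ Z) ⊥ k)
        fun x => ⟨0, Subsingleton.elim _ _⟩
    · refine Finset.sum_eq_zero fun k _ => ?_
      have := hs k
      rw [cl_zero5 E, smul_zero]
  · obtain ⟨⟨n, e⟩, heT, hmx⟩ := Finset.exists_max_image T (fun c => c.1) h0
    obtain ⟨heS, heZ⟩ := (hT _).1 heT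
    have hmax : ∀ (m : ℕ) (e' : RelCWComplex.cell (Set.univ : Set X) m),
        RelCWComplex.openCell m e' ⊆ Z → m ≤ n := by
      intro m e' he'
      obtain ⟨e'', h1, h2⟩ := mem_S hS h e' he'
      exact hmx ⟨m, e''⟩ ((hT _).2 ⟨h1, h2⟩)
    have hA := subX_step hcell h e hmax
    obtain ⟨Φ, hatt, hΦ⟩ := att_step hcell hrig h e heZ hmax
    set A : Set X := Z \ orb G (RelCWComplex.openCell n e) with hAd
    have hAZ : A ⊆ Z := Set.sdiff_subset
    have hlt : (T.filter fun c => RelCWComplex.openCell c.1 c.2 ⊆ A).card < N := by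
      rw [← hN]
      apply Finset.card_lt_card
      rw [Finset.filter_ssubset]
      refine ⟨⟨n, e⟩, heT, ?_⟩
      intro hcon
      obtain ⟨x, hx⟩ := RelCWComplex.openCell_nonempty (C := (Set.univ : Set X)) n e
      exact (hcon hx).2 ⟨1, x, hx, (one_smul G x).symm⟩
    have hgood := ih _ hlt A hA (T.filter fun c => RelCWComplex.openCell c.1 c.2 ⊆ A)
      (by
        intro c
        rw [Finset.mem_filter, hT c]
        constructor
        · rintro ⟨⟨h1, -⟩, h2⟩
          exact ⟨h1, h2⟩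
        · rintro ⟨h1, h2⟩
          exact ⟨⟨h1, h2.trans hAZ⟩, h2⟩) rfl
    obtain ⟨i, j, δ, x1, x2, x3, x4⟩ := les (K := CK φ X) (A := subF φ A) (B := subF φ Z)
      (sc_subF φ A) (sc_subF φ Z) (fun k => subK_mono φ hAZ)
    have hst' : (∀ g : G, (∀ x ∈ Metric.ball (0 : Fin n → ℝ) 1, g • Φ x = Φ x) → g = 1) ∨
        ∃ g : G, (∀ x ∈ Metric.ball (0 : Fin n → ℝ) 1, g • Φ x = Φ x) ∧ IsUnit (1 - φ g) := by
      have hiff : ∀ g : G, (∀ x ∈ Metric.ball (0 : Fin n → ℝ) 1, g • Φ x = Φ x) ↔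
          ∀ x ∈ RelCWComplex.openCell n e, g • x = x := by
        intro g
        rw [← hΦ]
        constructor
        · rintro h1 _ ⟨x, hx, rfl⟩
          exact h1 x hx
        · intro h1 x hx
          exact h1 _ ⟨x, hx, rfl⟩
      rcases hst n e with h1 | ⟨g, h1, h2⟩
      · exact Or.inl fun g hg => h1 g ((hiff g).1 hg)
      · exact Or.inr ⟨g, (hiff g).2 h1, h2⟩
    obtain ⟨y1, y2⟩ := hatt.hr φ hst'
    exact good_les E (fun k => Hr (CK φ X) (subF φ A) ⊥ k) (fun k => Hr (CK φ X) (subF φ Z) ⊥ k)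
      (fun k => Hr (CK φ X) (subF φ Z) (subF φ A) k) i j δ x1 x2 x3 x4 n y1 y2 hgood

theorem good_sub (E : EulerFn R B) (hcell : CellAct G X) (hrig : RigidAct G X)
    (S : Finset (Σ n, RelCWComplex.cell (Set.univ : Set X) n))
    (hS : ∀ (n : ℕ) (e : RelCWComplex.cell (Set.univ : Set X) n),
      ∃ (g : G) (e' : RelCWComplex.cell (Set.univ : Set X) n), (⟨n, e'⟩ : Σ n, RelCWComplex.cell (Set.univ : Set X) n) ∈ S ∧
        (g • ·) '' RelCWComplex.openCell n e' = RelCWComplex.openCell n e)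
    (hst : ∀ (n : ℕ) (e : RelCWComplex.cell (Set.univ : Set X) n),
      (∀ g : G, (∀ x ∈ RelCWComplex.openCell n e, g • x = x) → g = 1) ∨
        ∃ g : G, (∀ x ∈ RelCWComplex.openCell n e, g • x = x) ∧ IsUnit (1 - φ g))
    (Z : Set X) (h : SubX G Z) : Good E (fun k => Hr (CK φ X) (subF φ Z) ⊥ k) 0 := by
  classical
  exact good_aux φ E hcell hrig S hS hst _ Z h
    (S.filter fun c => RelCWComplex.openCell c.1 c.2 ⊆ Z) (fun c => by rw [Finset.mem_filter]) rfl

theorem good_cw (E : EulerFn R B) (hprop : ProperAct G X) (hcoc : CocptAct G X) (hcell : CellAct G X)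
    (hrig : RigidAct G X) (hφ : ∀ F : Subgroup G, Finite F → F ≠ ⊥ → ∃ f ∈ F, IsUnit (1 - φ f)) :
    Good E (fun k => Hr (CK φ X) ⊤ ⊥ k) 0 := by
  obtain ⟨S, hS⟩ := reps (G := G) (X := X) hcoc hcell
  have h1 := good_sub φ E hcell hrig S hS (stab hprop φ hφ) Set.univ subX_univ
  have h2 : (subF φ (Set.univ : Set X)) = (⊤ : Fam (CK φ X)) := by
    funext k
    exact subK_univ φ k
  rw [h2] at h1
  exact h1

end Pool.Agent.H4.CU
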