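import Pool.Agent.H4.CU.Alg

/-! # [H4 CU A2] Relative homology: an acyclic pair at the bottom

`A ≤ B ≤ C`, `(B, A)` acyclic: `H(C, A) ≅ H(C, B)`. The map is induced by the inclusion `Zc C A n ≤ Zc C B n` (`A ≤ B`), use
`Submodule.mapQ` or `LinearEquiv.ofBijective` of the quotient map.
Surjective: `n = 0`: both cycle modules are `C 0`. `n + 1`: `x ∈ C`, `d x ∈ B`; `d (d x) = 0 ∈ A`, so `d x ∈ Zc B A n` (for `n = 0` no condition), hence `d x = d b + a`,
`b ∈ B`, `a ∈ A`; then `x - b ∈ C`, `d (x - b) = a ∈ A`, and `x - (x - b) = b ∈ B ≤ Bd C B`.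
Injective: `x ∈ Zc C A n`, `x = d c + b` with `c ∈ C`, `b ∈ B`: `b ∈ Zc B A n` (if `n = m + 1`: `d b = d x ∈ A`), so `b = d b' + a` and `x = d (c + b') + a`. -/

namespace Pool.Agent.H4.CU

variable {R : Type} [CommRing R]

theorem hr_left {K : Cx R} {A B C : Fam K} (hA : Sc K A) (hB : Sc K B) (hC : Sc K C) (hAB : A ≤ B)
    (hBC : B ≤ C) (h : Acy K B A) (n : ℕ) : Nonempty (Hr K C A n ≃ₗ[R] Hr K C B n) := by
  have hZ : Zc K C A n ≤ Zc K C B n := by
    cases n with
    | zero => exact le_rfl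
    | succ n => exact inf_le_inf le_rfl (Submodule.comap_mono (hAB n))
  have hBd : Bd K C A n ≤ Bd K C B n := sup_le_sup_left (hAB n) _
  have hle : (Bd K C A n).submoduleOf (Zc K C A n) ≤
      ((Bd K C B n).submoduleOf (Zc K C B n)).comap (Submodule.inclusion hZ) := by
    intro x hx
    exact hBd hx
  have hsurj : ∀ y ∈ Zc K C B n, ∃ x ∈ Zc K C A n, x - y ∈ Bd K C B n := by
    intro y hy
    cases n with
    | zero =>
      refine ⟨y, hy, ?_⟩
      rw [sub_self]
      exact Submodule.zero_mem _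
    | succ n =>
      obtain ⟨hy1, hy2⟩ := mem_zc_succ.1 hy
      have h1 : K.d n y ∈ Zc K B A n := by
        cases n with
        | zero => exact hy2
        | succ m =>
          refine mem_zc_succ.2 ⟨hy2, ?_⟩
          rw [K.dd]
          exact Submodule.zero_mem _
      obtain ⟨b, hb, a, ha, hab⟩ := mem_bd.1 (h n h1)
      refine ⟨y - b, mem_zc_succ.2 ⟨(C (n + 1)).sub_mem hy1 (hBC (n + 1) hb), ?_⟩, ?_⟩
      · rw [map_sub, ← hab, add_sub_cancel_left]
        exact ha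
      · refine mem_bd.2 ⟨0, Submodule.zero_mem _, -b, (B (n + 1)).neg_mem hb, ?_⟩
        rw [map_zero, zero_add, sub_sub_cancel_left]
  have hinj : ∀ x ∈ Zc K C A n, x ∈ Bd K C B n → x ∈ Bd K C A n := by
    intro x hx hxB
    obtain ⟨c, hc, b, hb, hcb⟩ := mem_bd.1 hxB
    have h1 : b ∈ Zc K B A n := by
      cases n with
      | zero => exact hb
      | succ m =>
        refine mem_zc_succ.2 ⟨hb, ?_⟩
        have h2 := (mem_zc_succ.1 hx).2
        rw [← hcb, map_add, K.dd, zero_add] at h2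
        exact h2
    obtain ⟨b', hb', a, ha, hab⟩ := mem_bd.1 (h n h1)
    refine mem_bd.2 ⟨c + b', (C (n + 1)).add_mem hc (hBC (n + 1) hb'), a, ha, ?_⟩
    rw [map_add, add_assoc, hab, hcb]
  refine ⟨LinearEquiv.ofBijective (Submodule.mapQ _ _ (Submodule.inclusion hZ) hle) ⟨?_, ?_⟩⟩
  · rw [injective_iff_map_eq_zero]
    intro q hq
    obtain ⟨x, rfl⟩ := Submodule.Quotient.mk_surjective _ q
    rw [Submodule.mapQ_apply, Submodule.Quotient.mk_eq_zero] at hq
    rw [Submodule.Quotient.mk_eq_zero]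
    exact hinj x.1 x.2 hq
  · intro q
    obtain ⟨y, rfl⟩ := Submodule.Quotient.mk_surjective _ q
    obtain ⟨x, hx, hxy⟩ := hsurj y.1 y.2
    refine ⟨Submodule.Quotient.mk ⟨x, hx⟩, ?_⟩
    rw [Submodule.mapQ_apply, Submodule.Quotient.eq]
    exact hxy

end Pool.Agent.H4.CU
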