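import Pool.Agent.H4.CU.Alg

/-! # [H4 CU A5] Relative homology: Mayer-Vietoris shift

`U, V ≤ C`, `(C, U)` and `(C, V)` acyclic: `H_(n+1)(C, U ⊔ V) ≅ H_n(C, U ⊓ V)` and `H_0(C, U ⊔ V) = 0`.
`H_0`: `C 0 = Zc C U 0 ≤ d C + U`. The isomorphism, from right to left (easier, no choices in a linear way are needed if it is defined as follows): let
`Q` be the submodule of triples `(c, c', y)` in `C (n+1) × C (n+1) × C n` with `y - d c ∈ U n`, `y - d c' ∈ V n` and (if `n = m + 1`) `d y ∈ (U ⊓ V) m`.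
The map `Q → H_n(C, U ⊓ V)`, `(c, c', y) ↦ [y]` is surjective (`y ∈ Zc C U n` and `y ∈ Zc C V n` by the hypothesis, for every `y ∈ Zc C (U ⊓ V) n`),
and `Q → H_(n+1)(C, U ⊔ V)`, `(c, c', y) ↦ [c - c']` is well defined (`d (c - c') = (y - d c') - (y - d c) ∈ U ⊔ V`) and surjective:
for `x ∈ C (n+1)`, `d x = u + v`: take `y = u` , `c' := - x`... precisely: `d v = d (d x) - d u = - d u ∈ V`, so `d u ∈ U ⊓ V` (if `n ≥ 1`); `u ∈ U`, so `c = 0` works for `U`
(`y - d 0 = u ∈ U`), and `c' = x`: `y - d x = - v ∈ V`; the class of `c - c' = - x`; use linearity (replace `x` by `- x`).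
Both maps have the same kernel, so both are isomorphic to `Q / kernel` (`LinearMap.quotKerEquivOfSurjective`, `Submodule.quotEquivOfEq`):
if `y = d c0 + w`, `w ∈ U ⊓ V`: `d (c - c0) = w - (y - d c) ∈ U`, so `c - c0 ∈ Zc C U (n+1)` lies in `d C + U`; in the same way `c' - c0 ∈ d C + V`; so `c - c' ∈ d C + (U ⊔ V)`.
Conversely `c - c' = d e + u + v` (`u ∈ U (n+1)`, `v ∈ V (n+1)`): put `c0 = c - u`: `y - d c0 = (y - d c) + d u ∈ U`; and `c0 = c' + d e + v`, so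
`y - d c0 = (y - d c') - d v ∈ V`: `y = d c0 + w` with `w ∈ U ⊓ V`. -/

namespace Pool.Agent.H4.CU

variable {R : Type} [CommRing R]

private theorem zc_mono {K : Cx R} {C U W : Fam K} (h : W ≤ U) (n : ℕ) : Zc K C W n ≤ Zc K C U n := by
  intro x hx
  cases n with
  | zero => exact hx
  | succ m =>
    rw [mem_zc_succ] at hx ⊢
    exact ⟨hx.1, h m hx.2⟩

private theorem zc_le {K : Cx R} {C U : Fam K} (n : ℕ) : Zc K C U n ≤ C n := by
  intro x hx
  cases n with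
  | zero => exact hx
  | succ m => exact (mem_zc_succ.1 hx).1

/-- the auxiliary module -/
private def QQ (K : Cx R) (C U V : Fam K) (n : ℕ) : Submodule R (K.M (n + 1) × K.M (n + 1) × K.M n) where
  carrier := {q | q.1 ∈ C (n + 1) ∧ q.2.1 ∈ C (n + 1) ∧ q.2.2 ∈ Zc K C (U ⊓ V) n ∧
    q.2.2 - K.d n q.1 ∈ U n ∧ q.2.2 - K.d n q.2.1 ∈ V n}
  zero_mem' := by
    refine ⟨Submodule.zero_mem _, Submodule.zero_mem _, Submodule.zero_mem _, ?_, ?_⟩
    · simp
    · simp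
  add_mem' := by
    rintro a b ⟨a1, a2, a3, a4, a5⟩ ⟨b1, b2, b3, b4, b5⟩
    refine ⟨Submodule.add_mem _ a1 b1, Submodule.add_mem _ a2 b2, Submodule.add_mem _ a3 b3, ?_, ?_⟩
    · have h := Submodule.add_mem _ a4 b4
      have e : (a + b).2.2 - K.d n (a + b).1 = a.2.2 - K.d n a.1 + (b.2.2 - K.d n b.1) := by
        simp only [Prod.fst_add, Prod.snd_add, map_add]
        abel
      rw [e]
      exact h
    · have h := Submodule.add_mem _ a5 b5
      have e : (a + b).2.2 - K.d n (a + b).2.1 = a.2.2 - K.d n a.2.1 + (b.2.2 - K.d n b.2.1) := by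
        simp only [Prod.fst_add, Prod.snd_add, map_add]
        abel
      rw [e]
      exact h
  smul_mem' := by
    rintro r a ⟨a1, a2, a3, a4, a5⟩
    refine ⟨Submodule.smul_mem _ r a1, Submodule.smul_mem _ r a2, Submodule.smul_mem _ r a3, ?_, ?_⟩
    · have h := Submodule.smul_mem _ r a4
      have e : (r • a).2.2 - K.d n (r • a).1 = r • (a.2.2 - K.d n a.1) := by
        simp only [Prod.smul_fst, Prod.smul_snd, map_smul, smul_sub]
      rw [e]
      exact h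
    · have h := Submodule.smul_mem _ r a5
      have e : (r • a).2.2 - K.d n (r • a).2.1 = r • (a.2.2 - K.d n a.2.1) := by
        simp only [Prod.smul_fst, Prod.smul_snd, map_smul, smul_sub]
      rw [e]
      exact h

private theorem mem_QQ {K : Cx R} {C U V : Fam K} {n : ℕ} {q : K.M (n + 1) × K.M (n + 1) × K.M n} :
    q ∈ QQ K C U V n ↔ q.1 ∈ C (n + 1) ∧ q.2.1 ∈ C (n + 1) ∧ q.2.2 ∈ Zc K C (U ⊓ V) n ∧
    q.2.2 - K.d n q.1 ∈ U n ∧ q.2.2 - K.d n q.2.1 ∈ V n := Iff.rfl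

private theorem diff_mem {K : Cx R} {C U V : Fam K} {n : ℕ} {q : K.M (n + 1) × K.M (n + 1) × K.M n}
    (h : q ∈ QQ K C U V n) : q.1 - q.2.1 ∈ Zc K C (U ⊔ V) (n + 1) := by
  obtain ⟨a1, a2, _, a4, a5⟩ := mem_QQ.1 h
  refine mem_zc_succ.2 ⟨Submodule.sub_mem _ a1 a2, ?_⟩
  have e : K.d n (q.1 - q.2.1) = (q.2.2 - K.d n q.2.1) - (q.2.2 - K.d n q.1) := by
    rw [map_sub]
    abel
  rw [e]
  exact Submodule.sub_mem _ (Submodule.mem_sup_right a5) (Submodule.mem_sup_left a4)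

/-- the first map -/
private noncomputable def ff (K : Cx R) (C U V : Fam K) (n : ℕ) : QQ K C U V n →ₗ[R] Hr K C (U ⊓ V) n :=
  (Submodule.mkQ ((Bd K C (U ⊓ V) n).submoduleOf (Zc K C (U ⊓ V) n))) ∘ₗ
    LinearMap.codRestrict (Zc K C (U ⊓ V) n)
      ((LinearMap.snd R (K.M (n + 1)) (K.M n) ∘ₗ LinearMap.snd R (K.M (n + 1)) (K.M (n + 1) × K.M n)) ∘ₗ
        (QQ K C U V n).subtype) (fun q => (mem_QQ.1 q.2).2.2.1)

/-- the second map -/
private noncomputable def gg (K : Cx R) (C U V : Fam K) (n : ℕ) :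
    QQ K C U V n →ₗ[R] Hr K C (U ⊔ V) (n + 1) :=
  (Submodule.mkQ ((Bd K C (U ⊔ V) (n + 1)).submoduleOf (Zc K C (U ⊔ V) (n + 1)))) ∘ₗ
    LinearMap.codRestrict (Zc K C (U ⊔ V) (n + 1))
      ((LinearMap.fst R (K.M (n + 1)) (K.M (n + 1) × K.M n) -
        LinearMap.fst R (K.M (n + 1)) (K.M n) ∘ₗ LinearMap.snd R (K.M (n + 1)) (K.M (n + 1) × K.M n)) ∘ₗ
        (QQ K C U V n).subtype) (fun q => diff_mem q.2)

private theorem ff_ker {K : Cx R} {C U V : Fam K} {n : ℕ} (q : QQ K C U V n) :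
    ff K C U V n q = 0 ↔ q.1.2.2 ∈ Bd K C (U ⊓ V) n := by
  unfold ff
  rw [LinearMap.comp_apply, Submodule.mkQ_apply, Submodule.Quotient.mk_eq_zero]
  exact Iff.rfl

private theorem gg_ker {K : Cx R} {C U V : Fam K} {n : ℕ} (q : QQ K C U V n) :
    gg K C U V n q = 0 ↔ q.1.1 - q.1.2.1 ∈ Bd K C (U ⊔ V) (n + 1) := by
  unfold gg
  rw [LinearMap.comp_apply, Submodule.mkQ_apply, Submodule.Quotient.mk_eq_zero]
  exact Iff.rfl

private theorem ff_surj {K : Cx R} {C U V : Fam K} (h1 : Acy K C U) (h2 : Acy K C V) (n : ℕ) :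
    Function.Surjective (ff K C U V n) := by
  intro z
  obtain ⟨⟨y, hy⟩, rfl⟩ := Submodule.mkQ_surjective _ z
  obtain ⟨c, hc, u, hu, e1⟩ := mem_bd.1 (h1 n (zc_mono inf_le_left n hy))
  obtain ⟨c', hc', v, hv, e2⟩ := mem_bd.1 (h2 n (zc_mono inf_le_right n hy))
  have hq : (c, c', y) ∈ QQ K C U V n := by
    refine mem_QQ.2 ⟨hc, hc', hy, ?_, ?_⟩
    · have e : y - K.d n c = u := by rw [← e1]; abel
      show y - K.d n c ∈ U n
      rw [e]
      exact hu
    · have e : y - K.d n c' = v := by rw [← e2]; abel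
      show y - K.d n c' ∈ V n
      rw [e]
      exact hv
  exact ⟨⟨(c, c', y), hq⟩, rfl⟩

private theorem gg_surj {K : Cx R} {U V C : Fam K} (hU : Sc K U) (hV : Sc K V) (hUC : U ≤ C)
    (hVC : V ≤ C) (n : ℕ) : Function.Surjective (gg K C U V n) := by
  intro z
  obtain ⟨⟨x, hx⟩, rfl⟩ := Submodule.mkQ_surjective _ z
  obtain ⟨hx1, hx2⟩ := mem_zc_succ.1 hx
  obtain ⟨u, hu, v, hv, e⟩ := Submodule.mem_sup.1 hx2
  have hq : (x, (0 : K.M (n + 1)), v) ∈ QQ K C U V n := by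
    refine mem_QQ.2 ⟨hx1, Submodule.zero_mem _, ?_, ?_, ?_⟩
    · show v ∈ Zc K C (U ⊓ V) n
      cases n with
      | zero => exact hVC 0 hv
      | succ m =>
        refine mem_zc_succ.2 ⟨hVC (m + 1) hv, ?_⟩
        have h0 := K.dd m x
        rw [← e, map_add] at h0
        have h3 : K.d m v = -K.d m u := eq_neg_of_add_eq_zero_right h0
        refine Submodule.mem_inf.2 ⟨?_, hV m v hv⟩
        rw [h3]
        exact Submodule.neg_mem _ (hU m u hu)
    · show v - K.d n x ∈ U n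
      have e' : v - K.d n x = -u := by rw [← e]; abel
      rw [e']
      exact Submodule.neg_mem _ hu
    · show v - K.d n 0 ∈ V n
      rw [map_zero, sub_zero]
      exact hv
  refine ⟨⟨(x, (0 : K.M (n + 1)), v), hq⟩, ?_⟩
  unfold gg
  rw [LinearMap.comp_apply]
  congr 1
  refine Subtype.ext ?_
  show x - 0 = x
  exact sub_zero x

private theorem ker_eq {K : Cx R} {U V C : Fam K} (hU : Sc K U) (hV : Sc K V) (hUC : U ≤ C)
    (h1 : Acy K C U) (h2 : Acy K C V) (n : ℕ) :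
    LinearMap.ker (ff K C U V n) = LinearMap.ker (gg K C U V n) := by
  ext ⟨⟨c, c', y⟩, hq⟩
  rw [LinearMap.mem_ker, LinearMap.mem_ker, ff_ker, gg_ker]
  obtain ⟨hc, hc', hy, a4, a5⟩ := mem_QQ.1 hq
  have hc : c ∈ C (n + 1) := hc
  have hc' : c' ∈ C (n + 1) := hc'
  have hy : y ∈ Zc K C (U ⊓ V) n := hy
  have a4 : y - K.d n c ∈ U n := a4
  have a5 : y - K.d n c' ∈ V n := a5
  show y ∈ Bd K C (U ⊓ V) n ↔ c - c' ∈ Bd K C (U ⊔ V) (n + 1)
  constructor
  · intro h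
    obtain ⟨c0, hc0, w, hw, e⟩ := mem_bd.1 h
    obtain ⟨hwU, hwV⟩ := Submodule.mem_inf.1 hw
    have z1 : c - c0 ∈ Zc K C U (n + 1) := by
      refine mem_zc_succ.2 ⟨Submodule.sub_mem _ hc hc0, ?_⟩
      have e' : K.d n (c - c0) = w - (y - K.d n c) := by
        rw [map_sub, ← e]
        abel
      rw [e']
      exact Submodule.sub_mem _ hwU a4
    have z2 : c' - c0 ∈ Zc K C V (n + 1) := by
      refine mem_zc_succ.2 ⟨Submodule.sub_mem _ hc' hc0, ?_⟩
      have e' : K.d n (c' - c0) = w - (y - K.d n c') := by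
        rw [map_sub, ← e]
        abel
      rw [e']
      exact Submodule.sub_mem _ hwV a5
    obtain ⟨b, hb, u, hu, f1⟩ := mem_bd.1 (h1 (n + 1) z1)
    obtain ⟨b', hb', v, hv, f2⟩ := mem_bd.1 (h2 (n + 1) z2)
    refine mem_bd.2 ⟨b - b', Submodule.sub_mem _ hb hb', u - v,
      Submodule.sub_mem _ (Submodule.mem_sup_left hu) (Submodule.mem_sup_right hv), ?_⟩
    have f3 : c - c' = (c - c0) - (c' - c0) := by abel
    rw [f3, ← f1, ← f2, map_sub]
    abel
  · intro h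
    obtain ⟨b, hb, w, hw, e⟩ := mem_bd.1 h
    obtain ⟨u, hu, v, hv, e2⟩ := Submodule.mem_sup.1 hw
    refine mem_bd.2 ⟨c - u, Submodule.sub_mem _ hc (hUC (n + 1) hu), y - K.d n (c - u), ?_, by abel⟩
    refine Submodule.mem_inf.2 ⟨?_, ?_⟩
    · have e' : y - K.d n (c - u) = (y - K.d n c) + K.d n u := by
        rw [map_sub]
        abel
      rw [e']
      exact Submodule.add_mem _ a4 (hU n u hu)
    · have f1 : c - u = c' + K.d (n + 1) b + v := by
        have f2 : c = c' + (c - c') := by abel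
        rw [f2, ← e, ← e2]
        abel
      have e' : y - K.d n (c - u) = (y - K.d n c') - K.d n v := by
        rw [f1, map_add, map_add, K.dd]
        abel
      rw [e']
      exact Submodule.sub_mem _ a5 (hV n v hv)

theorem hr_mv {K : Cx R} {U V C : Fam K} (hU : Sc K U) (hV : Sc K V) (hC : Sc K C) (hUC : U ≤ C)
    (hVC : V ≤ C) (h1 : Acy K C U) (h2 : Acy K C V) (n : ℕ) :
    Nonempty (Hr K C (U ⊔ V) (n + 1) ≃ₗ[R] Hr K C (U ⊓ V) n) :=
  ⟨((gg K C U V n).quotKerEquivOfSurjective (gg_surj hU hV hUC hVC n)).symm ≪≫ₗ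
    (Submodule.quotEquivOfEq _ _ (ker_eq hU hV hUC h1 h2 n).symm) ≪≫ₗ
      (ff K C U V n).quotKerEquivOfSurjective (ff_surj h1 h2 n)⟩

theorem hr_mv_zero {K : Cx R} {U V C : Fam K} (hUC : U ≤ C) (h1 : Acy K C U) :
    Subsingleton (Hr K C (U ⊔ V) 0) := by
  have h0 : ∀ z : Hr K C (U ⊔ V) 0, z = 0 := by
    intro z
    obtain ⟨⟨x, hx⟩, rfl⟩ := Submodule.mkQ_surjective _ z
    rw [Submodule.mkQ_apply, Submodule.Quotient.mk_eq_zero]
    obtain ⟨b, hb, u, hu, e⟩ := mem_bd.1 (h1 0 (show x ∈ Zc K C U 0 from hx))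
    exact mem_bd.2 ⟨b, hb, u, Submodule.mem_sup_left hu, e⟩
  exact ⟨fun a b => (h0 a).trans (h0 b).symm⟩

end Pool.Agent.H4.CU
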