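import Pool.Agent.H4.CU.Att

/-! # [H4 CU AT1] Attaching one orbit of cells: basic facts

`cells_eq`: `⊆`: `g Φ x = z`, `x ∈ ball`: `z ∈ Z` (`in_ball`, `invZ`), `z ∉ A` (else `Φ x = g⁻¹ z ∈ A`); `⊇`: `cover`. `inv_cells`, `inv_centres`: `h (g Φ x) = (h g) Φ x`.
`cell_uniq`: `g Φ x = g' Φ x'`, `x, x' ∈ ball`: `(g⁻¹ g') Φ x' = Φ x`, so by `rigid` (second alternative impossible) `g⁻¹ g'` fixes `Φ(ball)` pointwise; hence `Φ x = Φ x'`, `x = x'` (`symm`),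
and `g' Φ y = g Φ y` for `y ∈ ball`, hence for `y ∈ closedBall` (both sides are continuous in `y`, `X` Hausdorff: the set of the `y` with `g Φ y = g' Φ y` is closed and contains the ball; `closure_ball`).
`centre_iff`: `x ∈ closedBall`: if `g Φ x = g' Φ 0`: `x` is not in the sphere (then `Φ x ∈ A`, so `Φ 0 ∈ A` by `invA`), so `x ∈ ball` and `cell_uniq`. -/

namespace Pool.Agent.H4.CU

variable {Γ : Type} [Group Γ] {X : Type} [TopologicalSpace X] [T2Space X] [MulAction Γ X]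
  [ContinuousConstSMul Γ X] {Z A : Set X} {n : ℕ} {Φ : C(Fin n → ℝ, X)}

omit [T2Space X] [ContinuousConstSMul Γ X] in
theorem Att.cells_eq (h : Att Γ Z A n Φ) : cellsOf Γ Φ = Z \ A := by
  ext z
  constructor
  · rintro ⟨g, x, hx, rfl⟩
    have h1 := h.in_ball x hx
    refine ⟨h.invZ g _ h1.1, fun h2 => h1.2 ?_⟩
    have h3 := h.invA g⁻¹ _ h2
    rwa [inv_smul_smul] at h3
  · rintro ⟨hz, hzA⟩
    rcases h.cover z hz with h1 | h1
    · exact absurd h1 hzA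
    · exact h1

omit [T2Space X] [ContinuousConstSMul Γ X] in
theorem inv_cells : Inv Γ (cellsOf Γ Φ) := by
  rintro g z ⟨k, x, hx, rfl⟩
  exact ⟨g * k, x, hx, by rw [mul_smul]⟩

omit [T2Space X] [ContinuousConstSMul Γ X] in
theorem inv_centres : Inv Γ (centres Γ Φ) := by
  rintro g z ⟨k, rfl⟩
  exact ⟨g * k, by rw [mul_smul]⟩

theorem Att.cell_uniq (h : Att Γ Z A n Φ) {g g' : Γ} {x x' : Fin n → ℝ} (hx : x ∈ Metric.ball (0 : Fin n → ℝ) 1)
    (hx' : x' ∈ Metric.ball (0 : Fin n → ℝ) 1) (he : g • Φ x = g' • Φ x') :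
    x = x' ∧ (∀ y ∈ Metric.closedBall (0 : Fin n → ℝ) 1, g • Φ y = g' • Φ y) ∧
      ∀ y ∈ Metric.ball (0 : Fin n → ℝ) 1, (g⁻¹ * g') • Φ y = Φ y := by
  have h1 : (g⁻¹ * g') • Φ x' = Φ x := by
    rw [mul_smul, ← he, inv_smul_smul]
  have h2 : ∀ y ∈ Metric.ball (0 : Fin n → ℝ) 1, (g⁻¹ * g') • Φ y = Φ y := by
    rcases h.rigid (g⁻¹ * g') with h3 | h3
    · exact h3
    · exact absurd h1 (h3 x' hx' x hx)
  have h4 : Φ x' = Φ x := by rw [← h1, h2 x' hx']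
  obtain ⟨ψ, -, hψ⟩ := h.symm
  have h5 : x = x' := by rw [← hψ x hx, ← hψ x' hx', h4]
  refine ⟨h5, ?_, h2⟩
  have h6 : ∀ y ∈ Metric.ball (0 : Fin n → ℝ) 1, g • Φ y = g' • Φ y := by
    intro y hy
    have h7 := h2 y hy
    rw [mul_smul, inv_smul_eq_iff] at h7
    exact h7.symm
  have h8 : IsClosed {y : Fin n → ℝ | g • Φ y = g' • Φ y} :=
    isClosed_eq ((continuous_const_smul g).comp Φ.continuous) ((continuous_const_smul g').comp Φ.continuous)
  have h9 : Metric.closedBall (0 : Fin n → ℝ) 1 ⊆ {y : Fin n → ℝ | g • Φ y = g' • Φ y} := by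
    rw [← closure_ball (0 : Fin n → ℝ) one_ne_zero]
    exact h8.closure_subset_iff.2 h6
  exact fun y hy => h9 hy

theorem Att.centre_iff (h : Att Γ Z A n Φ) (g : Γ) {x : Fin n → ℝ} (hx : x ∈ Metric.closedBall (0 : Fin n → ℝ) 1) :
    g • Φ x ∈ centres Γ Φ ↔ x = 0 := by
  have h0 : (0 : Fin n → ℝ) ∈ Metric.ball (0 : Fin n → ℝ) 1 := Metric.mem_ball_self one_pos
  constructor
  · rintro ⟨g', he⟩
    rcases (Metric.mem_closedBall.1 hx).lt_or_eq with h1 | h1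
    · exact (h.cell_uniq (Metric.mem_ball.2 h1) h0 he).1
    · exfalso
      have h2 := h.in_sphere x (Metric.mem_sphere.2 h1)
      have h3 := h.invA g _ h2
      rw [he] at h3
      have h4 := h.invA g'⁻¹ _ h3
      rw [inv_smul_smul] at h4
      exact (h.in_ball 0 h0).2 h4
  · rintro rfl
    exact ⟨g, rfl⟩

end Pool.Agent.H4.CU
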