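import Pool.Agent.H4.CU.INJ
import Pool.Agent.H4.CU.A8

/-! # [H4 CU FH] Homotopies of pairs inside a subset

`B` invariant, `A ⊆ B`, `h : J → Z → Z` continuous on `J × B`, equivariant on `B`, `h_t(B) ⊆ B`, `h_t(A) ⊆ A`, `h_0 = id` on `B`, `h_1(B) ⊆ A`. Then `H(B, A) = 0`.
`acy_of_htp` with `P (gK σ) = gK (x ↦ h (x_0) (σ(x_1, …)))` if `range σ ⊆ B`, else `0`, and `e (gK σ) = gK (h_1 ∘ σ)` if `range σ ⊆ B`, else `0` (`liftK`; the cubes are continuous by
`ContinuousOn.comp_continuous`; use `if hσ : Set.range σ ⊆ B then gK φ ⟨_, _⟩ else 0`; degenerate cubes go to degenerate cubes; `(act g).comp σ` by equivariance and invariance of `B`).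
Faces of the prism `p σ`: `face 0 ε (p σ) = h_ε ∘ σ`, `face i.succ ε (p σ) = p (face i ε σ)` (see `HTP.lean`, the same pointwise identities; the faces of `σ` are again inside `B`), so
`d P x = x - e x - P d x` for `x = gK σ`, `range σ ⊆ B`, and by span induction for all `x ∈ subK B`.
`P` maps `subK B` into `subK B` and `subK A` into `subK A`, `e` maps `subK B` into `subK A`. -/

namespace Pool.Agent.H4.CU

variable {Γ : Type} [Group Γ] {R : Type} [CommRing R] (φ : Γ →* R)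
  {Z : Type} [TopologicalSpace Z] [MulAction Γ Z] [ContinuousConstSMul Γ Z]

section aux

variable {B : Set Z} {h : J → Z → Z}

omit [MulAction Γ Z] [ContinuousConstSMul Γ Z] in
/-- the prism of a cube in `B` -/
private def prB (hc : ContinuousOn (fun p : J × Z => h p.1 p.2) (Set.univ ×ˢ B)) {n : ℕ}
    (σ : Cb Z n) (hσ : Set.range σ ⊆ B) : Cb Z (n + 1) where
  toFun x := h (x 0) (σ fun i => x i.succ)
  continuous_toFun := by
    have h1 : Continuous (fun x : Qb (n + 1) => (x 0, σ fun i => x i.succ)) := by fun_prop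
    exact hc.comp_continuous h1 fun x => ⟨Set.mem_univ _, hσ ⟨_, rfl⟩⟩

/-- the cube `h_t σ` -/
private def slB (hc : ContinuousOn (fun p : J × Z => h p.1 p.2) (Set.univ ×ˢ B)) {n : ℕ} (t : J)
    (σ : Cb Z n) (hσ : Set.range σ ⊆ B) : Cb Z n where
  toFun x := h t (σ x)
  continuous_toFun := by
    have h1 : Continuous (fun x : Qb n => (t, σ x)) := by fun_prop
    exact hc.comp_continuous h1 fun x => ⟨Set.mem_univ _, hσ ⟨_, rfl⟩⟩

private theorem prB_apply (hc : ContinuousOn (fun p : J × Z => h p.1 p.2) (Set.univ ×ˢ B)) {n : ℕ}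
    (σ : Cb Z n) (hσ : Set.range σ ⊆ B) (x : Qb (n + 1)) :
    prB hc σ hσ x = h (x 0) (σ fun i => x i.succ) := rfl

private theorem slB_apply (hc : ContinuousOn (fun p : J × Z => h p.1 p.2) (Set.univ ×ˢ B)) {n : ℕ}
    (t : J) (σ : Cb Z n) (hσ : Set.range σ ⊆ B) (x : Qb n) : slB hc t σ hσ x = h t (σ x) := rfl

private theorem face_range {n : ℕ} {σ : Cb Z (n + 1)} (hσ : Set.range σ ⊆ B) (i : Fin (n + 1))
    (ε : J) : Set.range (face i ε σ) ⊆ B := by
  rintro z ⟨x, rfl⟩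
  rw [face_apply]
  exact hσ ⟨_, rfl⟩

private theorem prB_face_zero (hc : ContinuousOn (fun p : J × Z => h p.1 p.2) (Set.univ ×ˢ B))
    {n : ℕ} (σ : Cb Z n) (hσ : Set.range σ ⊆ B) (ε : J) :
    face 0 ε (prB hc σ hσ) = slB hc ε σ hσ := by
  ext x
  rw [face_apply, prB_apply, slB_apply, Fin.insertNth_zero', Fin.cons_zero]
  congr 2

private theorem prB_face_succ (hc : ContinuousOn (fun p : J × Z => h p.1 p.2) (Set.univ ×ˢ B))
    {n : ℕ} (σ : Cb Z (n + 1)) (hσ : Set.range σ ⊆ B) (i : Fin (n + 1)) (ε : J) :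
    face i.succ ε (prB hc σ hσ) = prB hc (face i ε σ) (face_range hσ i ε) := by
  ext x
  rw [face_apply, prB_apply, prB_apply, face_apply]
  have e1 : (i.succ.insertNth ε x : Qb (n + 2)) 0 = x 0 := by
    have h1 : (0 : Fin (n + 2)) = i.succ.succAbove 0 := by
      rw [Fin.succ_succAbove_zero]
    rw [h1, Fin.insertNth_apply_succAbove]
  have e2 : (fun j : Fin (n + 1) => (i.succ.insertNth ε x : Qb (n + 2)) j.succ) =
      i.insertNth ε fun k => x k.succ := by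
    funext j
    refine i.succAboveCases ?_ (fun k => ?_) j
    · rw [Fin.insertNth_apply_same, Fin.insertNth_apply_same]
    · rw [Fin.insertNth_apply_succAbove, ← Fin.succ_succAbove_succ,
        Fin.insertNth_apply_succAbove]
  rw [e1, e2]

private theorem prB_deg (hc : ContinuousOn (fun p : J × Z => h p.1 p.2) (Set.univ ×ˢ B)) {n : ℕ}
    {σ : Cb Z n} (hσ : Set.range σ ⊆ B) (hd : Deg σ) : Deg (prB hc σ hσ) := by
  obtain ⟨i, hi⟩ := hd
  refine ⟨i.succ, fun x t => ?_⟩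
  rw [prB_apply, prB_apply, Function.update_of_ne (Fin.succ_ne_zero i).symm]
  have e : (fun j : Fin n => Function.update x i.succ t j.succ) =
      Function.update (fun j : Fin n => x j.succ) i t := by
    funext j
    by_cases hj : j = i
    · subst hj
      rw [Function.update_self, Function.update_self]
    · rw [Function.update_of_ne hj, Function.update_of_ne fun h1 => hj (Fin.succ_injective _ h1)]
  rw [e, hi]

private theorem slB_deg (hc : ContinuousOn (fun p : J × Z => h p.1 p.2) (Set.univ ×ˢ B)) {n : ℕ}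
    (t : J) {σ : Cb Z n} (hσ : Set.range σ ⊆ B) (hd : Deg σ) : Deg (slB hc t σ hσ) := by
  obtain ⟨i, hi⟩ := hd
  refine ⟨i, fun x s => ?_⟩
  rw [slB_apply, slB_apply, hi]

private theorem act_range (hB : Inv Γ B) (g : Γ) {n : ℕ} (σ : Cb Z n) :
    Set.range ((act g).comp σ : Cb Z n) ⊆ B ↔ Set.range σ ⊆ B := by
  constructor
  · rintro h1 z ⟨x, rfl⟩
    have h2 : g • σ x ∈ B := h1 ⟨x, rfl⟩
    have h3 := hB g⁻¹ _ h2
    rwa [inv_smul_smul] at h3
  · rintro h1 z ⟨x, rfl⟩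
    exact hB g _ (h1 ⟨x, rfl⟩)

open Classical in
/-- the homotopy operator -/
private noncomputable def PB (hB : Inv Γ B)
    (hc : ContinuousOn (fun p : J × Z => h p.1 p.2) (Set.univ ×ˢ B))
    (heq : ∀ (g : Γ) (t : J), ∀ z ∈ B, h t (g • z) = g • h t z) (n : ℕ) :
    KK φ Z n →ₗ[R] KK φ Z (n + 1) :=
  liftK φ (fun σ => if hσ : Set.range σ ⊆ B then gK φ (prB hc σ hσ) else 0)
    (fun σ hd => by
      by_cases hσ : Set.range σ ⊆ B
      · rw [dif_pos hσ]
        exact gK_deg φ (prB_deg hc hσ hd)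
      · rw [dif_neg hσ])
    (fun g σ => by
      by_cases hσ : Set.range σ ⊆ B
      · rw [dif_pos hσ, dif_pos ((act_range hB g σ).2 hσ), ← gK_act]
        congr 1
        ext x
        exact heq g (x 0) _ (hσ ⟨_, rfl⟩)
      · rw [dif_neg hσ, dif_neg fun h1 => hσ ((act_range hB g σ).1 h1), smul_zero])

open Classical in
/-- the end of the homotopy -/
private noncomputable def EB (hB : Inv Γ B)
    (hc : ContinuousOn (fun p : J × Z => h p.1 p.2) (Set.univ ×ˢ B))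
    (heq : ∀ (g : Γ) (t : J), ∀ z ∈ B, h t (g • z) = g • h t z) (n : ℕ) :
    KK φ Z n →ₗ[R] KK φ Z n :=
  liftK φ (fun σ => if hσ : Set.range σ ⊆ B then gK φ (slB hc 1 σ hσ) else 0)
    (fun σ hd => by
      by_cases hσ : Set.range σ ⊆ B
      · rw [dif_pos hσ]
        exact gK_deg φ (slB_deg hc 1 hσ hd)
      · rw [dif_neg hσ])
    (fun g σ => by
      by_cases hσ : Set.range σ ⊆ B
      · rw [dif_pos hσ, dif_pos ((act_range hB g σ).2 hσ), ← gK_act]
        congr 1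
        ext x
        exact heq g 1 _ (hσ ⟨_, rfl⟩)
      · rw [dif_neg hσ, dif_neg fun h1 => hσ ((act_range hB g σ).1 h1), smul_zero])

private theorem PB_gK (hB : Inv Γ B)
    (hc : ContinuousOn (fun p : J × Z => h p.1 p.2) (Set.univ ×ˢ B))
    (heq : ∀ (g : Γ) (t : J), ∀ z ∈ B, h t (g • z) = g • h t z) {n : ℕ} (σ : Cb Z n)
    (hσ : Set.range σ ⊆ B) : PB φ hB hc heq n (gK φ σ) = gK φ (prB hc σ hσ) := by
  unfold PB
  rw [liftK_gK, dif_pos hσ]

private theorem EB_gK (hB : Inv Γ B)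
    (hc : ContinuousOn (fun p : J × Z => h p.1 p.2) (Set.univ ×ˢ B))
    (heq : ∀ (g : Γ) (t : J), ∀ z ∈ B, h t (g • z) = g • h t z) {n : ℕ} (σ : Cb Z n)
    (hσ : Set.range σ ⊆ B) : EB φ hB hc heq n (gK φ σ) = gK φ (slB hc 1 σ hσ) := by
  unfold EB
  rw [liftK_gK, dif_pos hσ]

private theorem d_prB (hc : ContinuousOn (fun p : J × Z => h p.1 p.2) (Set.univ ×ˢ B))
    (h0 : ∀ z ∈ B, h 0 z = z) {n : ℕ} (σ : Cb Z n) (hσ : Set.range σ ⊆ B) :
    dK φ Z n (gK φ (prB hc σ hσ)) = (gK φ σ - gK φ (slB hc 1 σ hσ)) +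
      ∑ i : Fin n, (-1 : R) ^ ((i : ℕ) + 1) •
        (gK φ (face i.succ 0 (prB hc σ hσ)) - gK φ (face i.succ 1 (prB hc σ hσ))) := by
  rw [dK_gK, Fin.sum_univ_succ]
  have e0 : slB hc 0 σ hσ = σ := by
    ext x
    exact h0 _ (hσ ⟨_, rfl⟩)
  congr 1
  rw [Fin.val_zero, pow_zero, one_smul, prB_face_zero, prB_face_zero, e0]

private theorem htp_zero (hB : Inv Γ B)
    (hc : ContinuousOn (fun p : J × Z => h p.1 p.2) (Set.univ ×ˢ B))
    (heq : ∀ (g : Γ) (t : J), ∀ z ∈ B, h t (g • z) = g • h t z) (h0 : ∀ z ∈ B, h 0 z = z)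
    (x : KK φ Z 0) (hx : x ∈ subK φ 0 B) :
    dK φ Z 0 (PB φ hB hc heq 0 x) = x - EB φ hB hc heq 0 x := by
  have key : Set.EqOn (dK φ Z 0 ∘ₗ PB φ hB hc heq 0 : KK φ Z 0 →ₗ[R] KK φ Z 0)
      (LinearMap.id - EB φ hB hc heq 0 : KK φ Z 0 →ₗ[R] KK φ Z 0)
      {c | ∃ σ : Cb Z 0, Set.range σ ⊆ B ∧ c = gK φ σ} := by
    rintro c ⟨σ, hσ, rfl⟩
    rw [LinearMap.comp_apply, PB_gK φ hB hc heq σ hσ, d_prB φ hc h0 σ hσ, LinearMap.sub_apply,
      LinearMap.id_apply, EB_gK φ hB hc heq σ hσ, Fin.sum_univ_zero, add_zero]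
  exact LinearMap.eqOn_span key hx

private theorem htp_succ (hB : Inv Γ B)
    (hc : ContinuousOn (fun p : J × Z => h p.1 p.2) (Set.univ ×ˢ B))
    (heq : ∀ (g : Γ) (t : J), ∀ z ∈ B, h t (g • z) = g • h t z) (h0 : ∀ z ∈ B, h 0 z = z)
    (n : ℕ) (x : KK φ Z (n + 1)) (hx : x ∈ subK φ (n + 1) B) :
    dK φ Z (n + 1) (PB φ hB hc heq (n + 1) x) + PB φ hB hc heq n (dK φ Z n x) =
      x - EB φ hB hc heq (n + 1) x := by
  have key : Set.EqOn (dK φ Z (n + 1) ∘ₗ PB φ hB hc heq (n + 1) +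
        PB φ hB hc heq n ∘ₗ dK φ Z n : KK φ Z (n + 1) →ₗ[R] KK φ Z (n + 1))
      (LinearMap.id - EB φ hB hc heq (n + 1) : KK φ Z (n + 1) →ₗ[R] KK φ Z (n + 1))
      {c | ∃ σ : Cb Z (n + 1), Set.range σ ⊆ B ∧ c = gK φ σ} := by
    rintro c ⟨σ, hσ, rfl⟩
    have e1 : PB φ hB hc heq n (dK φ Z n (gK φ σ)) = ∑ i : Fin (n + 1), (-1 : R) ^ (i : ℕ) •
        (gK φ (face i.succ 0 (prB hc σ hσ)) - gK φ (face i.succ 1 (prB hc σ hσ))) := by
      rw [dK_gK, map_sum]
      refine Finset.sum_congr rfl fun i _ => ?_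
      rw [map_smul, map_sub, PB_gK φ hB hc heq _ (face_range hσ i 0),
        PB_gK φ hB hc heq _ (face_range hσ i 1), prB_face_succ, prB_face_succ]
    have e2 : ∑ i : Fin (n + 1), (-1 : R) ^ ((i : ℕ) + 1) •
        (gK φ (face i.succ 0 (prB hc σ hσ)) - gK φ (face i.succ 1 (prB hc σ hσ))) =
        -∑ i : Fin (n + 1), (-1 : R) ^ (i : ℕ) •
        (gK φ (face i.succ 0 (prB hc σ hσ)) - gK φ (face i.succ 1 (prB hc σ hσ))) := by
      rw [← Finset.sum_neg_distrib]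
      refine Finset.sum_congr rfl fun i _ => ?_
      rw [pow_succ, mul_neg_one, neg_smul]
    rw [LinearMap.add_apply, LinearMap.comp_apply, LinearMap.comp_apply,
      PB_gK φ hB hc heq σ hσ, d_prB φ hc h0 σ hσ, e1, e2, LinearMap.sub_apply,
      LinearMap.id_apply, EB_gK φ hB hc heq σ hσ, neg_add_cancel_right]
  exact LinearMap.eqOn_span key hx

end aux

theorem factH {A B : Set Z} (hB : Inv Γ B) (hAB : A ⊆ B) (h : J → Z → Z)
    (hc : ContinuousOn (fun p : J × Z => h p.1 p.2) (Set.univ ×ˢ B))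
    (hhB : ∀ t, ∀ z ∈ B, h t z ∈ B) (hhA : ∀ t, ∀ z ∈ A, h t z ∈ A) (h0 : ∀ z ∈ B, h 0 z = z)
    (h1 : ∀ z ∈ B, h 1 z ∈ A) (heq : ∀ (g : Γ) (t : J), ∀ z ∈ B, h t (g • z) = g • h t z) :
    Acy (CK φ Z) (subF φ B) (subF φ A) := by
  refine acy_of_htp (K := CK φ Z) (fun n => EB φ hB hc heq n) (fun n => PB φ hB hc heq n)
    ?_ ?_ ?_ (fun x hx => htp_zero φ hB hc heq h0 x hx)
    (fun n x hx => htp_succ φ hB hc heq h0 n x hx)
  · intro n
    have key : subK φ n B ≤ (subK φ n A).comap (EB φ hB hc heq n) := by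
      unfold subK
      rw [Submodule.span_le]
      rintro c ⟨σ, hσ, rfl⟩
      rw [SetLike.mem_coe, Submodule.mem_comap, EB_gK φ hB hc heq σ hσ]
      refine gK_mem φ ?_
      rintro z ⟨x, rfl⟩
      exact h1 _ (hσ ⟨x, rfl⟩)
    exact key
  · intro n
    have key : subK φ n B ≤ (subK φ (n + 1) B).comap (PB φ hB hc heq n) := by
      unfold subK
      rw [Submodule.span_le]
      rintro c ⟨σ, hσ, rfl⟩
      rw [SetLike.mem_coe, Submodule.mem_comap, PB_gK φ hB hc heq σ hσ]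
      refine gK_mem φ ?_
      rintro z ⟨x, rfl⟩
      exact hhB _ _ (hσ ⟨_, rfl⟩)
    exact key
  · intro n
    have key : subK φ n A ≤ (subK φ (n + 1) A).comap (PB φ hB hc heq n) := by
      unfold subK
      rw [Submodule.span_le]
      rintro c ⟨σ, hσ, rfl⟩
      rw [SetLike.mem_coe, Submodule.mem_comap, PB_gK φ hB hc heq σ (hσ.trans hAB)]
      refine gK_mem φ ?_
      rintro z ⟨x, rfl⟩
      exact hhA _ _ (hσ ⟨_, rfl⟩)
    exact key

end Pool.Agent.H4.CU
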