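import Pool.Agent.H4.CU.ATC
import Pool.Agent.H4.CU.FH

/-! # [H4 CU AT2] Pushing `Z ∖ centres` onto `A`

`r t x = ((1 - t) + t / ‖x‖) • x`: for `x ≠ 0` in the closed ball `‖r t x‖ = (1 - t) ‖x‖ + t ∈ (0, 1]`, `r 0 x = x`, `‖r 1 x‖ = 1`, `r t x = x` for `x` in the sphere, `r` is continuous in `(t, x)` on
`x ≠ 0`, `r t 0 = 0`. Define `h t z` as follows (classical choice): if `z ∈ cellsOf Γ Φ`, choose `g, x ∈ ball` with `z = g Φ x`, and let `h t z = g Φ (r t x)`; otherwise `h t z = z`.
(1) `h t (g Φ x) = g Φ (r t x)` for `x ∈ closedBall`, `x ≠ 0`: for `x ∈ ball` by `cell_uniq` (the choice `g', x'` for `z = g Φ x` has `x' = x` and `g' Φ y = g Φ y` for all `y` in the closed ball,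
in particular `y = r t x`), for `x` in the sphere `g Φ x ∈ A` is not in `cellsOf` (`cells_eq`) and `r t x = x`.
(2) `h t z = z` for `z ∈ A`. (3) every `z ∈ Z ∖ centres` is in `A` or `= g Φ x` with `x ∈ ball`, `x ≠ 0` (`cover`, `centre_iff`). So for `z ∈ Z ∖ centres`: `h t z ∈ Z ∖ centres` (`centre_iff`, `r t x ≠ 0`;
`g Φ y ∈ Z` for `y` in the closed ball), `h 0 z = z`, `h 1 z ∈ A` (`in_sphere`, `invA`), `h t (g z) = g (h t z)` (`invA`).
(4) continuity on `J × (Z ∖ centres)`: `F z = ⟨fun t => h t z, _⟩ : C(J, X)` (for every `z ∈ X`: in the case `z = g Φ x` the map `t ↦ g Φ (r t x)` is continuous, also for `x = 0`); `F` is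
continuous on `A` (there `F z` is the constant map `z`: `ContinuousMap.continuous_of_continuous_uncurry`) and `x ↦ F (g Φ x)` is continuous on `closedBall ∖ {0}` by (1) (restrict to the subtype and
curry: `ContinuousMap.continuous_of_continuous_uncurry`). So `coh_cont` gives `ContinuousOn F (Z ∖ centres)`, and `h t z = F z t` is jointly continuous because the evaluation
`C(J, X) × J → X` is continuous (`J` compact, `ContinuousEval`). Then `factH`. -/

set_option linter.unusedSectionVars false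

namespace Pool.Agent.H4.CU

section radial

variable {n : ℕ}

/-- the radial push away from the centre -/
private noncomputable def rr (t : ℝ) (x : Fin n → ℝ) : Fin n → ℝ := ((1 - t) + t / ‖x‖) • x

private theorem rr_zero (x : Fin n → ℝ) : rr 0 x = x := by
  unfold rr
  rw [zero_div, sub_zero, add_zero, one_smul]

private theorem rr_norm {t : ℝ} (h0 : 0 ≤ t) (h1 : t ≤ 1) {x : Fin n → ℝ} (hx : x ≠ 0) :
    ‖rr t x‖ = (1 - t) * ‖x‖ + t := by
  have hp : 0 < ‖x‖ := norm_pos_iff.2 hx
  have hc : 0 ≤ (1 - t) + t / ‖x‖ := add_nonneg (by linarith) (div_nonneg h0 hp.le)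
  unfold rr
  rw [norm_smul, Real.norm_eq_abs, abs_of_nonneg hc, add_mul, div_mul_cancel₀ _ hp.ne']

private theorem rr_sphere (t : ℝ) {x : Fin n → ℝ} (hx : ‖x‖ = 1) : rr t x = x := by
  unfold rr
  rw [hx, div_one, sub_add_cancel, one_smul]

private theorem rr_ball {t : ℝ} (h0 : 0 ≤ t) (h1 : t ≤ 1) {x : Fin n → ℝ}
    (hx : x ∈ Metric.closedBall (0 : Fin n → ℝ) 1) :
    rr t x ∈ Metric.closedBall (0 : Fin n → ℝ) 1 := by
  rw [mem_closedBall_zero_iff] at hx ⊢
  by_cases h : x = 0
  · have : rr t x = 0 := by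
      unfold rr
      rw [h, smul_zero]
    rw [this, norm_zero]
    exact zero_le_one
  · rw [rr_norm h0 h1 h]
    nlinarith [norm_nonneg x]

private theorem rr_ne {t : ℝ} (h0 : 0 ≤ t) (h1 : t ≤ 1) {x : Fin n → ℝ} (hx : x ≠ 0) :
    rr t x ≠ 0 := by
  have hp : 0 < ‖x‖ := norm_pos_iff.2 hx
  have h2 : 0 < ‖rr t x‖ := by
    rw [rr_norm h0 h1 hx]
    rcases lt_or_eq_of_le h1 with h | h
    · have := mul_pos (sub_pos.2 h) hp
      linarith
    · rw [h]
      norm_num
  exact norm_pos_iff.1 h2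

private theorem rr_cont (x : Fin n → ℝ) : Continuous (fun t : ℝ => rr t x) := by
  unfold rr
  exact (((continuous_const.sub continuous_id).add (continuous_id.div_const _))).smul
    continuous_const

private theorem rr_cont' : Continuous (fun p : {x : Fin n → ℝ // x ∈
    Metric.closedBall (0 : Fin n → ℝ) 1 \ {0}} × J => rr (p.2 : ℝ) p.1.1) := by
  unfold rr
  have h1 : Continuous (fun p : {x : Fin n → ℝ // x ∈
    Metric.closedBall (0 : Fin n → ℝ) 1 \ {0}} × J => (p.2 : ℝ)) :=
    continuous_subtype_val.comp continuous_snd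
  have h2 : Continuous (fun p : {x : Fin n → ℝ // x ∈
    Metric.closedBall (0 : Fin n → ℝ) 1 \ {0}} × J => (p.1.1 : Fin n → ℝ)) :=
    continuous_subtype_val.comp continuous_fst
  refine ((continuous_const.sub h1).add (h1.div h2.norm ?_)).smul h2
  rintro ⟨⟨x, hx⟩, t⟩
  exact norm_ne_zero_iff.2 hx.2

end radial

variable {Γ : Type} [Group Γ] {R : Type} [CommRing R] (φ : Γ →* R) {X : Type} [TopologicalSpace X] [T2Space X]
  [MulAction Γ X] [ContinuousConstSMul Γ X] {Z A : Set X} {n : ℕ} {Φ : C(Fin n → ℝ, X)}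

open Classical in
/-- the push on `X` -/
private noncomputable def push (Γ : Type) [Group Γ] {X : Type} [TopologicalSpace X] [MulAction Γ X]
    {n : ℕ} (Φ : C(Fin n → ℝ, X)) (t : J) (z : X) : X :=
  if hz : z ∈ cellsOf Γ Φ then
    (Classical.choose hz) • Φ (rr (t : ℝ) (Classical.choose (Classical.choose_spec hz)))
  else z

private theorem push_ball (h : Att Γ Z A n Φ) (t : J) (g : Γ) {x : Fin n → ℝ}
    (hx : x ∈ Metric.ball (0 : Fin n → ℝ) 1) :
    push Γ Φ t (g • Φ x) = g • Φ (rr (t : ℝ) x) := by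
  have hz : g • Φ x ∈ cellsOf Γ Φ := ⟨g, x, hx, rfl⟩
  unfold push
  rw [dif_pos hz]
  obtain ⟨hb, he⟩ := Classical.choose_spec (Classical.choose_spec hz)
  obtain ⟨h1, h2, -⟩ := h.cell_uniq hx hb he
  rw [← h1]
  exact (h2 _ (rr_ball t.2.1 t.2.2 (Metric.ball_subset_closedBall hx))).symm

private theorem push_not (h : Att Γ Z A n Φ) (t : J) {z : X} (hz : z ∈ A) :
    push Γ Φ t z = z := by
  unfold push
  refine dif_neg ?_
  rw [h.cells_eq]
  exact fun h' => h'.2 hz

private theorem push_cell (h : Att Γ Z A n Φ) (t : J) (g : Γ) {x : Fin n → ℝ}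
    (hx : x ∈ Metric.closedBall (0 : Fin n → ℝ) 1) :
    push Γ Φ t (g • Φ x) = g • Φ (rr (t : ℝ) x) := by
  rw [mem_closedBall_zero_iff] at hx
  rcases lt_or_eq_of_le hx with hlt | heq
  · exact push_ball h t g (mem_ball_zero_iff.2 hlt)
  · have h1 : g • Φ x ∈ A := h.invA _ _ (h.in_sphere x (mem_sphere_zero_iff_norm.2 heq))
    rw [push_not h t h1, rr_sphere _ heq]

omit [T2Space X] in
private theorem push_cont_t (z : X) : Continuous (fun t : J => push Γ Φ t z) := by
  unfold push
  by_cases hz : z ∈ cellsOf Γ Φ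
  · simp only [dif_pos hz]
    exact (continuous_const_smul _).comp (Φ.continuous.comp
      ((rr_cont _).comp continuous_subtype_val))
  · simp only [dif_neg hz]
    exact continuous_const

/-- the push as a map to paths -/
private noncomputable def pathF (Γ : Type) [Group Γ] {X : Type} [TopologicalSpace X]
    [MulAction Γ X] [ContinuousConstSMul Γ X] {n : ℕ} (Φ : C(Fin n → ℝ, X)) (z : X) : C(J, X) :=
  ⟨fun t => push Γ Φ t z, push_cont_t z⟩

private theorem in_Z (h : Att Γ Z A n Φ) (g : Γ) {x : Fin n → ℝ}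
    (hx : x ∈ Metric.closedBall (0 : Fin n → ℝ) 1) : g • Φ x ∈ Z := by
  rw [mem_closedBall_zero_iff] at hx
  rcases lt_or_eq_of_le hx with hlt | heq
  · exact h.invZ _ _ (h.in_ball x (mem_ball_zero_iff.2 hlt)).1
  · exact h.sub (h.invA _ _ (h.in_sphere x (mem_sphere_zero_iff_norm.2 heq)))

private theorem not_centre (h : Att Γ Z A n Φ) {z : X} (hz : z ∈ A) : z ∉ centres Γ Φ := by
  rintro ⟨g, rfl⟩
  have h1 : Φ 0 ∈ A := by
    have := h.invA g⁻¹ _ hz
    rwa [inv_smul_smul] at this
  exact (h.in_ball 0 (Metric.mem_ball_self one_pos)).2 h1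

private theorem cases_z (h : Att Γ Z A n Φ) {z : X} (hz : z ∈ Z \ centres Γ Φ) :
    z ∈ A ∨ ∃ g : Γ, ∃ x ∈ Metric.ball (0 : Fin n → ℝ) 1, x ≠ 0 ∧ z = g • Φ x := by
  rcases h.cover z hz.1 with h1 | ⟨g, x, hx, rfl⟩
  · exact Or.inl h1
  · refine Or.inr ⟨g, x, hx, ?_, rfl⟩
    intro h0
    exact hz.2 ((h.centre_iff g (Metric.ball_subset_closedBall hx)).2 h0)

theorem Att.acy (h : Att Γ Z A n Φ) : Acy (CK φ X) (subF φ (Z \ centres Γ Φ)) (subF φ A) := by
  have hAZ : A ⊆ Z \ centres Γ Φ := fun z hz => ⟨h.sub hz, not_centre h hz⟩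
  have hinv : Inv Γ (Z \ centres Γ Φ) := by
    intro g z hz
    refine ⟨h.invZ g z hz.1, fun hc => hz.2 ?_⟩
    have := inv_centres (Γ := Γ) (Φ := Φ) g⁻¹ _ hc
    rwa [inv_smul_smul] at this
  have hcF : ContinuousOn (pathF Γ Φ) (Z \ centres Γ Φ) := by
    refine h.coh_cont (pathF Γ Φ) ?_ ?_
    · rw [continuousOn_iff_continuous_domRestrict]
      have hc : Continuous (fun p : A × J => (p.1 : X)) := continuous_subtype_val.comp continuous_fst
      have e : A.domRestrict (pathF Γ Φ) = (ContinuousMap.curry ⟨fun p : A × J => (p.1 : X), hc⟩) := by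
        funext z
        ext t
        show push Γ Φ t z.1 = z.1
        exact push_not h t z.2
      rw [e]
      exact ContinuousMap.continuous _
    · intro g
      rw [continuousOn_iff_continuous_domRestrict]
      have hc : Continuous (fun p : {x : Fin n → ℝ // x ∈
          Metric.closedBall (0 : Fin n → ℝ) 1 \ {0}} × J => g • Φ (rr (p.2 : ℝ) p.1.1)) :=
        (continuous_const_smul g).comp (Φ.continuous.comp rr_cont')
      have e : (Metric.closedBall (0 : Fin n → ℝ) 1 \ {0}).domRestrict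
          (fun x => pathF Γ Φ (g • Φ x)) = (ContinuousMap.curry ⟨fun p : {x : Fin n → ℝ // x ∈
          Metric.closedBall (0 : Fin n → ℝ) 1 \ {0}} × J => g • Φ (rr (p.2 : ℝ) p.1.1), hc⟩) := by
        funext x
        ext t
        show push Γ Φ t (g • Φ x.1) = g • Φ (rr (t : ℝ) x.1)
        exact push_cell h t g x.2.1
      rw [e]
      exact ContinuousMap.continuous _
  refine factH φ hinv hAZ (fun t z => push Γ Φ t z) ?_ ?_ ?_ ?_ ?_ ?_
  · have h1 : ContinuousOn (fun p : J × X => ((pathF Γ Φ p.2, p.1) : C(J, X) × J))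
        (Set.univ ×ˢ (Z \ centres Γ Φ)) := by
      refine ContinuousOn.prodMk ?_ continuous_fst.continuousOn
      exact hcF.comp continuous_snd.continuousOn (fun p hp => hp.2)
    exact continuous_eval.comp_continuousOn h1
  · intro t z hz
    rcases cases_z h hz with h1 | ⟨g, x, hx, hx0, rfl⟩
    · rw [push_not h t h1]
      exact hz
    · rw [push_ball h t g hx]
      have hb := rr_ball t.2.1 t.2.2 (Metric.ball_subset_closedBall hx)
      refine ⟨in_Z h g hb, fun hc => ?_⟩
      exact rr_ne t.2.1 t.2.2 hx0 ((h.centre_iff g hb).1 hc)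
  · intro t z hz
    rw [push_not h t hz]
    exact hz
  · intro z hz
    rcases cases_z h hz with h1 | ⟨g, x, hx, hx0, rfl⟩
    · exact push_not h 0 h1
    · rw [push_ball h 0 g hx]
      show g • Φ (rr 0 x) = g • Φ x
      rw [rr_zero]
  · intro z hz
    rcases cases_z h hz with h1 | ⟨g, x, hx, hx0, rfl⟩
    · rw [push_not h 1 h1]
      exact h1
    · rw [push_ball h 1 g hx]
      refine h.invA _ _ (h.in_sphere _ ?_)
      rw [mem_sphere_zero_iff_norm]
      have h2 := rr_norm (t := 1) zero_le_one le_rfl hx0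
      rw [sub_self, zero_mul, zero_add] at h2
      exact h2
  · intro g t z hz
    rcases cases_z h hz with h1 | ⟨g', x, hx, hx0, rfl⟩
    · rw [push_not h t h1, push_not h t (h.invA _ _ h1)]
    · rw [push_ball h t g' hx, smul_smul, smul_smul, push_ball h t (g * g') hx]

end Pool.Agent.H4.CU
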