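import Pool.Agent.H4.CU.ATC

/-! # [H4 CU AT3] A cube in the open cells lies in one open cell; cells with a non-trivial stabiliser

`one_cell`: `range σ ⊆ cellsOf Γ Φ`: let `g` be such that `σ 0 ∈ g Φ(ball)`. The set `{y | σ y ∈ g Φ(ball)}` is open (`cell_open`, `range σ ⊆ Z`) and its complement is the union of the open sets
`{y | σ y ∈ g' Φ(ball)}` over the `g'` with `g' Φ(ball) ∩ g Φ(ball) = ∅` (two cells are equal or disjoint by `cell_uniq`); so it is clopen and not empty, hence everything (`Qb k` is preconnected: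
`IsClopen.eq_univ`). Let `ψ` be as in `symm`, `τ y = ψ (g⁻¹ σ y)` (continuous: `ContinuousOn.comp_continuous`); then `τ y ∈ ball` and `Φ (τ y) = g⁻¹ σ y`.
`kill`: for `range σ ⊆ cellsOf` write `σ = h (Φ ∘ τ)` by `one_cell`; `k = h g h⁻¹` satisfies `(act k).comp σ = σ`, so `gK σ = φ(k) gK σ = φ(g) gK σ` (`gK_act`; `φ(h g h⁻¹) = φ(h) φ(h⁻¹) φ(g) = φ(g)`), and
`(1 - φ(g)) gK σ = 0`, so `gK σ = 0`; hence the span is zero. -/

namespace Pool.Agent.H4.CU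

variable {Γ : Type} [Group Γ] {R : Type} [CommRing R] (φ : Γ →* R) {X : Type} [TopologicalSpace X] [T2Space X]
  [MulAction Γ X] [ContinuousConstSMul Γ X] {Z A : Set X} {n : ℕ} {Φ : C(Fin n → ℝ, X)}

omit [MulAction Γ X] [ContinuousConstSMul Γ X] [Group Γ] [T2Space X] in
private theorem preim_eq {k : ℕ} (σ : Cb X k) {S O : Set X} (hZ : ∀ y, σ y ∈ Z) (h : S = O ∩ Z) (hO : IsOpen O) :
    IsOpen (σ ⁻¹' S) := by
  have e1 : σ ⁻¹' S = σ ⁻¹' O := by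
    rw [h]
    ext y
    exact ⟨fun h1 => h1.1, fun h1 => ⟨h1, hZ y⟩⟩
  rw [e1]
  exact hO.preimage σ.continuous

theorem Att.one_cell (h : Att Γ Z A n Φ) {k : ℕ} (σ : Cb X k) (hσ : Set.range σ ⊆ cellsOf Γ Φ) :
    ∃ (g : Γ) (τ : Cb (Fin n → ℝ) k), Set.range τ ⊆ Metric.ball 0 1 ∧ σ = (act g).comp (Φ.comp τ) := by
  have hσ' : ∀ y, ∃ g : Γ, ∃ x ∈ Metric.ball (0 : Fin n → ℝ) 1, σ y = g • Φ x := fun y => hσ ⟨y, rfl⟩
  have hZ : ∀ y, σ y ∈ Z := by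
    intro y
    have h1 : σ y ∈ cellsOf Γ Φ := hσ ⟨y, rfl⟩
    rw [h.cells_eq] at h1
    exact h1.1
  obtain ⟨g, x, hx, hgx⟩ := hσ' 0
  obtain ⟨C, hC⟩ : ∃ C : Γ → Set X, ∀ g : Γ, C g = (fun x => g • Φ x) '' Metric.ball 0 1 := ⟨_, fun _ => rfl⟩
  have hop : ∀ g : Γ, IsOpen (σ ⁻¹' (C g)) := by
    intro g
    obtain ⟨O, hO, hO1⟩ := h.cell_open g
    exact preim_eq σ hZ ((hC g).trans hO1) hO
  have hdis : ∀ g' : Γ, ∀ z ∈ C g, z ∈ C g' → C g' = C g := by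
    intro g' z h1 h2
    rw [hC] at h1 h2
    obtain ⟨a, ha, rfl⟩ := h1
    obtain ⟨b, hb, hab⟩ := h2
    have h3 := (h.cell_uniq hb ha hab).2.1
    rw [hC, hC]
    ext w
    constructor
    · rintro ⟨c, hc, rfl⟩
      exact ⟨c, hc, (h3 c (Metric.ball_subset_closedBall hc)).symm⟩
    · rintro ⟨c, hc, rfl⟩
      exact ⟨c, hc, h3 c (Metric.ball_subset_closedBall hc)⟩
  have hcl : IsClosed (σ ⁻¹' (C g)) := by
    rw [← isOpen_compl_iff]
    have e1 : (σ ⁻¹' (C g))ᶜ = ⋃ g' : {g' : Γ // C g' ≠ C g}, σ ⁻¹' (C g'.1) := by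
      ext y
      rw [Set.mem_iUnion]
      constructor
      · intro h1
        obtain ⟨g', a, ha, hga⟩ := hσ' y
        have h2 : σ y ∈ C g' := by
          rw [hC]
          exact ⟨a, ha, hga.symm⟩
        refine ⟨⟨g', fun h3 => h1 ?_⟩, h2⟩
        rw [h3] at h2
        exact h2
      · rintro ⟨⟨g', hg'⟩, h2⟩ h3
        exact hg' (hdis g' (σ y) h3 h2)
    rw [e1]
    exact isOpen_iUnion fun g' => hop g'.1
  have huniv : σ ⁻¹' (C g) = Set.univ := by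
    refine IsClopen.eq_univ ⟨hcl, hop g⟩ ⟨0, ?_⟩
    change σ 0 ∈ C g
    rw [hC]
    exact ⟨x, hx, hgx.symm⟩
  have hall : ∀ y, ∃ a ∈ Metric.ball (0 : Fin n → ℝ) 1, g • Φ a = σ y := by
    intro y
    have h1 : y ∈ σ ⁻¹' (C g) := by
      rw [huniv]
      exact Set.mem_univ _
    have h2 : σ y ∈ C g := h1
    rw [hC] at h2
    exact h2
  obtain ⟨ψ, hψ, hψ1⟩ := h.symm
  have hc : Continuous fun y : Qb k => ψ (g⁻¹ • σ y) := by
    refine hψ.comp_continuous ((continuous_const_smul g⁻¹).comp σ.continuous) fun y => ?_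
    obtain ⟨a, ha, hga⟩ := hall y
    refine ⟨a, ha, ?_⟩
    rw [← hga, inv_smul_smul]
  refine ⟨g, ⟨fun y => ψ (g⁻¹ • σ y), hc⟩, ?_, ?_⟩
  · rintro z ⟨y, rfl⟩
    obtain ⟨a, ha, hga⟩ := hall y
    change ψ (g⁻¹ • σ y) ∈ _
    rw [← hga, inv_smul_smul, hψ1 a ha]
    exact ha
  · refine ContinuousMap.ext fun y => ?_
    obtain ⟨a, ha, hga⟩ := hall y
    change σ y = g • Φ (ψ (g⁻¹ • σ y))
    rw [← hga, inv_smul_smul, hψ1 a ha]

theorem Att.kill (h : Att Γ Z A n Φ) (g : Γ) (hg : ∀ x ∈ Metric.ball (0 : Fin n → ℝ) 1, g • Φ x = Φ x)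
    (hu : IsUnit (1 - φ g)) (k : ℕ) : subF φ (cellsOf Γ Φ) k = ⊥ := by
  change subK φ k (cellsOf Γ Φ) = ⊥
  unfold subK
  rw [Submodule.span_eq_bot]
  rintro c ⟨σ, hσ, rfl⟩
  obtain ⟨m, τ, hτ, rfl⟩ := h.one_cell σ hσ
  have e1 : (act (m * g * m⁻¹)).comp ((act m).comp (Φ.comp τ)) = (act m).comp (Φ.comp τ) := by
    refine ContinuousMap.ext fun y => ?_
    change (m * g * m⁻¹) • m • Φ (τ y) = m • Φ (τ y)
    rw [mul_smul, inv_smul_smul, mul_smul, hg _ (hτ ⟨y, rfl⟩)]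
  have e2 := gK_act φ (m * g * m⁻¹) ((act m).comp (Φ.comp τ))
  rw [e1] at e2
  have e3 : φ (m * g * m⁻¹) = φ g := by
    rw [map_mul, map_mul, mul_comm (φ m), mul_assoc, ← map_mul, mul_inv_cancel, map_one, mul_one]
  rw [e3] at e2
  have e4 : (1 - φ g) • gK φ ((act m).comp (Φ.comp τ)) = 0 := by
    rw [sub_smul, one_smul, ← e2, sub_self]
  obtain ⟨u, hu⟩ := hu
  rw [← hu] at e4
  have e5 := congrArg (fun t => ((u⁻¹ : Rˣ) : R) • t) e4
  simp only [smul_zero] at e5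
  rwa [smul_smul, Units.inv_mul, one_smul] at e5

end Pool.Agent.H4.CU
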