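import Pool.Agent.H4.CU.AT1

/-! # [H4 CU ATC] Attaching one orbit of cells: coherence

`coh_cont`: continuity of `F` on `Z ∖ centres`: for `O` open let `W = {z ∈ Z | z ∈ centres ∨ F z ∉ O}`. `W` is closed by `coh`: `W ∩ A = {z ∈ A | F z ∉ O}` (centres are not in `A`) is closed
(`ContinuousOn.preimage_isClosed_of_isClosed`), and `W ∩ g Φ(closedBall) = g Φ ({x ∈ closedBall | x = 0 ∨ F (g Φ x) ∉ O})` (`centre_iff`), the image of a compact set: the set of `x` is the
complement in the closed ball of the set `{x ∈ closedBall ∖ {0} | F (g Φ x) ∈ O}`, which is relatively open in the closed ball (`continuousOn_iff'` gives an open `O₁` with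
`preimage O ∩ (closedBall ∖ {0}) = O₁ ∩ (closedBall ∖ {0})`, so the set is `closedBall ∩ (O₁ ∩ {0}ᶜ)ᶜ`). Then `continuousOn_iff'` for `F` with the open set `Wᶜ`.
`centres_closed`: `coh` with `W = centres`: `W ∩ A = ∅`, `W ∩ g Φ(closedBall) = {g Φ 0}` (`centre_iff`).
`cell_open`: `coh` with `W = Z ∖ gΦ(ball)`: `W ∩ A = A`; `W ∩ g'Φ(closedBall)`: if `g'Φ(ball)` meets `gΦ(ball)` then they are equal (`cell_uniq`) and the set is `g' Φ(sphere)`, compact; else it is all of
`g' Φ(closedBall)`, compact (`gΦ(ball)` is disjoint from `A ⊇ g' Φ(sphere)`). -/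

namespace Pool.Agent.H4.CU

variable {Γ : Type} [Group Γ] {X : Type} [TopologicalSpace X] [T2Space X] [MulAction Γ X]
  [ContinuousConstSMul Γ X] {Z A : Set X} {n : ℕ} {Φ : C(Fin n → ℝ, X)}

omit [T2Space X] [ContinuousConstSMul Γ X] in
private theorem centre_notA (h : Att Γ Z A n Φ) {z : X} (hz : z ∈ centres Γ Φ) : z ∉ A := by
  obtain ⟨g, rfl⟩ := hz
  intro h1
  have h2 := h.invA g⁻¹ _ h1
  rw [inv_smul_smul] at h2
  exact (h.in_ball 0 (Metric.mem_ball_self one_pos)).2 h2

omit [T2Space X] [ContinuousConstSMul Γ X] in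
private theorem ball_notA (h : Att Γ Z A n Φ) (g : Γ) {x : Fin n → ℝ} (hx : x ∈ Metric.ball (0 : Fin n → ℝ) 1) :
    g • Φ x ∉ A := by
  intro h1
  have h2 := h.invA g⁻¹ _ h1
  rw [inv_smul_smul] at h2
  exact (h.in_ball x hx).2 h2

omit [T2Space X] [ContinuousConstSMul Γ X] in
private theorem mem_Z (h : Att Γ Z A n Φ) (g : Γ) {x : Fin n → ℝ}
    (hx : x ∈ Metric.closedBall (0 : Fin n → ℝ) 1) : g • Φ x ∈ Z := by
  refine h.invZ g _ ?_
  rcases (Metric.mem_closedBall.1 hx).lt_or_eq with h1 | h1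
  · exact (h.in_ball x (Metric.mem_ball.2 h1)).1
  · exact h.sub (h.in_sphere x (Metric.mem_sphere.2 h1))

omit [T2Space X] in
private theorem cont_g (g : Γ) : Continuous (fun x : Fin n → ℝ => g • Φ x) :=
  (continuous_const_smul g).comp Φ.continuous

theorem Att.coh_cont (h : Att Γ Z A n Φ) {Y : Type} [TopologicalSpace Y] (F : X → Y) (hA : ContinuousOn F A)
    (hg : ∀ g : Γ, ContinuousOn (fun x => F (g • Φ x)) (Metric.closedBall (0 : Fin n → ℝ) 1 \ {0})) :
    ContinuousOn F (Z \ centres Γ Φ) := by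
  rw [continuousOn_iff']
  intro O hO
  obtain ⟨W, hW⟩ : ∃ W : Set X, W = {z | z ∈ Z ∧ (z ∈ centres Γ Φ ∨ F z ∉ O)} := ⟨_, rfl⟩
  have hWc : IsClosed W := by
    refine h.coh W ?_ ?_ ?_
    · rw [hW]
      exact fun z hz => hz.1
    · have e1 : W ∩ A = A ∩ F ⁻¹' Oᶜ := by
        ext z
        rw [hW]
        constructor
        · rintro ⟨⟨-, h1⟩, h2⟩
          refine ⟨h2, ?_⟩
          rcases h1 with h1 | h1
          · exact absurd h2 (centre_notA h h1)
          · exact h1
        · rintro ⟨h1, h2⟩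
          exact ⟨⟨h.sub h1, Or.inr h2⟩, h1⟩
      rw [e1]
      exact hA.preimage_isClosed_of_isClosed h.clA hO.isClosed_compl
    · intro g
      obtain ⟨u, hu, hu1⟩ := continuousOn_iff'.1 (hg g) O hO
      have e1 : W ∩ (fun x => g • Φ x) '' Metric.closedBall 0 1 =
          (fun x => g • Φ x) '' (Metric.closedBall 0 1 ∩ (u ∩ {0}ᶜ)ᶜ) := by
        ext z
        constructor
        · rintro ⟨h1, x, hx, rfl⟩
          refine ⟨x, ⟨hx, ?_⟩, rfl⟩
          rintro ⟨h2, h3⟩
          rw [hW] at h1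
          rcases h1.2 with h4 | h4
          · exact h3 ((h.centre_iff g hx).1 h4)
          · have h5 : x ∈ u ∩ (Metric.closedBall 0 1 \ {0}) := ⟨h2, hx, h3⟩
            rw [← hu1] at h5
            exact h4 h5.1
        · rintro ⟨x, ⟨hx, h1⟩, rfl⟩
          refine ⟨?_, x, hx, rfl⟩
          rw [hW]
          refine ⟨mem_Z h g hx, ?_⟩
          by_cases h2 : x = 0
          · exact Or.inl ((h.centre_iff g hx).2 h2)
          · refine Or.inr fun h3 => h1 ⟨?_, h2⟩
            have h4 : x ∈ (fun x => F (g • Φ x)) ⁻¹' O ∩ (Metric.closedBall 0 1 \ {0}) := ⟨h3, hx, h2⟩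
            rw [hu1] at h4
            exact h4.1
      rw [e1]
      have h2 : IsCompact (Metric.closedBall (0 : Fin n → ℝ) 1 ∩ (u ∩ {0}ᶜ)ᶜ) :=
        (isCompact_closedBall _ _).inter_right (hu.inter isOpen_compl_singleton).isClosed_compl
      exact (h2.image (cont_g g)).isClosed
  refine ⟨Wᶜ, hWc.isOpen_compl, ?_⟩
  ext z
  constructor
  · rintro ⟨h1, h2⟩
    refine ⟨fun h3 => ?_, h2⟩
    rw [hW] at h3
    rcases h3.2 with h4 | h4
    · exact h2.2 h4
    · exact h4 h1
  · rintro ⟨h1, h2⟩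
    refine ⟨?_, h2⟩
    by_contra h3
    exact h1 (by rw [hW]; exact ⟨h2.1, Or.inr h3⟩)

theorem Att.centres_closed (h : Att Γ Z A n Φ) : IsClosed (centres Γ Φ) := by
  refine h.coh _ ?_ ?_ ?_
  · rintro z ⟨g, rfl⟩
    exact mem_Z h g (Metric.mem_closedBall_self zero_le_one)
  · have e1 : centres Γ Φ ∩ A = ∅ := by
      rw [Set.eq_empty_iff_forall_notMem]
      rintro z ⟨h1, h2⟩
      exact centre_notA h h1 h2
    rw [e1]
    exact isClosed_empty
  · intro g
    have e1 : centres Γ Φ ∩ (fun x => g • Φ x) '' Metric.closedBall 0 1 = {g • Φ 0} := by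
      ext z
      constructor
      · rintro ⟨h1, x, hx, rfl⟩
        rw [(h.centre_iff g hx).1 h1]
        rfl
      · intro h1
        rw [Set.mem_singleton_iff] at h1
        rw [h1]
        exact ⟨⟨g, rfl⟩, 0, Metric.mem_closedBall_self zero_le_one, rfl⟩
    rw [e1]
    exact isClosed_singleton

theorem Att.cell_open (h : Att Γ Z A n Φ) (g : Γ) :
    ∃ O : Set X, IsOpen O ∧ (fun x => g • Φ x) '' Metric.ball 0 1 = O ∩ Z := by
  have hWc : IsClosed (Z \ (fun x => g • Φ x) '' Metric.ball 0 1) := by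
    refine h.coh _ Set.sdiff_subset ?_ ?_
    · have e1 : (Z \ (fun x => g • Φ x) '' Metric.ball 0 1) ∩ A = A := by
        ext z
        constructor
        · exact fun h1 => h1.2
        · intro h1
          refine ⟨⟨h.sub h1, ?_⟩, h1⟩
          rintro ⟨x, hx, rfl⟩
          exact ball_notA h g hx h1
      rw [e1]
      exact h.clA
    · intro g'
      by_cases hm : ∃ x ∈ Metric.ball (0 : Fin n → ℝ) 1, ∃ x' ∈ Metric.ball (0 : Fin n → ℝ) 1, g • Φ x = g' • Φ x'
      · obtain ⟨x, hx, x', hx', he⟩ := hm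
        have h1 := (h.cell_uniq hx hx' he).2.1
        have e1 : (Z \ (fun x => g • Φ x) '' Metric.ball 0 1) ∩ (fun x => g' • Φ x) '' Metric.closedBall 0 1 =
            (fun x => g' • Φ x) '' Metric.sphere 0 1 := by
          ext z
          constructor
          · rintro ⟨⟨-, h2⟩, y, hy, rfl⟩
            refine ⟨y, ?_, rfl⟩
            rcases (Metric.mem_closedBall.1 hy).lt_or_eq with h3 | h3
            · exact absurd ⟨y, Metric.mem_ball.2 h3, h1 y hy⟩ h2
            · exact Metric.mem_sphere.2 h3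
          · rintro ⟨y, hy, rfl⟩
            have hyA : g' • Φ y ∈ A := h.invA g' _ (h.in_sphere y hy)
            refine ⟨⟨h.sub hyA, ?_⟩, y, Metric.sphere_subset_closedBall hy, rfl⟩
            rintro ⟨w, hw, hwe⟩
            refine ball_notA h g hw ?_
            have hwe' : g • Φ w = g' • Φ y := hwe
            rw [hwe']
            exact hyA
        rw [e1]
        exact ((isCompact_sphere _ _).image (cont_g g')).isClosed
      · push Not at hm
        have e1 : (Z \ (fun x => g • Φ x) '' Metric.ball 0 1) ∩ (fun x => g' • Φ x) '' Metric.closedBall 0 1 =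
            (fun x => g' • Φ x) '' Metric.closedBall 0 1 := by
          ext z
          constructor
          · exact fun h1 => h1.2
          · rintro ⟨y, hy, rfl⟩
            refine ⟨⟨mem_Z h g' hy, ?_⟩, y, hy, rfl⟩
            rintro ⟨w, hw, hwe⟩
            have hwe' : g • Φ w = g' • Φ y := hwe
            rcases (Metric.mem_closedBall.1 hy).lt_or_eq with h3 | h3
            · exact hm w hw y (Metric.mem_ball.2 h3) hwe'
            · refine ball_notA h g hw ?_
              rw [hwe']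
              exact h.invA g' _ (h.in_sphere y (Metric.mem_sphere.2 h3))
        rw [e1]
        exact ((isCompact_closedBall _ _).image (cont_g g')).isClosed
  refine ⟨(Z \ (fun x => g • Φ x) '' Metric.ball 0 1)ᶜ, hWc.isOpen_compl, ?_⟩
  ext z
  constructor
  · rintro ⟨x, hx, rfl⟩
    exact ⟨fun h1 => h1.2 ⟨x, hx, rfl⟩, mem_Z h g (Metric.ball_subset_closedBall hx)⟩
  · rintro ⟨h1, h2⟩
    by_contra h3
    exact h1 ⟨h2, h3⟩

end Pool.Agent.H4.CU
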