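import Pool.Agent.H4.CU.INJ

/-!
# [H4 CU] Attaching one orbit of cells, definition

`X` a Hausdorff `Γ`-space, `A ⊆ Z` closed invariant subsets, `Z = A ∪ ⋃_g g Φ(ball)` with `Φ : ℝ^n → X` continuous, injective on the open ball (sup norm) with continuous inverse,
`Φ(sphere) ⊆ A`; an element `g` of `Γ` fixes `Φ(ball)` pointwise or moves it off itself; `coh`: the topology of `Z` is coherent with `A` and the closed cells `g Φ(closedBall)`.
-/

namespace Pool.Agent.H4.CU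

/-- `Z` is obtained from `A` by attaching the orbit of one `n`-cell with characteristic map `Φ` -/
structure Att (Γ : Type) [Group Γ] {X : Type} [TopologicalSpace X] [MulAction Γ X] (Z A : Set X) (n : ℕ)
    (Φ : C(Fin n → ℝ, X)) : Prop where
  invA : Inv Γ A
  invZ : Inv Γ Z
  clA : IsClosed A
  clZ : IsClosed Z
  sub : A ⊆ Z
  in_ball : ∀ x ∈ Metric.ball (0 : Fin n → ℝ) 1, Φ x ∈ Z \ A
  in_sphere : ∀ x ∈ Metric.sphere (0 : Fin n → ℝ) 1, Φ x ∈ A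
  symm : ∃ ψ : X → (Fin n → ℝ), ContinuousOn ψ (Φ '' Metric.ball 0 1) ∧
    ∀ x ∈ Metric.ball (0 : Fin n → ℝ) 1, ψ (Φ x) = x
  cover : ∀ z ∈ Z, z ∈ A ∨ ∃ g : Γ, ∃ x ∈ Metric.ball (0 : Fin n → ℝ) 1, z = g • Φ x
  rigid : ∀ g : Γ, (∀ x ∈ Metric.ball (0 : Fin n → ℝ) 1, g • Φ x = Φ x) ∨
    ∀ x ∈ Metric.ball (0 : Fin n → ℝ) 1, ∀ y ∈ Metric.ball (0 : Fin n → ℝ) 1, g • Φ x ≠ Φ y
  coh : ∀ W ⊆ Z, IsClosed (W ∩ A) →
    (∀ g : Γ, IsClosed (W ∩ (fun x => g • Φ x) '' Metric.closedBall 0 1)) → IsClosed W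

/-- the open cells of the orbit -/
def cellsOf (Γ : Type) [Group Γ] {X : Type} [TopologicalSpace X] [MulAction Γ X] {n : ℕ}
    (Φ : C(Fin n → ℝ, X)) : Set X := {z | ∃ g : Γ, ∃ x ∈ Metric.ball (0 : Fin n → ℝ) 1, z = g • Φ x}

/-- the centres of the cells of the orbit -/
def centres (Γ : Type) [Group Γ] {X : Type} [TopologicalSpace X] [MulAction Γ X] {n : ℕ}
    (Φ : C(Fin n → ℝ, X)) : Set X := {z | ∃ g : Γ, z = g • Φ 0}

end Pool.Agent.H4.CU
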