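import Mathlib

/-! # [H4 CU CW1] A compact subset of a CW complex meets only finitely many open cells

Suppose the set `S` of the cells which meet `K` is infinite; choose `x e ∈ openCell e ∩ K` for `e ∈ S` and let `P = {x e | e ∈ S}`. Every `Q ⊆ P` is closed: by `CWComplex.closed` it is enough that
`Q ∩ closedCell n j` is closed; `closedCell n j = cellFrontier n j ∪ openCell n j` is contained in the union of a finite set `I` of open cells (`CWComplex.cellFrontier_subset_finite_openCell`),
`x e ∈ openCell e'` implies `e = e'` (`CWComplex.disjoint_openCell_of_ne`), so `Q ∩ closedCell n j ⊆ {x e | e ∈ I}` is finite, hence closed (`X` is Hausdorff). So `P` is closed, contained in `K`, hence compact,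
and discrete, so finite (`IsCompact.finite`; or directly: the open sets `(P ∖ {x})ᶜ`, `x ∈ P`, cover `P`, and a finite subcover shows that `P` is finite). But `e ↦ x e` is injective on `S`: contradiction. -/

namespace Pool.Agent.H4.CU

open Topology

variable {X : Type} [TopologicalSpace X] [T2Space X] [CWComplex (Set.univ : Set X)]

theorem fin_cells {K : Set X} (hK : IsCompact K) :
    {e : Σ n, RelCWComplex.cell (Set.univ : Set X) n | (RelCWComplex.openCell e.1 e.2 ∩ K).Nonempty}.Finite := by
  classical
  let S : Set (Σ n, RelCWComplex.cell (Set.univ : Set X) n) :=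
    {e | (RelCWComplex.openCell e.1 e.2 ∩ K).Nonempty}
  have h1 : ∀ e : S, ∃ x : X, x ∈ RelCWComplex.openCell e.1.1 e.1.2 ∩ K := fun e => e.2
  choose x hx using h1
  have hinj : Function.Injective x := by
    intro e e' h
    apply Subtype.ext
    by_contra hne
    have h2 := RelCWComplex.disjoint_openCell_of_ne (n := e.1.1) (m := e'.1.1) (i := e.1.2)
      (j := e'.1.2) hne
    exact Set.disjoint_left.1 h2 (hx e).1 (h ▸ (hx e').1)
  have hcl : ∀ T : Set S, IsClosed (x '' T) := by
    intro T
    rw [CWComplex.closed (Set.univ : Set X) _ (Set.subset_univ _)]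
    intro n j
    obtain ⟨I, hI⟩ := CWComplex.cellFrontier_subset_finite_openCell (C := (Set.univ : Set X)) n j
    let Jf : Set (Σ n, RelCWComplex.cell (Set.univ : Set X) n) :=
      {⟨n, j⟩} ∪ ⋃ m ∈ Finset.range n, (Sigma.mk m) '' (I m : Set (RelCWComplex.cell _ m))
    have hJ : Jf.Finite := by
      refine (Set.finite_singleton _).union ?_
      exact Set.Finite.biUnion (Finset.finite_toSet _) fun m _ => (Finset.finite_toSet _).image _
    have hfin : (x '' (Subtype.val ⁻¹' Jf)).Finite :=
      (hJ.preimage Subtype.val_injective.injOn).image _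
    refine (hfin.subset ?_).isClosed
    rintro z ⟨⟨e, -, rfl⟩, hz⟩
    refine ⟨e, ?_, rfl⟩
    have key : ∀ (m : ℕ) (i : RelCWComplex.cell (Set.univ : Set X) m),
        x e ∈ RelCWComplex.openCell m i → e.1 = ⟨m, i⟩ := by
      intro m i hi
      by_contra hne
      exact Set.disjoint_left.1 (RelCWComplex.disjoint_openCell_of_ne (n := e.1.1) (m := m)
        (i := e.1.2) (j := i) hne) (hx e).1 hi
    rw [← RelCWComplex.cellFrontier_union_openCell_eq_closedCell] at hz
    rcases hz with hz | hz
    · have hz' := hI hz
      simp only [Set.mem_iUnion] at hz'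
      obtain ⟨m, hm, i, hi, hz'⟩ := hz'
      right
      simp only [Set.mem_iUnion]
      exact ⟨m, Finset.mem_range.2 hm, i, hi, (key m i hz').symm⟩
    · left
      exact key n j hz
  let _ : TopologicalSpace S := ⊥
  have : DiscreteTopology S := ⟨rfl⟩
  have hemb : IsClosedEmbedding x :=
    IsClosedEmbedding.of_continuous_injective_isClosedMap continuous_of_discreteTopology hinj
      fun T _ => hcl T
  have hcomp : IsCompact (x ⁻¹' K) := hemb.isCompact_preimage hK
  have huniv : x ⁻¹' K = Set.univ := Set.eq_univ_of_forall fun e => (hx e).2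
  rw [huniv, isCompact_iff_finite] at hcomp
  have h3 : Finite S := Set.finite_univ_iff.1 hcomp
  exact Set.toFinite S

end Pool.Agent.H4.CU
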