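import Pool.Agent.H59.FS.Defs
import Pool.Agent.H4.CU.CW1

/-! # [H4 CU CW2] Finitely many orbits of cells, stabilisers

`reps`: `K` compact with `G K = X`, `S` = the finite set of the cells which meet `K` (`fin_cells`). For a cell `e` let `p = map n e 0 ∈ openCell n e`, `p = g y` with `y ∈ K`; by `CellAct` for `g⁻¹`,
`g⁻¹ openCell n e = openCell n e'`, it contains `y`, so `e' ∈ S`; and `g openCell n e' = openCell n e`.
`stab`: let `F = fixingSubgroup G (openCell n e)` (or the subgroup of the `g` with `g x = x` for all `x ∈ openCell n e`). It is finite: it is contained in the set of the `g` with `g {p} ∩ {p} ≠ ∅`,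
`p = map n e 0`. If `F = ⊥` the first alternative holds, otherwise `hφ` gives the second. -/

namespace Pool.Agent.H4.CU

open Topology Pool.Agent.H59.FS

variable {G : Type} [Group G] {X : Type} [TopologicalSpace X] [T2Space X] [CWComplex (Set.univ : Set X)] [MulAction G X]

theorem reps (hcoc : CocptAct G X) (hcell : CellAct G X) :
    ∃ S : Finset (Σ n, RelCWComplex.cell (Set.univ : Set X) n), ∀ (n : ℕ) (e : RelCWComplex.cell (Set.univ : Set X) n),
      ∃ (g : G) (e' : RelCWComplex.cell (Set.univ : Set X) n), (⟨n, e'⟩ : Σ n, RelCWComplex.cell (Set.univ : Set X) n) ∈ S ∧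
        (g • ·) '' RelCWComplex.openCell n e' = RelCWComplex.openCell n e := by
  classical
  obtain ⟨K, hK, hcov⟩ := hcoc
  have hfin := fin_cells hK
  refine ⟨hfin.toFinset, ?_⟩
  intro n e
  have hp : RelCWComplex.map n e 0 ∈ RelCWComplex.openCell n e :=
    ⟨0, Metric.mem_ball_self one_pos, rfl⟩
  obtain ⟨g, y, hy, hgy⟩ := hcov (RelCWComplex.map n e 0)
  obtain ⟨e', he'⟩ := hcell g⁻¹ n e
  refine ⟨g, e', ?_, ?_⟩
  · rw [Set.Finite.mem_toFinset]
    refine ⟨y, ?_, hy⟩
    change y ∈ RelCWComplex.openCell n e'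
    rw [← he']
    refine ⟨RelCWComplex.map n e 0, hp, ?_⟩
    change g⁻¹ • RelCWComplex.map n e 0 = y
    rw [hgy, inv_smul_smul]
  · rw [← he', Set.image_image]
    simp only [smul_inv_smul]
    exact Set.image_id' _

theorem stab (hprop : ProperAct G X) {R : Type} [CommRing R] (φ : G →* R)
    (hφ : ∀ F : Subgroup G, Finite F → F ≠ ⊥ → ∃ f ∈ F, IsUnit (1 - φ f)) (n : ℕ)
    (e : RelCWComplex.cell (Set.univ : Set X) n) :
    (∀ g : G, (∀ x ∈ RelCWComplex.openCell n e, g • x = x) → g = 1) ∨
      ∃ g : G, (∀ x ∈ RelCWComplex.openCell n e, g • x = x) ∧ IsUnit (1 - φ g) := by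
  have hp : RelCWComplex.map n e 0 ∈ RelCWComplex.openCell n e :=
    ⟨0, Metric.mem_ball_self one_pos, rfl⟩
  let F : Subgroup G :=
    { carrier := {g | ∀ x ∈ RelCWComplex.openCell n e, g • x = x}
      mul_mem' := by
        intro a b ha hb x hx
        rw [mul_smul, hb x hx, ha x hx]
      one_mem' := fun x _ => one_smul G x
      inv_mem' := by
        intro a ha x hx
        exact inv_smul_eq_iff.2 (ha x hx).symm }
  have hF : Finite F := by
    have h1 := hprop.2 {RelCWComplex.map n e 0} isCompact_singleton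
    refine Set.Finite.subset h1 ?_
    intro g hg
    refine ⟨RelCWComplex.map n e 0, ⟨RelCWComplex.map n e 0, rfl, ?_⟩, rfl⟩
    exact hg _ hp
  by_cases hb : F = ⊥
  · left
    intro g hg
    have h2 : g ∈ F := hg
    rw [hb, Subgroup.mem_bot] at h2
    exact h2
  · right
    obtain ⟨f, hf, hu⟩ := hφ F hF hb
    exact ⟨f, hf, hu⟩

end Pool.Agent.H4.CU
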