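import Pool.Agent.H59.FS.Defs
import Pool.Agent.H4.CU.Att

/-! # [H4 CU CW3] Invariant subcomplexes

`coh`: `CWComplex.isClosed_of_disjoint_openCell_or_isClosed_inter_closedCell` (by `dich` a cell is inside `Z` or disjoint from `Z ⊇ W`). `closed`: `coh` with `W = Z`:
`Z ∩ closedCell n e = closedCell n e` (`cellFrontier_union_openCell_eq_closedCell`, `fr`). `subX_univ`: clear. -/

namespace Pool.Agent.H4.CU

open Topology Pool.Agent.H59.FS

/-- invariant subcomplexes -/
structure SubX (G : Type) [Group G] {X : Type} [TopologicalSpace X] [T2Space X] [CWComplex (Set.univ : Set X)]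
    [MulAction G X] (Z : Set X) : Prop where
  inv : Inv G Z
  dich : ∀ (n : ℕ) (e : RelCWComplex.cell (Set.univ : Set X) n),
    RelCWComplex.openCell n e ⊆ Z ∨ Disjoint (RelCWComplex.openCell n e) Z
  fr : ∀ (n : ℕ) (e : RelCWComplex.cell (Set.univ : Set X) n), RelCWComplex.openCell n e ⊆ Z →
    RelCWComplex.cellFrontier n e ⊆ Z

variable {G : Type} [Group G] {X : Type} [TopologicalSpace X] [T2Space X] [CWComplex (Set.univ : Set X)] [MulAction G X]

theorem subX_univ : SubX G (Set.univ : Set X) where
  inv := fun _ _ _ => Set.mem_univ _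
  dich := fun _ _ => Or.inl (Set.subset_univ _)
  fr := fun _ _ _ => Set.subset_univ _

theorem SubX.coh {Z W : Set X} (h : SubX G Z) (hW : W ⊆ Z) (hc : ∀ (n : ℕ) (e : RelCWComplex.cell (Set.univ : Set X) n),
    RelCWComplex.openCell n e ⊆ Z → IsClosed (W ∩ RelCWComplex.closedCell n e)) : IsClosed W := by
  refine CWComplex.isClosed_of_disjoint_openCell_or_isClosed_inter_closedCell (C := (Set.univ : Set X))
    (Set.subset_univ _) ?_
  intro n _ e
  rcases h.dich n e with h1 | h1
  · exact Or.inr (hc n e h1)
  · left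
    exact (h1.mono_right hW).symm

theorem SubX.closed {Z : Set X} (h : SubX G Z) : IsClosed Z := by
  refine h.coh subset_rfl ?_
  intro n e he
  have h1 : RelCWComplex.closedCell n e ⊆ Z := by
    rw [← RelCWComplex.cellFrontier_union_openCell_eq_closedCell]
    exact Set.union_subset (h.fr n e he) he
  rw [Set.inter_eq_right.2 h1]
  exact RelCWComplex.isClosed_closedCell

end Pool.Agent.H4.CU
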