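import Mathlib

/-!
# [H4 CU] MP_5c3080_gt, chapter (A): cubical singular chains, definitions

`Qb n` is the cube `I^n`, `Cb Z n = C(I^n, Z)` the singular `n`-cubes of `Z`, `face i ε σ` the face `x_i = ε`.
`Ch R Z n` (normalised cubical chains): the free `R`-module on the cubes modulo the degenerate cubes (independent of some
coordinate). `gC σ` the class of `σ`, `dC : Ch R Z (n+1) → Ch R Z n`, `mapC f` the map induced by `f : C(Z, Z')`.
For a group `Γ` which acts on `Z` and `φ : Γ →* R`: `KK φ Z n = Ch R Z n / (g c - φ(g) c)`, `gK σ`, `dK`.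
-/

namespace Pool.Agent.H4.CU

open Finset

noncomputable section

/-- the interval `[0, 1]` -/
abbrev J : Type := unitInterval

/-- the cube `I^n` -/
abbrev Qb (n : ℕ) : Type := Fin n → J

/-- the singular `n`-cubes of `Z` -/
abbrev Cb (Z : Type) [TopologicalSpace Z] (n : ℕ) : Type := C(Qb n, Z)

section
variable {Z Z' : Type} [TopologicalSpace Z] [TopologicalSpace Z']

/-- the inclusion `I^n → I^(n+1)` of the face `x_i = ε` -/
def ins {n : ℕ} (i : Fin (n + 1)) (ε : J) : C(Qb n, Qb (n + 1)) where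
  toFun x := i.insertNth ε x
  continuous_toFun := by
    refine continuous_pi fun j => ?_
    refine i.succAboveCases ?_ (fun k => ?_) j
    · simp only [Fin.insertNth_apply_same]
      exact continuous_const
    · simp only [Fin.insertNth_apply_succAbove]
      exact continuous_apply k

/-- the face `x_i = ε` -/
def face {n : ℕ} (i : Fin (n + 1)) (ε : J) (σ : Cb Z (n + 1)) : Cb Z n := σ.comp (ins i ε)

theorem face_apply {n : ℕ} (i : Fin (n + 1)) (ε : J) (σ : Cb Z (n + 1)) (x : Qb n) :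
    face i ε σ x = σ (i.insertNth ε x) := rfl

theorem face_comp {n : ℕ} (i : Fin (n + 1)) (ε : J) (σ : Cb Z (n + 1)) (f : C(Z, Z')) :
    face i ε (f.comp σ) = f.comp (face i ε σ) := rfl

/-- `σ` does not depend on one of the coordinates -/
def Deg {n : ℕ} (σ : Cb Z n) : Prop := ∃ i : Fin n, ∀ (x : Qb n) (t : J), σ (Function.update x i t) = σ x

theorem Deg.comp {n : ℕ} {σ : Cb Z n} (h : Deg σ) (f : C(Z, Z')) : Deg (f.comp σ) := by
  obtain ⟨i, hi⟩ := h
  exact ⟨i, fun x t => by rw [ContinuousMap.comp_apply, hi, ContinuousMap.comp_apply]⟩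

end

section
variable (R : Type) [CommRing R] (Z : Type) [TopologicalSpace Z]

/-- the span of the degenerate cubes -/
def degs (n : ℕ) : Submodule R (Cb Z n →₀ R) :=
  Submodule.span R {f | ∃ σ : Cb Z n, Deg σ ∧ f = Finsupp.single σ 1}

/-- normalised cubical chains -/
abbrev Ch (n : ℕ) : Type := (Cb Z n →₀ R) ⧸ degs R Z n

variable {Z} {n : ℕ}

/-- the class of a cube -/
def gC (σ : Cb Z n) : Ch R Z n := Submodule.Quotient.mk (Finsupp.single σ 1)

theorem gC_deg {σ : Cb Z n} (h : Deg σ) : gC R σ = 0 :=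
  (Submodule.Quotient.mk_eq_zero _).2 (Submodule.subset_span ⟨σ, h, rfl⟩)

variable {R}
variable {M : Type} [AddCommGroup M] [Module R M]

/-- linear maps on `Ch R Z n` from functions on cubes which are zero on degenerate cubes -/
def liftC (v : Cb Z n → M) (hv : ∀ σ, Deg σ → v σ = 0) : Ch R Z n →ₗ[R] M :=
  Submodule.liftQ _ (Finsupp.linearCombination R v) (by
    unfold degs
    rw [Submodule.span_le]
    rintro f ⟨σ, hσ, rfl⟩
    rw [SetLike.mem_coe, LinearMap.mem_ker, Finsupp.linearCombination_single, hv σ hσ, smul_zero])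

@[simp] theorem liftC_gC (v : Cb Z n → M) (hv : ∀ σ, Deg σ → v σ = 0) (σ : Cb Z n) :
    liftC (R := R) v hv (gC R σ) = v σ := by
  unfold liftC gC
  rw [Submodule.liftQ_apply, Finsupp.linearCombination_single, one_smul]

theorem ch_ext {f g : Ch R Z n →ₗ[R] M} (h : ∀ σ : Cb Z n, f (gC R σ) = g (gC R σ)) : f = g := by
  refine Submodule.linearMap_qext _ (Finsupp.lhom_ext' fun σ => LinearMap.ext_ring ?_)
  exact h σ

/-- induction on chains: the classes of cubes generate -/
theorem ch_span : Submodule.span R (Set.range (gC R : Cb Z n → Ch R Z n)) = ⊤ := by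
  rw [eq_top_iff]
  rintro x -
  obtain ⟨f, rfl⟩ := Submodule.Quotient.mk_surjective _ x
  induction f using Finsupp.induction_linear with
  | zero => exact zero_mem _
  | add f g hf hg => exact add_mem hf hg
  | single σ a =>
    have h1 : (Submodule.Quotient.mk (Finsupp.single σ a) : Ch R Z n) = a • gC R σ := by
      unfold gC
      rw [← Submodule.Quotient.mk_smul, Finsupp.smul_single_one]
    rw [h1]
    exact Submodule.smul_mem _ _ (Submodule.subset_span ⟨σ, rfl⟩)

theorem deg_bdry {σ : Cb Z (n + 1)} (h : Deg σ) :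
    ∑ i : Fin (n + 1), (-1 : R) ^ (i : ℕ) • (gC R (face i 0 σ) - gC R (face i 1 σ)) = 0 := by
  obtain ⟨i, hi⟩ := h
  refine Finset.sum_eq_zero fun j _ => ?_
  by_cases hij : j = i
  · subst hij
    have : face j 0 σ = face j 1 σ := by
      ext x
      rw [face_apply, face_apply, ← hi (j.insertNth 1 x) 0, Fin.update_insertNth]
    rw [this, sub_self, smul_zero]
  · obtain ⟨k, hk⟩ := Fin.exists_succAbove_eq (x := i) (y := j) (Ne.symm hij)
    have hd : ∀ ε : J, Deg (face j ε σ) := by
      intro ε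
      refine ⟨k, fun x t => ?_⟩
      rw [face_apply, face_apply, ← hi (j.insertNth ε x) t]
      congr 1
      funext l
      refine j.succAboveCases ?_ (fun m => ?_) l
      · rw [Fin.insertNth_apply_same, Function.update_of_ne hij, Fin.insertNth_apply_same]
      · rw [Fin.insertNth_apply_succAbove]
        by_cases hm : m = k
        · subst hm
          rw [Function.update_self, hk, Function.update_self]
        · have hm' : j.succAbove m ≠ i := by
            rw [← hk]
            exact fun h => hm (Fin.succAbove_right_injective h)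
          rw [Function.update_of_ne hm, Function.update_of_ne hm', Fin.insertNth_apply_succAbove]
    rw [gC_deg R (hd 0), gC_deg R (hd 1), sub_zero, smul_zero]

variable (R Z n) in
/-- the boundary -/
def dC : Ch R Z (n + 1) →ₗ[R] Ch R Z n :=
  liftC (fun σ => ∑ i : Fin (n + 1), (-1 : R) ^ (i : ℕ) • (gC R (face i 0 σ) - gC R (face i 1 σ)))
    fun _ h => deg_bdry h

theorem dC_gC (σ : Cb Z (n + 1)) : dC R Z n (gC R σ) =
    ∑ i : Fin (n + 1), (-1 : R) ^ (i : ℕ) • (gC R (face i 0 σ) - gC R (face i 1 σ)) :=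
  liftC_gC _ _ _

variable {Z' : Type} [TopologicalSpace Z'] {Z'' : Type} [TopologicalSpace Z'']

variable (R n) in
/-- the map induced by a continuous map -/
def mapC (f : C(Z, Z')) : Ch R Z n →ₗ[R] Ch R Z' n :=
  liftC (fun σ => gC R (f.comp σ)) fun _ h => gC_deg R (h.comp f)

@[simp] theorem mapC_gC (f : C(Z, Z')) (σ : Cb Z n) : mapC R n f (gC R σ) = gC R (f.comp σ) :=
  liftC_gC _ _ _

theorem mapC_id : mapC R n (ContinuousMap.id Z) = LinearMap.id :=
  ch_ext fun σ => by rw [mapC_gC, ContinuousMap.id_comp, LinearMap.id_apply]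

theorem mapC_comp (f : C(Z, Z')) (g : C(Z', Z'')) :
    mapC R n (g.comp f) = mapC R n g ∘ₗ mapC R n f :=
  ch_ext fun σ => by rw [LinearMap.comp_apply, mapC_gC, mapC_gC, mapC_gC, ContinuousMap.comp_assoc]

theorem dC_mapC (f : C(Z, Z')) : dC R Z' n ∘ₗ mapC R (n + 1) f = mapC R n f ∘ₗ dC R Z n := by
  refine ch_ext fun σ => ?_
  rw [LinearMap.comp_apply, LinearMap.comp_apply, mapC_gC, dC_gC, dC_gC, map_sum]
  refine Finset.sum_congr rfl fun i _ => ?_
  rw [map_smul, map_sub, mapC_gC, mapC_gC, face_comp, face_comp]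

variable (R n) in
/-- the chains inside `A ⊆ Z` -/
def subC (A : Set Z) : Submodule R (Ch R Z n) :=
  Submodule.span R {c | ∃ σ : Cb Z n, Set.range σ ⊆ A ∧ c = gC R σ}

theorem gC_mem {A : Set Z} {σ : Cb Z n} (h : Set.range σ ⊆ A) : gC R σ ∈ subC R n A :=
  Submodule.subset_span ⟨σ, h, rfl⟩

theorem subC_mono {A B : Set Z} (h : A ⊆ B) : subC R n A ≤ subC R n B := by
  refine Submodule.span_mono ?_
  rintro c ⟨σ, hσ, rfl⟩
  exact ⟨σ, hσ.trans h, rfl⟩

end

/-! ## coinvariants -/

section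
variable {Γ : Type} [Group Γ] {R : Type} [CommRing R] (φ : Γ →* R)
  (Z : Type) [TopologicalSpace Z] [MulAction Γ Z] [ContinuousConstSMul Γ Z]

/-- the action of `g` on `Z`, as a continuous map -/
def act {Z : Type} [TopologicalSpace Z] [MulAction Γ Z] [ContinuousConstSMul Γ Z] (g : Γ) : C(Z, Z) :=
  ⟨fun z => g • z, continuous_const_smul g⟩

/-- the relations `g c = φ(g) c` -/
def coinv (n : ℕ) : Submodule R (Ch R Z n) :=
  Submodule.span R {c | ∃ (g : Γ) (b : Ch R Z n), c = mapC R n (act g) b - φ g • b}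

/-- the `φ`-coinvariants of the normalised cubical chains -/
abbrev KK (n : ℕ) : Type := Ch R Z n ⧸ coinv φ Z n

variable {Z} {n : ℕ}

/-- the class of a cube -/
def gK (σ : Cb Z n) : KK φ Z n := Submodule.Quotient.mk (gC R σ)

variable {M : Type} [AddCommGroup M] [Module R M]

theorem gK_deg {σ : Cb Z n} (h : Deg σ) : gK φ σ = 0 := by
  unfold gK
  rw [gC_deg R h, Submodule.Quotient.mk_zero]

theorem gK_act (g : Γ) (σ : Cb Z n) : gK φ ((act g).comp σ) = φ g • gK φ σ := by
  unfold gK
  rw [← Submodule.Quotient.mk_smul, Submodule.Quotient.eq]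
  refine Submodule.subset_span ⟨g, gC R σ, ?_⟩
  rw [mapC_gC]

/-- linear maps on `KK φ Z n` from functions on cubes -/
def liftK (v : Cb Z n → M) (hv : ∀ σ, Deg σ → v σ = 0)
    (ha : ∀ (g : Γ) σ, v ((act g).comp σ) = φ g • v σ) : KK φ Z n →ₗ[R] M :=
  Submodule.liftQ _ (liftC v hv) (by
    unfold coinv
    rw [Submodule.span_le]
    rintro c ⟨g, b, rfl⟩
    rw [SetLike.mem_coe, LinearMap.mem_ker, map_sub, map_smul, sub_eq_zero]
    have h1 : liftC (R := R) v hv ∘ₗ mapC R n (act g) = φ g • liftC v hv :=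
      ch_ext fun σ => by
        rw [LinearMap.comp_apply, mapC_gC, liftC_gC, ha, LinearMap.smul_apply, liftC_gC]
    exact congrArg (fun f => f b) h1)

@[simp] theorem liftK_gK (v : Cb Z n → M) (hv : ∀ σ, Deg σ → v σ = 0)
    (ha : ∀ (g : Γ) σ, v ((act g).comp σ) = φ g • v σ) (σ : Cb Z n) :
    liftK φ v hv ha (gK φ σ) = v σ := by
  unfold liftK gK
  rw [Submodule.liftQ_apply, liftC_gC]

theorem kk_ext {f g : KK φ Z n →ₗ[R] M} (h : ∀ σ : Cb Z n, f (gK φ σ) = g (gK φ σ)) : f = g :=
  Submodule.linearMap_qext _ (ch_ext fun σ => h σ)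

theorem kk_span : Submodule.span R (Set.range (gK φ : Cb Z n → KK φ Z n)) = ⊤ := by
  have h1 := congrArg (Submodule.map (Submodule.mkQ (coinv φ Z n))) (ch_span (R := R) (Z := Z) (n := n))
  rw [Submodule.map_span, Submodule.map_top, Submodule.range_mkQ, ← Set.range_comp] at h1
  exact h1

variable (Z n) in
/-- the boundary -/
def dK : KK φ Z (n + 1) →ₗ[R] KK φ Z n :=
  Submodule.mapQ _ _ (dC R Z n) (by
    unfold coinv
    rw [Submodule.span_le]
    rintro c ⟨g, b, rfl⟩
    rw [SetLike.mem_coe, Submodule.mem_comap, map_sub, map_smul]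
    refine Submodule.subset_span ⟨g, dC R Z n b, ?_⟩
    rw [← LinearMap.comp_apply, dC_mapC, LinearMap.comp_apply])

theorem dK_gK (σ : Cb Z (n + 1)) : dK φ Z n (gK φ σ) =
    ∑ i : Fin (n + 1), (-1 : R) ^ (i : ℕ) • (gK φ (face i 0 σ) - gK φ (face i 1 σ)) := by
  have h1 : dK φ Z n (gK φ σ) = Submodule.mkQ (coinv φ Z n) (dC R Z n (gC R σ)) := rfl
  rw [h1, dC_gC, map_sum]
  refine Finset.sum_congr rfl fun i _ => ?_
  rw [map_smul, map_sub]
  rfl

variable (n) in
/-- the chains inside `A ⊆ Z` -/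
def subK (A : Set Z) : Submodule R (KK φ Z n) :=
  Submodule.span R {c | ∃ σ : Cb Z n, Set.range σ ⊆ A ∧ c = gK φ σ}

theorem gK_mem {A : Set Z} {σ : Cb Z n} (h : Set.range σ ⊆ A) : gK φ σ ∈ subK φ n A :=
  Submodule.subset_span ⟨σ, h, rfl⟩

theorem subK_mono {A B : Set Z} (h : A ⊆ B) : subK φ n A ≤ subK φ n B := by
  refine Submodule.span_mono ?_
  rintro c ⟨σ, hσ, rfl⟩
  exact ⟨σ, hσ.trans h, rfl⟩

end

end

end Pool.Agent.H4.CU
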