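import Pool.Agent.H4.CU.HTP
import Pool.Agent.H4.CU.DD

/-! # [H4 CU EXA] The cubical chains of a contractible space are exact

`aug_dC`: `ch_ext`, `dC_gC` (`n = 0`: one summand, `aug (gC (face 0 0 σ) - gC (face 0 1 σ)) = 1 - 1`). `aug_act`: `ch_ext`.
`X` contractible: there are `x₀` and `h : C(J × X, X)` with `h (0, x) = x`, `h (1, x) = x₀` (from `id_nullhomotopic X`: `ContinuousMap.Homotopy` of `id` and a constant map).
`exact_succ`: `dC_PC h`: `d (P x) + P (d x) = x - (slice h 1)_# x` (up to the form in HTP.lean), `slice h 0 = id`, `slice h 1` is constant, so `(slice h 1)_# (gC σ)` is degenerate for `σ : Cb X (n + 1)` and zero (`ch_ext`).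
`exact_zero`: `dC_PC_zero`: `d (P x) = x - (slice h 1)_# x` and `(slice h 1)_# x = aug x • gC (const x₀)` (`ch_ext`). -/

namespace Pool.Agent.H4.CU

noncomputable section

/-- the augmentation -/
def aug (R : Type) [CommRing R] (X : Type) [TopologicalSpace X] : Ch R X 0 →ₗ[R] R :=
  liftC (fun _ => 1) fun _ h => h.choose.elim0

variable (R : Type) [CommRing R] {X : Type} [TopologicalSpace X]

theorem aug_gC (σ : Cb X 0) : aug R X (gC R σ) = 1 := liftC_gC _ _ _

theorem aug_dC (x : Ch R X 1) : aug R X (dC R X 0 x) = 0 := by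
  have key : aug R X ∘ₗ dC R X 0 = 0 := by
    refine ch_ext fun σ => ?_
    rw [LinearMap.comp_apply, dC_gC, map_sum, LinearMap.zero_apply]
    refine Finset.sum_eq_zero fun i _ => ?_
    rw [map_smul, map_sub, aug_gC, aug_gC, sub_self, smul_zero]
  exact congrArg (fun f => f x) key

theorem aug_map {Y : Type} [TopologicalSpace Y] (f : C(X, Y)) (x : Ch R X 0) : aug R Y (mapC R 0 f x) = aug R X x := by
  have key : aug R Y ∘ₗ mapC R 0 f = aug R X := by
    refine ch_ext fun σ => ?_
    rw [LinearMap.comp_apply, mapC_gC, aug_gC, aug_gC]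
  exact congrArg (fun f => f x) key

theorem aug_surj [Nonempty X] : Function.Surjective (aug R X) := by
  intro a
  obtain ⟨x₀⟩ := (inferInstance : Nonempty X)
  refine ⟨a • gC R (ContinuousMap.const _ x₀), ?_⟩
  rw [map_smul, aug_gC, smul_eq_mul, mul_one]

private theorem exa_htp [ContractibleSpace X] :
    ∃ (x₀ : X) (h : C(J × X, X)), slice h 0 = ContinuousMap.id X ∧
      slice h 1 = ContinuousMap.const X x₀ := by
  obtain ⟨x₀, ⟨F⟩⟩ := id_nullhomotopic X
  refine ⟨x₀, F.toContinuousMap, ?_, ?_⟩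
  · ext x
    exact F.apply_zero x
  · ext x
    exact F.apply_one x

theorem exact_zero [ContractibleSpace X] (x : Ch R X 0) (hx : aug R X x = 0) : ∃ y, dC R X 0 y = x := by
  obtain ⟨x₀, h, h0, h1⟩ := exa_htp (X := X)
  refine ⟨PC R 0 h x, ?_⟩
  have key : mapC R 0 (slice h 1) =
      LinearMap.toSpanSingleton R (Ch R X 0) (gC R (ContinuousMap.const _ x₀)) ∘ₗ aug R X := by
    refine ch_ext fun σ => ?_
    rw [LinearMap.comp_apply, mapC_gC, aug_gC, LinearMap.toSpanSingleton_apply, one_smul, h1]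
    rfl
  rw [dC_PC_zero, h0, mapC_id, key, LinearMap.comp_apply, hx, map_zero, sub_zero,
    LinearMap.id_apply]

theorem exact_succ [ContractibleSpace X] (n : ℕ) (x : Ch R X (n + 1)) (hx : dC R X n x = 0) : ∃ y, dC R X (n + 1) y = x := by
  obtain ⟨x₀, h, h0, h1⟩ := exa_htp (X := X)
  refine ⟨PC R (n + 1) h x, ?_⟩
  have key : mapC R (n + 1) (slice h 1) = 0 := by
    refine ch_ext fun σ => ?_
    rw [mapC_gC, LinearMap.zero_apply]
    refine gC_deg R ⟨0, fun y t => ?_⟩
    rw [h1]
    rfl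
  have h2 := dC_PC (R := R) h x
  rw [hx, map_zero, add_zero, h0, mapC_id, key, LinearMap.zero_apply, sub_zero,
    LinearMap.id_apply] at h2
  exact h2

end

end Pool.Agent.H4.CU
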