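import Pool.Agent.H4.CU.TT
import Pool.Agent.H4.CU.SML
import Pool.Agent.H4.CU.ICJ
import Pool.Agent.H4.CU.A8

/-! # [H4 CU FEC] Excision: small chains (no group)

`acy_of_sd` with `S n = sdC R Z n`, `T n = TC R Z n`, `B = subCF (U ∪ V)`, `A = subCF U ⊔ subCF V` (`dC_sdC`, `dC_TC_zero`, `dC_TC`). `S` and `T` preserve `subC R n A` for every `A`
(`sdC_gC`, `TC_mem`, `Submodule.span_induction`), so also the sup (`Submodule.mem_sup`). Smallness: `{x | ∃ m₀, ∀ m ≥ m₀, S^m x ∈ subC U ⊔ subC V}` is a submodule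
(max of the two `m₀`; `iterate_map_add`, `(S^m)(a x) = a (S^m x)` by induction), it contains the generators of `subC (U ∪ V)` by `small_cube`. -/

namespace Pool.Agent.H4.CU

variable (R : Type) [CommRing R] {Z : Type} [TopologicalSpace Z]

private theorem sdC_sub {n : ℕ} {A : Set Z} {x : Ch R Z n} (h : x ∈ subC R n A) :
    sdC R Z n x ∈ subC R n A := by
  have h1 : subC R n A ≤ (subC R n A).comap (sdC R Z n) := by
    conv_lhs => unfold subC
    rw [Submodule.span_le]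
    rintro c ⟨σ, hσ, rfl⟩
    rw [SetLike.mem_coe, Submodule.mem_comap, sdC_gC]
    refine Submodule.sum_mem _ fun ε _ => gC_mem ?_
    rw [ContinuousMap.coe_comp]
    exact (Set.range_comp_subset_range _ _).trans hσ
  exact h1 h

private theorem TC_sub {n : ℕ} {A : Set Z} {x : Ch R Z n} (h : x ∈ subC R n A) :
    TC R Z n x ∈ subC R (n + 1) A := by
  have h1 : subC R n A ≤ (subC R (n + 1) A).comap (TC R Z n) := by
    conv_lhs => unfold subC
    rw [Submodule.span_le]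
    rintro c ⟨σ, hσ, rfl⟩
    rw [SetLike.mem_coe, Submodule.mem_comap]
    exact TC_mem hσ
  exact h1 h

private theorem sdC_sup {n : ℕ} {U V : Set Z} {x : Ch R Z n} (hx : x ∈ subC R n U ⊔ subC R n V) :
    sdC R Z n x ∈ subC R n U ⊔ subC R n V := by
  rw [Submodule.mem_sup] at hx ⊢
  obtain ⟨a, ha, b, hb, rfl⟩ := hx
  exact ⟨_, sdC_sub R ha, _, sdC_sub R hb, (map_add _ _ _).symm⟩

private theorem TC_sup {n : ℕ} {U V : Set Z} {x : Ch R Z n} (hx : x ∈ subC R n U ⊔ subC R n V) :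
    TC R Z n x ∈ subC R (n + 1) U ⊔ subC R (n + 1) V := by
  rw [Submodule.mem_sup] at hx ⊢
  obtain ⟨a, ha, b, hb, rfl⟩ := hx
  exact ⟨_, TC_sub R ha, _, TC_sub R hb, (map_add _ _ _).symm⟩

private theorem small_C {U V O O' : Set Z} (hO : IsOpen O) (hO' : IsOpen O') (hU : U = O ∩ (U ∪ V))
    (hV : V = O' ∩ (U ∪ V)) {n : ℕ} {x : Ch R Z n} (hx : x ∈ subC R n (U ∪ V)) :
    ∃ m₀ : ℕ, ∀ m, m₀ ≤ m → (sdC R Z n)^[m] x ∈ subC R n U ⊔ subC R n V := by
  unfold subC at hx
  induction hx using Submodule.span_induction with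
  | mem c hc =>
    obtain ⟨σ, hσ, rfl⟩ := hc
    exact small_cube (R := R) hO hO' hU hV σ hσ
  | zero =>
    refine ⟨0, fun m _ => ?_⟩
    rw [← Module.End.pow_apply, map_zero]
    exact zero_mem _
  | add x y _ _ hx hy =>
    obtain ⟨m₀, h⟩ := hx
    obtain ⟨m₁, h'⟩ := hy
    refine ⟨max m₀ m₁, fun m hm => ?_⟩
    rw [← Module.End.pow_apply, map_add, Module.End.pow_apply, Module.End.pow_apply]
    exact add_mem (h m ((le_max_left _ _).trans hm)) (h' m ((le_max_right _ _).trans hm))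
  | smul a x _ hx =>
    obtain ⟨m₀, h⟩ := hx
    refine ⟨m₀, fun m hm => ?_⟩
    rw [← Module.End.pow_apply, map_smul, Module.End.pow_apply]
    exact Submodule.smul_mem _ _ (h m hm)

theorem factEC {U V O O' : Set Z} (hO : IsOpen O) (hO' : IsOpen O') (hU : U = O ∩ (U ∪ V))
    (hV : V = O' ∩ (U ∪ V)) : Acy (CC R Z) (subCF R (U ∪ V)) (subCF R U ⊔ subCF R V) := by
  refine acy_of_sd (K := CC R Z) (B := subCF R (U ∪ V)) (A := subCF R U ⊔ subCF R V) ?_
    (fun n => sdC R Z n) (fun n => TC R Z n) ?_ ?_ ?_ ?_ ?_ ?_ ?_ ?_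
  · exact sup_le (fun n => subC_mono Set.subset_union_left)
      (fun n => subC_mono Set.subset_union_right)
  · exact fun n x hx => sdC_sub R hx
  · exact fun n x hx => sdC_sup R hx
  · exact fun n x hx => TC_sub R hx
  · exact fun n x hx => TC_sup R hx
  · exact fun n x => dC_sdC x
  · exact fun x => dC_TC_zero x
  · exact fun n x => dC_TC x
  · intro n x hx
    obtain ⟨m₀, h⟩ := small_C R hO hO' hU hV hx
    exact ⟨m₀, h m₀ le_rfl⟩

end Pool.Agent.H4.CU
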