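import Pool.Agent.H4.CU.HTP
import Pool.Agent.H4.CU.ICJ
import Pool.Agent.H4.CU.A8

/-! # [H4 CU FHC] Homotopies of pairs (no group)

`factHC`: `acy_of_htp` with `B = ⊤`, `P n = PC R n h`, `e n = mapC R n (slice h 1)` (`dC_PC`, `dC_PC_zero`, `slice h 0 = id` by `h0`, `mapC_id`).
`star_acy`: `S ⊆ ℝ^n` star-shaped with respect to `p ∈ S` (Mathlib `StarConvex ℝ p S`): `h(t, x) = (1 - t) x + t p`; `h_1 = p ∈ S`, `h_t(S) ⊆ S`.
`pr_heq`: `S ⊆ ℝ^n`, `S' = {x ∈ ℝ^(n+1) | tail x ∈ S}`: `hr_heq` with `f = mapC tail`, `g = mapC (x ↦ Fin.cons 0 x)`, `P = PC R _ h`, `h(t, x) = Fin.cons ((1 - t) x_0) (tail x)`: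
`slice h 0 = id`, `slice h 1 = (cons 0) ∘ tail`; `h_t` preserves `S'`. -/

namespace Pool.Agent.H4.CU

variable (R : Type) [CommRing R] {Z : Type} [TopologicalSpace Z]

private theorem mapC_sub {Z' : Type} [TopologicalSpace Z'] {A : Set Z} {A' : Set Z'} (f : C(Z, Z'))
    (hf : ∀ z ∈ A, f z ∈ A') (n : ℕ) : ∀ x ∈ subC R n A, mapC R n f x ∈ subC R n A' := by
  have key : subC R n A ≤ (subC R n A').comap (mapC R n f) := by
    conv_lhs => unfold subC
    rw [Submodule.span_le]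
    rintro c ⟨σ, hσ, rfl⟩
    rw [SetLike.mem_coe, Submodule.mem_comap, mapC_gC]
    refine gC_mem ?_
    rintro z ⟨x, rfl⟩
    exact hf _ (hσ ⟨x, rfl⟩)
  exact key

private theorem PC_sub {Z' : Type} [TopologicalSpace Z'] {A : Set Z} {A' : Set Z'}
    (h : C(J × Z, Z')) (hA : ∀ t, ∀ z ∈ A, h (t, z) ∈ A') (n : ℕ) :
    ∀ x ∈ subC R n A, PC R n h x ∈ subC R (n + 1) A' := by
  have key : subC R n A ≤ (subC R (n + 1) A').comap (PC R n h) := by
    conv_lhs => unfold subC
    rw [Submodule.span_le]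
    rintro c ⟨σ, hσ, rfl⟩
    rw [SetLike.mem_coe, Submodule.mem_comap, PC_gC]
    refine gC_mem ?_
    rintro z ⟨x, rfl⟩
    exact hA _ _ (hσ ⟨_, rfl⟩)
  exact key

theorem factHC (h : C(J × Z, Z)) {A : Set Z} (hA : ∀ t, ∀ z ∈ A, h (t, z) ∈ A) (h0 : ∀ z, h (0, z) = z)
    (h1 : ∀ z, h (1, z) ∈ A) : Acy (CC R Z) ⊤ (subCF R A) := by
  have e0 : slice h 0 = ContinuousMap.id Z := by
    ext z
    exact h0 z
  refine acy_of_htp (K := CC R Z) (fun n => mapC R n (slice h 1)) (fun n => PC R n h)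
    ?_ ?_ ?_ ?_ ?_
  · intro n x _
    refine mapC_sub R (A := Set.univ) (A' := A) (slice h 1) (fun z _ => h1 z) n x ?_
    rw [subC_univ]
    exact trivial
  · intro n x _
    exact trivial
  · intro n x hx
    exact PC_sub R h hA n x hx
  · intro x _
    have e := dC_PC_zero h x
    rw [e0, mapC_id, LinearMap.id_apply] at e
    exact e
  · intro n x _
    have e := dC_PC h x
    rw [e0, mapC_id, LinearMap.id_apply] at e
    exact e

theorem star_acy {n : ℕ} {S : Set (Fin n → ℝ)} {p : Fin n → ℝ} (hp : p ∈ S) (hS : StarConvex ℝ p S) :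
    Acy (CC R (Fin n → ℝ)) ⊤ (subCF R S) := by
  have hc : Continuous fun q : J × (Fin n → ℝ) => (q.1 : ℝ) • p + (1 - (q.1 : ℝ)) • q.2 := by
    fun_prop
  refine factHC R (Z := Fin n → ℝ) ⟨_, hc⟩ ?_ ?_ ?_
  · intro t z hz
    exact hS hz t.2.1 (sub_nonneg.2 t.2.2) (by ring)
  · intro z
    change (((0 : J) : ℝ)) • p + (1 - ((0 : J) : ℝ)) • z = z
    rw [Set.Icc.coe_zero, zero_smul, sub_zero, one_smul, zero_add]
  · intro z
    change (((1 : J) : ℝ)) • p + (1 - ((1 : J) : ℝ)) • z ∈ S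
    rw [Set.Icc.coe_one, sub_self, zero_smul, one_smul, add_zero]
    exact hp

private theorem cont_cons {W : Type} [TopologicalSpace W] {n : ℕ} {a : W → ℝ} {b : W → Fin n → ℝ}
    (ha : Continuous a) (hb : Continuous b) :
    Continuous fun w => (Fin.cons (a w) (b w) : Fin (n + 1) → ℝ) := by
  refine continuous_pi fun i => ?_
  refine Fin.cases ?_ (fun j => ?_) i
  · simp only [Fin.cons_zero]
    exact ha
  · simp only [Fin.cons_succ]
    exact (continuous_apply j).comp hb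

/-- forget the first coordinate -/
private def tl (n : ℕ) : C(Fin (n + 1) → ℝ, Fin n → ℝ) where
  toFun x := fun i => x i.succ
  continuous_toFun := by fun_prop

/-- first coordinate zero -/
private def cz (n : ℕ) : C(Fin n → ℝ, Fin (n + 1) → ℝ) where
  toFun x := Fin.cons 0 x
  continuous_toFun := cont_cons continuous_const continuous_id

/-- the homotopy -/
private def hh (n : ℕ) : C(J × (Fin (n + 1) → ℝ), Fin (n + 1) → ℝ) where
  toFun q := Fin.cons ((1 - (q.1 : ℝ)) * q.2 0) (fun i => q.2 i.succ)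
  continuous_toFun := cont_cons (by fun_prop) (by fun_prop)

private theorem hh_zero (n : ℕ) : slice (hh n) 0 = ContinuousMap.id (Fin (n + 1) → ℝ) := by
  refine ContinuousMap.ext fun x => ?_
  change (Fin.cons ((1 - ((0 : J) : ℝ)) * x 0) (fun i => x i.succ) : Fin (n + 1) → ℝ) = x
  funext i
  refine Fin.cases ?_ (fun j => ?_) i
  · rw [Fin.cons_zero, Set.Icc.coe_zero, sub_zero, one_mul]
  · rw [Fin.cons_succ]

private theorem hh_one (n : ℕ) : slice (hh n) 1 = (cz n).comp (tl n) := by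
  refine ContinuousMap.ext fun x => ?_
  change (Fin.cons ((1 - ((1 : J) : ℝ)) * x 0) (fun i => x i.succ) : Fin (n + 1) → ℝ) =
    Fin.cons 0 (fun i => x i.succ)
  rw [Set.Icc.coe_one, sub_self, zero_mul]

private theorem tl_cz (n : ℕ) : (tl n).comp (cz n) = ContinuousMap.id (Fin n → ℝ) := by
  refine ContinuousMap.ext fun x => ?_
  change (fun i : Fin n => (Fin.cons 0 x : Fin (n + 1) → ℝ) i.succ) = x
  funext i
  rw [Fin.cons_succ]

theorem pr_heq {n : ℕ} (S : Set (Fin n → ℝ)) (k : ℕ) :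
    Nonempty (Hr (CC R (Fin (n + 1) → ℝ)) ⊤ (subCF R {x : Fin (n + 1) → ℝ | (fun i => x i.succ) ∈ S}) k ≃ₗ[R]
      Hr (CC R (Fin n → ℝ)) ⊤ (subCF R S) k) := by
  refine hr_heq (K := CC R (Fin (n + 1) → ℝ)) (K' := CC R (Fin n → ℝ))
    (fun m => mapC R m (tl n)) (fun m => mapC R m (cz n)) ?_ ?_ ?_ (fun m => PC R m (hh n))
    ?_ ?_ (sc_subCF R _) ?_ ?_ ?_ k
  · intro m x
    exact (congrArg (fun f => f x) (dC_mapC (R := R) (n := m) (tl n))).symm
  · intro m x
    exact (congrArg (fun f => f x) (dC_mapC (R := R) (n := m) (cz n))).symm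
  · intro m x
    have e := congrArg (fun f => f x) (mapC_comp (R := R) (n := m) (cz n) (tl n))
    rw [tl_cz, mapC_id] at e
    exact e.symm
  · intro x
    have e := dC_PC_zero (hh n) x
    rw [hh_zero, hh_one, mapC_id, LinearMap.id_apply, mapC_comp, LinearMap.comp_apply] at e
    exact e
  · intro m x
    have e := dC_PC (hh n) x
    rw [hh_zero, hh_one, mapC_id, LinearMap.id_apply, mapC_comp, LinearMap.comp_apply] at e
    exact e
  · intro m x hx
    exact mapC_sub R (tl n) (fun z hz => hz) m x hx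
  · intro m x hx
    refine mapC_sub R (cz n) (fun z hz => ?_) m x hx
    change (fun i : Fin n => (Fin.cons 0 z : Fin (n + 1) → ℝ) i.succ) ∈ S
    have e : (fun i : Fin n => (Fin.cons 0 z : Fin (n + 1) → ℝ) i.succ) = z := by
      funext i
      rw [Fin.cons_succ]
    rw [e]
    exact hz
  · intro m x hx
    refine PC_sub R (hh n) (fun t z hz => ?_) m x hx
    change (fun i : Fin n => (Fin.cons ((1 - (t : ℝ)) * z 0) (fun i => z i.succ) :
      Fin (n + 1) → ℝ) i.succ) ∈ S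
    have e : (fun i : Fin n => (Fin.cons ((1 - (t : ℝ)) * z 0) (fun i => z i.succ) :
        Fin (n + 1) → ℝ) i.succ) = fun i => z i.succ := by
      funext i
      rw [Fin.cons_succ]
    rw [e]
    exact hz

end Pool.Agent.H4.CU
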