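import Pool.Agent.H4.CU.FEC
import Pool.Agent.H4.CU.FHC
import Pool.Agent.H4.CU.A2
import Pool.Agent.H4.CU.A5

/-! # [H4 CU LOC] The local homology of `ℝ^n` at `0`: the step

In `ℝ^(n+1)` let `L = {x | tail x ≠ 0}`, `U₊ = L ∪ {x | 0 < x 0}`, `U₋ = L ∪ {x | x 0 < 0}` (open). `U₊` is star-shaped with respect to `Fin.cons 1 0` (if `x ∈ U₊`, `a, b ≥ 0`, `a + b = 1`,
`a p + b x`: if `tail x ≠ 0` and `b ≠ 0` the tail is `b (tail x) ≠ 0`; if `b = 0` it is `p`; if `tail x = 0`: the first coordinate is `a + b x_0 > 0`), `U₋` with respect to `Fin.cons (-1) 0`.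
`U₊ ∪ U₋ = {x | x ≠ 0}` and `U₊ ∩ U₋ = L`. So (all subcomplexes of `K = CC R (Fin (n+1) → ℝ)`)
`H_k(K, {x ≠ 0}) ≅ H_k(K, U₊ ⊔ U₋)` (`hr_left`, inverse, with `A = U₊ ⊔ U₋`, `B = subCF {x ≠ 0}`, `C = ⊤`, `factEC` for `U₊, U₋`, both open: `U = U ∩ (U ∪ V)`), `≅ H_(k-1)(K, U₊ ⊓ U₋)`
(`hr_mv`, `star_acy`), `U₊ ⊓ U₋ = subCF L` (`subC_inf`), and `H_(k-1)(K, L) ≅ H_(k-1)(ℝ^n, {x ≠ 0})` (`pr_heq` with `S = {x | x ≠ 0}`: `L` is the preimage). `H_0 = 0`: `hr_mv_zero`. -/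

namespace Pool.Agent.H4.CU

variable (R : Type) [CommRing R]

/-- the set where the tail is not zero -/
private def LL (n : ℕ) : Set (Fin (n + 1) → ℝ) :=
  {x | (fun i => x i.succ) ∈ {x : Fin n → ℝ | x ≠ 0}}

private def Up (n : ℕ) : Set (Fin (n + 1) → ℝ) := LL n ∪ {x | 0 < x 0}

private def Um (n : ℕ) : Set (Fin (n + 1) → ℝ) := LL n ∪ {x | x 0 < 0}

private theorem mem_LL {n : ℕ} {x : Fin (n + 1) → ℝ} : x ∈ LL n ↔ ∃ i : Fin n, x i.succ ≠ 0 := by
  unfold LL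
  rw [Set.mem_ofPred_eq, Set.mem_ofPred_eq, Function.ne_iff]
  rfl

private theorem open_LL (n : ℕ) : IsOpen (LL n) := by
  have h1 : Continuous fun x : Fin (n + 1) → ℝ => fun i : Fin n => x i.succ :=
    continuous_pi fun i => continuous_apply i.succ
  have h2 : IsOpen {x : Fin n → ℝ | x ≠ 0} := isOpen_ne
  exact h2.preimage h1

private theorem open_Up (n : ℕ) : IsOpen (Up n) :=
  (open_LL n).union (isOpen_lt continuous_const (continuous_apply 0))

private theorem open_Um (n : ℕ) : IsOpen (Um n) :=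
  (open_LL n).union (isOpen_lt (continuous_apply 0) continuous_const)

private theorem union_eq (n : ℕ) : Up n ∪ Um n = {x : Fin (n + 1) → ℝ | x ≠ 0} := by
  ext x
  rw [Set.mem_union, Up, Um, Set.mem_union, Set.mem_union, mem_LL, Set.mem_ofPred_eq,
    Set.mem_ofPred_eq, Set.mem_ofPred_eq, Function.ne_iff]
  constructor
  · rintro ((⟨i, hi⟩ | h) | (⟨i, hi⟩ | h))
    · exact ⟨i.succ, hi⟩
    · exact ⟨0, ne_of_gt h⟩
    · exact ⟨i.succ, hi⟩
    · exact ⟨0, ne_of_lt h⟩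
  · rintro ⟨i, hi⟩
    revert hi
    refine Fin.cases ?_ (fun j => ?_) i
    · intro h
      rcases lt_or_gt_of_ne h with h | h
      · exact Or.inr (Or.inr h)
      · exact Or.inl (Or.inr h)
    · intro h
      exact Or.inl (Or.inl ⟨j, h⟩)

private theorem inter_eq (n : ℕ) : Up n ∩ Um n = LL n := by
  ext x
  rw [Set.mem_inter_iff, Up, Um, Set.mem_union, Set.mem_union, Set.mem_ofPred_eq, Set.mem_ofPred_eq]
  constructor
  · rintro ⟨h1 | h1, h2 | h2⟩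
    · exact h1
    · exact h1
    · exact h2
    · exact absurd h1 (not_lt.2 h2.le)
  · intro h
    exact ⟨Or.inl h, Or.inl h⟩

private theorem star_Up (n : ℕ) : StarConvex ℝ (Fin.cons 1 0 : Fin (n + 1) → ℝ) (Up n) := by
  intro y hy a b ha hb hab
  rcases eq_or_lt_of_le hb with hb0 | hb0
  · refine Or.inr ?_
    have ha1 : a = 1 := by linarith
    rw [Set.mem_ofPred_eq, ← hb0, ha1]
    simp
  · by_cases ht : y ∈ LL n
    · refine Or.inl ?_
      obtain ⟨i, hi⟩ := mem_LL.1 ht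
      refine mem_LL.2 ⟨i, ?_⟩
      rw [Pi.add_apply, Pi.smul_apply, Pi.smul_apply, Fin.cons_succ, Pi.zero_apply, smul_zero,
        zero_add, smul_eq_mul]
      exact mul_ne_zero hb0.ne' hi
    · refine Or.inr ?_
      have h0 : 0 < y 0 := hy.resolve_left ht
      rw [Set.mem_ofPred_eq, Pi.add_apply, Pi.smul_apply, Pi.smul_apply, Fin.cons_zero, smul_eq_mul,
        smul_eq_mul, mul_one]
      exact add_pos_of_nonneg_of_pos ha (mul_pos hb0 h0)

private theorem star_Um (n : ℕ) : StarConvex ℝ (Fin.cons (-1) 0 : Fin (n + 1) → ℝ) (Um n) := by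
  intro y hy a b ha hb hab
  rcases eq_or_lt_of_le hb with hb0 | hb0
  · refine Or.inr ?_
    have ha1 : a = 1 := by linarith
    rw [Set.mem_ofPred_eq, ← hb0, ha1]
    simp
  · by_cases ht : y ∈ LL n
    · refine Or.inl ?_
      obtain ⟨i, hi⟩ := mem_LL.1 ht
      refine mem_LL.2 ⟨i, ?_⟩
      rw [Pi.add_apply, Pi.smul_apply, Pi.smul_apply, Fin.cons_succ, Pi.zero_apply, smul_zero,
        zero_add, smul_eq_mul]
      exact mul_ne_zero hb0.ne' hi
    · refine Or.inr ?_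
      have h0 : y 0 < 0 := hy.resolve_left ht
      rw [Set.mem_ofPred_eq, Pi.add_apply, Pi.smul_apply, Pi.smul_apply, Fin.cons_zero, smul_eq_mul,
        smul_eq_mul]
      have h1 : b * y 0 < 0 := mul_neg_of_pos_of_neg hb0 h0
      linarith

private theorem acy_Up (n : ℕ) : Acy (CC R (Fin (n + 1) → ℝ)) ⊤ (subCF R (Up n)) :=
  star_acy R (Or.inr (by rw [Set.mem_ofPred_eq, Fin.cons_zero]; exact one_pos)) (star_Up n)

private theorem acy_Um (n : ℕ) : Acy (CC R (Fin (n + 1) → ℝ)) ⊤ (subCF R (Um n)) :=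
  star_acy R (Or.inr (by rw [Set.mem_ofPred_eq, Fin.cons_zero]; exact neg_one_lt_zero)) (star_Um n)

private theorem sc_top (K : Cx R) : Sc K (⊤ : Fam K) := fun _ _ _ => trivial

private theorem sc_sup {K : Cx R} {A B : Fam K} (hA : Sc K A) (hB : Sc K B) : Sc K (A ⊔ B) := by
  intro n x hx
  obtain ⟨a, ha, b, hb, rfl⟩ := Submodule.mem_sup.1 hx
  rw [map_add]
  exact Submodule.add_mem_sup (hA n a ha) (hB n b hb)

private theorem sub_sup (n : ℕ) :
    (subCF R (Up n) ⊔ subCF R (Um n) : Fam (CC R (Fin (n + 1) → ℝ))) ≤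
      subCF R {x : Fin (n + 1) → ℝ | x ≠ 0} := by
  refine sup_le (fun k => ?_) (fun k => ?_)
  · exact subC_mono (Set.subset_union_left.trans (union_eq n).subset)
  · exact subC_mono (Set.subset_union_right.trans (union_eq n).subset)

private theorem left_eqv (n k : ℕ) :
    Nonempty (Hr (CC R (Fin (n + 1) → ℝ)) ⊤ (subCF R (Up n) ⊔ subCF R (Um n)) k ≃ₗ[R]
      Hr (CC R (Fin (n + 1) → ℝ)) ⊤ (subCF R {x : Fin (n + 1) → ℝ | x ≠ 0}) k) := by
  have hex : Acy (CC R (Fin (n + 1) → ℝ)) (subCF R {x : Fin (n + 1) → ℝ | x ≠ 0})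
      (subCF R (Up n) ⊔ subCF R (Um n)) := by
    rw [← union_eq n]
    refine factEC R (open_Up n) (open_Um n) ?_ ?_
    · rw [Set.inter_eq_left.2 Set.subset_union_left]
    · rw [Set.inter_eq_left.2 Set.subset_union_right]
  exact hr_left (sc_sup R (sc_subCF R _) (sc_subCF R _)) (sc_subCF R _) (sc_top R _) (sub_sup R n)
    le_top hex k

theorem loc_step (n k : ℕ) :
    Nonempty (Hr (CC R (Fin (n + 1) → ℝ)) ⊤ (subCF R {x : Fin (n + 1) → ℝ | x ≠ 0}) (k + 1) ≃ₗ[R]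
      Hr (CC R (Fin n → ℝ)) ⊤ (subCF R {x : Fin n → ℝ | x ≠ 0}) k) := by
  obtain ⟨e1⟩ := left_eqv R n (k + 1)
  obtain ⟨e2⟩ := hr_mv (sc_subCF R (Up n)) (sc_subCF R (Um n)) (sc_top R _) le_top le_top
    (acy_Up R n) (acy_Um R n) k
  have hinf : (subCF R (Up n) ⊓ subCF R (Um n) : Fam (CC R (Fin (n + 1) → ℝ))) =
      subCF R (LL n) := by
    funext j
    have h := subC_inf R (Up n) (Um n) j
    rw [inter_eq] at h
    exact h
  rw [hinf] at e2
  obtain ⟨e3⟩ := pr_heq R {x : Fin n → ℝ | x ≠ 0} k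
  exact ⟨e1.symm ≪≫ₗ e2 ≪≫ₗ e3⟩

theorem loc_step_zero (n : ℕ) :
    Subsingleton (Hr (CC R (Fin (n + 1) → ℝ)) ⊤ (subCF R {x : Fin (n + 1) → ℝ | x ≠ 0}) 0) := by
  obtain ⟨e1⟩ := left_eqv R n 0
  have h := hr_mv_zero (V := subCF R (Um n)) (le_top : subCF R (Up n) ≤ ⊤) (acy_Up R n)
  exact e1.symm.toEquiv.subsingleton

end Pool.Agent.H4.CU
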