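import Pool.Agent.H59.FS.Defs
import Pool.Agent.H4.CU.DD

/-! # [H4 CU NDG] Normalised chains are free on the non-degenerate cubes; stabilisers

`deg_act`: `σ` is degenerate iff `g σ` is. `chEquiv`: forward `Finsupp.linearCombination R (fun s => gC R s.1)`, backward `liftC (fun σ => if h : Deg σ then 0 else Finsupp.single ⟨σ, h⟩ 1)`; the two composites are
the identity (`ch_ext`, `Finsupp.lhom_ext'`). `nd_stab`: `g` in the stabiliser of `s` satisfies `g • s.1 0 = s.1 0` (`0 : Qb n`), so the stabiliser is contained in the finite set of `ProperAct` for `K = {s.1 0}`. -/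

namespace Pool.Agent.H4.CU

open Pool.Agent.H59.FS

/-- the non-degenerate cubes -/
abbrev ND (X : Type) [TopologicalSpace X] (n : ℕ) : Type := {σ : Cb X n // ¬ Deg σ}

variable {G : Type} [Group G] {X : Type} [TopologicalSpace X] [MulAction G X] [ContinuousConstSMul G X]

theorem deg_act (g : G) {n : ℕ} (σ : Cb X n) : Deg ((act g).comp σ) ↔ Deg σ := by
  refine ⟨fun h => ?_, fun h => h.comp _⟩
  have h1 := h.comp (act g⁻¹ : C(X, X))
  have h2 : (act g⁻¹ : C(X, X)).comp ((act g).comp σ) = σ := by
    refine ContinuousMap.ext fun y => ?_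
    exact inv_smul_smul g (σ y)
  rwa [h2] at h1

noncomputable instance instND (n : ℕ) : MulAction G (ND X n) where
  smul g s := ⟨(act g).comp s.1, fun h => s.2 ((deg_act g s.1).1 h)⟩
  one_smul s := by
    apply Subtype.ext
    ext x
    exact one_smul G (s.1 x)
  mul_smul g h s := by
    apply Subtype.ext
    ext x
    exact mul_smul g h (s.1 x)

theorem nd_smul (g : G) {n : ℕ} (s : ND X n) : (g • s).1 = (act g).comp s.1 := rfl

theorem exists_chEquiv (R : Type) [CommRing R] (X : Type) [TopologicalSpace X] (n : ℕ) :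
    ∃ f : (ND X n →₀ R) ≃ₗ[R] Ch R X n, ∀ s : ND X n, f (Finsupp.single s 1) = gC R s.1 := by
  classical
  obtain ⟨v, hv⟩ : ∃ v : Cb X n → (ND X n →₀ R), ∀ σ, v σ = if h : Deg σ then 0 else Finsupp.single ⟨σ, h⟩ 1 :=
    ⟨_, fun _ => rfl⟩
  have hv0 : ∀ σ, Deg σ → v σ = 0 := fun σ hσ => by rw [hv, dif_pos hσ]
  have hv1 : ∀ (σ : Cb X n) (h : ¬ Deg σ), v σ = Finsupp.single ⟨σ, h⟩ 1 := fun σ hσ => by rw [hv, dif_neg hσ]
  have h1 : Finsupp.linearCombination R (fun s : ND X n => gC R s.1) ∘ₗ liftC (R := R) v hv0 = LinearMap.id := by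
    refine ch_ext fun σ => ?_
    rw [LinearMap.comp_apply, liftC_gC, LinearMap.id_apply]
    by_cases h : Deg σ
    · rw [hv0 σ h, map_zero, gC_deg R h]
    · rw [hv1 σ h, Finsupp.linearCombination_single, one_smul]
  have h2 : liftC (R := R) v hv0 ∘ₗ Finsupp.linearCombination R (fun s : ND X n => gC R s.1) = LinearMap.id := by
    refine Finsupp.lhom_ext' fun s => LinearMap.ext_ring ?_
    rw [LinearMap.comp_apply, LinearMap.comp_apply, Finsupp.lsingle_apply, Finsupp.linearCombination_single, one_smul,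
      liftC_gC, hv1 s.1 s.2]
    rfl
  refine ⟨LinearEquiv.ofLinearMap (Finsupp.linearCombination R (fun s : ND X n => gC R s.1)) (liftC v hv0) h1 h2,
    fun s => ?_⟩
  rw [LinearEquiv.coe_ofLinearMap, Finsupp.linearCombination_single, one_smul]

/-- normalised chains are free on the non-degenerate cubes -/
noncomputable def chEquiv (R : Type) [CommRing R] (X : Type) [TopologicalSpace X] (n : ℕ) : (ND X n →₀ R) ≃ₗ[R] Ch R X n :=
  (exists_chEquiv R X n).choose

theorem chEquiv_single (R : Type) [CommRing R] {n : ℕ} (s : ND X n) : chEquiv R X n (Finsupp.single s 1) = gC R s.1 :=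
  (exists_chEquiv R X n).choose_spec s

theorem chEquiv_act (R : Type) [CommRing R] (g : G) {n : ℕ} (x : ND X n →₀ R) :
    chEquiv R X n (Finsupp.mapDomain (g • ·) x) = mapC R n (act g) (chEquiv R X n x) := by
  induction x using Finsupp.induction_linear with
  | zero => rw [Finsupp.mapDomain_zero, map_zero, map_zero]
  | add x y hx hy => rw [Finsupp.mapDomain_add, map_add, hx, hy, map_add, map_add]
  | single s a =>
    rw [Finsupp.mapDomain_single, ← Finsupp.smul_single_one, ← Finsupp.smul_single_one s a, map_smul, map_smul,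
      map_smul, chEquiv_single, chEquiv_single, mapC_gC, nd_smul]

theorem nd_stab (hprop : ProperAct G X) {n : ℕ} (s : ND X n) : Finite (MulAction.stabilizer G s) := by
  have h1 := hprop.2 {s.1 0} isCompact_singleton
  refine Set.Finite.to_subtype (h1.subset ?_)
  intro g hg
  have h2 : g • s = s := MulAction.mem_stabilizer_iff.1 hg
  have h3 : g • s.1 0 = s.1 0 := by
    have h4 := congrArg (fun t : ND X n => t.1 0) h2
    exact h4
  exact ⟨s.1 0, ⟨s.1 0, rfl, h3⟩, rfl⟩

end Pool.Agent.H4.CU
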