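import Pool.Agent.H4.CU.DD

/-! # [H4 CU SD] Subdivision into `2^n` cubes

`half b t = (b + t)/2`, `hmap ε x i = half (ε i) (x i)`, `sdC (gC σ) = ∑_ε gC (σ ∘ hmap ε)`.
`sd_deg`: if `σ` is degenerate in `i`, so is each `σ ∘ hmap ε` (`hmap ε (update x i t) = update (hmap ε x) i (half (ε i) t)`).
`dC_sdC`: `ch_ext`; `d (σ ∘ hmap ε)`, the sum over `ε : Fin (n+1) → Bool` is split for fixed `i` by `Fin.insertNthEquiv (fun _ => Bool) i` (`ε = i.insertNth b ε'`), and
`face i 0 (σ ∘ hmap (i.insertNth false ε')) = (face i 0 σ) ∘ hmap ε'`, `face i 1 (σ ∘ hmap (i.insertNth true ε')) = (face i 1 σ) ∘ hmap ε'`,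
`face i 1 (σ ∘ hmap (i.insertNth false ε')) = face i 0 (σ ∘ hmap (i.insertNth true ε'))` (both have `x_i = 1/2`): the inner faces cancel.
`sdC_mapC`: `ContinuousMap.comp_assoc`. `sdC_zero`: `Fin 0 → Bool` has one element, `hmap ε = id` on `Qb 0`. `sdC_deg0` is used in `TT`. -/

namespace Pool.Agent.H4.CU

noncomputable section

/-- `t ↦ (b + t)/2` -/
def half (b : Bool) (t : J) : J :=
  ⟨((if b then 1 else 0) + (t : ℝ)) / 2, by
    obtain ⟨t, h0, h1⟩ := t
    constructor <;> cases b <;> simp <;> linarith⟩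

/-- the map of the cube onto one of its `2^n` parts -/
def hmap {n : ℕ} (ε : Fin n → Bool) : C(Qb n, Qb n) where
  toFun x i := half (ε i) (x i)
  continuous_toFun := by
    unfold half
    fun_prop

variable {R : Type} [CommRing R] {Z Z' : Type} [TopologicalSpace Z] [TopologicalSpace Z'] {n : ℕ}

theorem sd_deg {σ : Cb Z n} (h : Deg σ) (ε : Fin n → Bool) : Deg (σ.comp (hmap ε)) := by
  obtain ⟨i, hi⟩ := h
  refine ⟨i, fun x t => ?_⟩
  rw [ContinuousMap.comp_apply, ContinuousMap.comp_apply]
  have h1 : hmap ε (Function.update x i t) = Function.update (hmap ε x) i (half (ε i) t) := by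
    funext j
    by_cases hj : j = i
    · subst hj
      change half (ε j) (Function.update x j t j) = _
      rw [Function.update_self, Function.update_self]
    · change half (ε j) (Function.update x i t j) = _
      rw [Function.update_of_ne hj, Function.update_of_ne hj]
      rfl
  rw [h1, hi]

private theorem half_f0 : half false 0 = 0 := by
  ext
  simp [half]

private theorem half_t1 : half true 1 = 1 := by
  ext
  norm_num [half]

private theorem half_mid : half false 1 = half true 0 := by
  ext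
  norm_num [half]

private theorem hmap_insertNth (i : Fin (n + 1)) (b : Bool) (ε : Fin n → Bool) (t : J) (x : Qb n) :
    hmap (i.insertNth b ε : Fin (n + 1) → Bool) (i.insertNth t x : Qb (n + 1)) =
      (i.insertNth (half b t) (hmap ε x) : Qb (n + 1)) := by
  funext j
  change half ((i.insertNth b ε : Fin (n + 1) → Bool) j) ((i.insertNth t x : Qb (n + 1)) j) = _
  refine i.succAboveCases ?_ (fun k => ?_) j
  · rw [Fin.insertNth_apply_same, Fin.insertNth_apply_same, Fin.insertNth_apply_same]
  · rw [Fin.insertNth_apply_succAbove, Fin.insertNth_apply_succAbove,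
      Fin.insertNth_apply_succAbove]
    rfl

private theorem face_half (σ : Cb Z (n + 1)) (i : Fin (n + 1)) (b : Bool) (ε : Fin n → Bool) (t : J) :
    face i t (σ.comp (hmap (i.insertNth b ε : Fin (n + 1) → Bool))) =
      (face i (half b t) σ).comp (hmap ε) := by
  ext x
  rw [face_apply, ContinuousMap.comp_apply, hmap_insertNth, ContinuousMap.comp_apply, face_apply]

variable (R Z n) in
/-- the subdivision operator -/
def sdC : Ch R Z n →ₗ[R] Ch R Z n :=
  liftC (fun σ => ∑ ε : Fin n → Bool, gC R (σ.comp (hmap ε)))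
    fun _ h => Finset.sum_eq_zero fun ε _ => gC_deg R (sd_deg h ε)

theorem sdC_gC (σ : Cb Z n) : sdC R Z n (gC R σ) = ∑ ε : Fin n → Bool, gC R (σ.comp (hmap ε)) :=
  liftC_gC _ _ _

theorem dC_sdC (x : Ch R Z (n + 1)) : dC R Z n (sdC R Z (n + 1) x) = sdC R Z n (dC R Z n x) := by
  have h : dC R Z n ∘ₗ sdC R Z (n + 1) = sdC R Z n ∘ₗ dC R Z n := by
    refine ch_ext fun σ => ?_
    rw [LinearMap.comp_apply, LinearMap.comp_apply, sdC_gC, dC_gC, map_sum, map_sum]
    simp_rw [dC_gC]
    rw [Finset.sum_comm]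
    refine Finset.sum_congr rfl fun i _ => ?_
    rw [map_smul, map_sub, sdC_gC, sdC_gC, ← Finset.smul_sum]
    congr 1
    rw [← (Fin.insertNthEquiv (fun _ => Bool) i).sum_comp, Fintype.sum_prod_type,
      Fintype.sum_bool]
    have e1 : ∀ (b : Bool) (ε : Fin n → Bool), (Fin.insertNthEquiv (fun _ => Bool) i) (b, ε) =
        (i.insertNth b ε : Fin (n + 1) → Bool) := fun b ε => rfl
    simp only [e1, face_half]
    rw [Finset.sum_sub_distrib, Finset.sum_sub_distrib, half_f0, half_t1, half_mid]
    abel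
  exact congrArg (fun f => f x) h

theorem sdC_mapC (f : C(Z, Z')) (x : Ch R Z n) : sdC R Z' n (mapC R n f x) = mapC R n f (sdC R Z n x) := by
  have h : sdC R Z' n ∘ₗ mapC R n f = mapC R n f ∘ₗ sdC R Z n := by
    refine ch_ext fun σ => ?_
    rw [LinearMap.comp_apply, LinearMap.comp_apply, mapC_gC, sdC_gC, sdC_gC, map_sum]
    refine Finset.sum_congr rfl fun ε _ => ?_
    rw [mapC_gC, ContinuousMap.comp_assoc]
  exact congrArg (fun g => g x) h

theorem sdC_zero (x : Ch R Z 0) : sdC R Z 0 x = x := by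
  have h : sdC R Z 0 = LinearMap.id := by
    refine ch_ext fun σ => ?_
    rw [sdC_gC, LinearMap.id_apply, Fintype.sum_unique]
    congr 1
    ext y
    rw [ContinuousMap.comp_apply]
    exact congrArg σ (Subsingleton.elim _ _)
  exact congrArg (fun g => g x) h

end

end Pool.Agent.H4.CU
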