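import Pool.Agent.H4.CU.SD
import Pool.Agent.H4.CU.HTP

/-! # [H4 CU TT] The homotopy between the identity and the subdivision (acyclic models)

`contr n (s, x) = (1 - s) x`, `slice (contr n) 0 = id`, `slice (contr n) 1 = const 0`; `mapC (const)` is `0` in degrees `≥ 1` (a constant cube of dimension `≥ 1` is degenerate), so
`P = PC (contr n)` satisfies `d P y + P d y = y` for all `y` of degree `≥ 1` (`dC_PC`).
`zz n = gC id - sd (gC id) - ∑_i (-1)^i (mapC (ins i 0) (tt n) - mapC (ins i 1) (tt n)) ∈ Ch R (Qb (n+1)) (n+1)`, `tt (n+1) = P (zz n)`, `tt 0 = 0`.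
PROVE BY INDUCTION ON `n` THE CONJUNCTION of
(a) `tt_deg`: `mapC σ (tt n) = 0` for every degenerate `σ : Cb Z n`, every `Z`;
(b) for all `Z` and `x : Ch R Z n` (with `T_n = liftC (σ ↦ mapC σ (tt n))`): `n = 0`: `d (T_0 x) = x - sd x` (`= 0` by `sdC_zero`); `n = m + 1`: `d (T_n x) + T_m (d x) = x - sd x`.
(b) for `n = m + 1`: enough for `x = gC σ` (`ch_ext`), and by naturality (`T` commutes with `mapC f` by `mapC_comp`; `gC σ = mapC σ (gC id)`) for `x = gC id`: there
`T_m (d (gC id)) = ∑_i (-1)^i (mapC (ins i 0) (tt m) - mapC (ins i 1) (tt m))` (`dC_gC`, `face i ε id = ins i ε`), so `zz m = gC id - sd (gC id) - T_m (d (gC id))`, and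
`d (zz m) = d gC id - sd (d gC id) - d T_m (d gC id) = 0`: by (b) in degree `m` applied to `d (gC id)`: `d T_m y = y - sd y - T_(m-1) (d y)` and `d y = 0` (`dC_dC`) (`m = 0`: `d T_0 y = y - sd y`).
Hence `d (tt (m+1)) = d P (zz m) = zz m - P (d (zz m)) = zz m`.
(a) for `n = m + 1`: `σ` degenerate in `i`: `σ = σ.comp q`, `q x = Function.update x i 0` (continuous). `PC (contr) ` commutes with `mapC q` (`prism contr (q.comp τ) = q.comp (prism contr τ)`
pointwise: `(1 - s) (q x) = q ((1 - s) x)`), and `mapC q (zz m) = gC q - sd (gC q) - T_m (d (gC q)) = 0` since `gC q = 0` (`q` is degenerate; (a) for `m` makes `T_m` well defined, and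
`mapC q (T_m y) = T_m (mapC q y)`). So `mapC σ (tt n) = mapC σ (mapC q (P (zz m))) = mapC σ (P (mapC q (zz m))) = 0`. -/

namespace Pool.Agent.H4.CU

noncomputable section

/-- the contraction of the cube -/
def contr (n : ℕ) : C(J × Qb n, Qb n) where
  toFun p i := unitInterval.symm p.1 * p.2 i
  continuous_toFun := by fun_prop

variable (R : Type) [CommRing R]

/-- the universal elements -/
def tt : ∀ n : ℕ, Ch R (Qb n) (n + 1)
  | 0 => 0
  | n + 1 => PC R (n + 1) (contr (n + 1)) (gC R (ContinuousMap.id (Qb (n + 1))) -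
      sdC R (Qb (n + 1)) (n + 1) (gC R (ContinuousMap.id (Qb (n + 1)))) -
      ∑ i : Fin (n + 1), (-1 : R) ^ (i : ℕ) •
        (mapC R (n + 1) (ins i 0) (tt n) - mapC R (n + 1) (ins i 1) (tt n)))

variable {R} {Z Z' : Type} [TopologicalSpace Z] [TopologicalSpace Z'] {n : ℕ}

private def TA (R : Type) [CommRing R] (n : ℕ) : Prop :=
  ∀ (Z : Type) [TopologicalSpace Z] (σ : Cb Z n), Deg σ → mapC R (n + 1) σ (tt R n) = 0

private def T0 (h : TA R n) (Z : Type) [TopologicalSpace Z] : Ch R Z n →ₗ[R] Ch R Z (n + 1) :=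
  liftC (fun σ => mapC R (n + 1) σ (tt R n)) fun σ hσ => h Z σ hσ

private theorem T0_gC (h : TA R n) (σ : Cb Z n) : T0 h Z (gC R σ) = mapC R (n + 1) σ (tt R n) :=
  liftC_gC _ _ _

private theorem T0_mapC (h : TA R n) (f : C(Z, Z')) (x : Ch R Z n) :
    T0 h Z' (mapC R n f x) = mapC R (n + 1) f (T0 h Z x) := by
  have h1 : T0 h Z' ∘ₗ mapC R n f = mapC R (n + 1) f ∘ₗ T0 h Z := by
    refine ch_ext fun σ => ?_
    rw [LinearMap.comp_apply, LinearMap.comp_apply, mapC_gC, T0_gC, T0_gC, mapC_comp,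
      LinearMap.comp_apply]
  exact congrArg (fun g => g x) h1

private def TB (h : TA R n) : Prop :=
  ∀ (Z : Type) [TopologicalSpace Z] (y : Ch R Z n),
    (∀ m : ℕ, ∀ e : n = m + 1, dC R Z m (e ▸ y) = 0) → dC R Z n (T0 h Z y) = y - sdC R Z n y

private theorem slice_zero (n : ℕ) : slice (contr n) 0 = ContinuousMap.id (Qb n) := by
  ext x i
  show ((unitInterval.symm 0 * x i : J) : ℝ) = x i
  rw [unitInterval.symm_zero, one_mul]

private theorem mapC_slice_one (n : ℕ) (u : Ch R (Qb (n + 1)) (n + 1)) :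
    mapC R (n + 1) (slice (contr (n + 1)) 1) u = 0 := by
  have h1 : mapC R (n + 1) (slice (contr (n + 1)) 1) = 0 := by
    refine ch_ext fun σ => ?_
    rw [mapC_gC, LinearMap.zero_apply]
    refine gC_deg R ⟨0, fun x t => ?_⟩
    funext i
    show (unitInterval.symm 1 * (σ (Function.update x 0 t)) i : J) = unitInterval.symm 1 * (σ x) i
    rw [unitInterval.symm_one, zero_mul, zero_mul]
  rw [h1, LinearMap.zero_apply]

private theorem dC_P (n : ℕ) (u : Ch R (Qb (n + 1)) (n + 1)) (hu : dC R (Qb (n + 1)) n u = 0) :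
    dC R (Qb (n + 1)) (n + 1) (PC R (n + 1) (contr (n + 1)) u) = u := by
  have h1 := dC_PC (contr (n + 1)) u
  rw [hu, map_zero, add_zero, slice_zero, mapC_id, LinearMap.id_apply, mapC_slice_one, sub_zero] at h1
  exact h1

private def zz (h : TA R n) : Ch R (Qb (n + 1)) (n + 1) :=
  gC R (ContinuousMap.id (Qb (n + 1))) -
    sdC R (Qb (n + 1)) (n + 1) (gC R (ContinuousMap.id (Qb (n + 1)))) -
    T0 h (Qb (n + 1)) (dC R (Qb (n + 1)) n (gC R (ContinuousMap.id (Qb (n + 1)))))

private theorem tt_succ (h : TA R n) : tt R (n + 1) = PC R (n + 1) (contr (n + 1)) (zz h) := by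
  have h1 : T0 h (Qb (n + 1)) (dC R (Qb (n + 1)) n (gC R (ContinuousMap.id (Qb (n + 1))))) =
      ∑ i : Fin (n + 1), (-1 : R) ^ (i : ℕ) •
        (mapC R (n + 1) (ins i 0) (tt R n) - mapC R (n + 1) (ins i 1) (tt R n)) := by
    rw [dC_gC, map_sum]
    refine Finset.sum_congr rfl fun i _ => ?_
    rw [map_smul, map_sub, T0_gC, T0_gC]
    rfl
  unfold zz
  rw [h1]
  rfl

private theorem dC_zz (h : TA R n) (hB : TB h) : dC R (Qb (n + 1)) n (zz h) = 0 := by
  unfold zz
  rw [map_sub, map_sub, dC_sdC, hB]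
  · rw [sub_self]
  · rintro m rfl
    exact dC_dC R _ m _

private theorem mapC_zz (h : TA R n) (σ : Cb Z (n + 1)) :
    mapC R (n + 1) σ (zz h) = gC R σ - sdC R Z (n + 1) (gC R σ) - T0 h Z (dC R Z n (gC R σ)) := by
  have h1 : mapC R (n + 1) σ (gC R (ContinuousMap.id (Qb (n + 1)))) = gC R σ := by
    rw [mapC_gC, ContinuousMap.comp_id]
  have h2 : ∀ y : Ch R (Qb (n + 1)) (n + 1), mapC R n σ (dC R (Qb (n + 1)) n y) =
      dC R Z n (mapC R (n + 1) σ y) := fun y => (congrArg (fun g => g y) (dC_mapC (R := R) (n := n) σ)).symm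
  unfold zz
  rw [map_sub, map_sub, ← sdC_mapC, ← T0_mapC, h2, h1]

private theorem q_exists (i : Fin (n + 1)) : ∃ q : C(Qb (n + 1), Qb (n + 1)),
    ∀ x, q x = Function.update x i 0 :=
  ⟨⟨fun x => Function.update x i 0, by fun_prop⟩, fun _ => rfl⟩

private theorem step_A (h : TA R n) : TA R (n + 1) := by
  intro Z _ σ hσ
  obtain ⟨i, hi⟩ := hσ
  obtain ⟨q, hq⟩ := q_exists i
  have h1 : σ.comp q = σ := by
    ext x
    rw [ContinuousMap.comp_apply, hq, hi]
  have h2 : Deg (q : Cb (Qb (n + 1)) (n + 1)) := by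
    refine ⟨i, fun x t => ?_⟩
    rw [hq, hq, Function.update_idem]
  have h3 : ∀ u : Ch R (Qb (n + 1)) (n + 1), mapC R (n + 2) q (PC R (n + 1) (contr (n + 1)) u) =
      PC R (n + 1) (contr (n + 1)) (mapC R (n + 1) q u) := by
    intro u
    have h4 : mapC R (n + 2) q ∘ₗ PC R (n + 1) (contr (n + 1)) =
        PC R (n + 1) (contr (n + 1)) ∘ₗ mapC R (n + 1) q := by
      refine ch_ext fun τ => ?_
      rw [LinearMap.comp_apply, LinearMap.comp_apply, PC_gC, mapC_gC, mapC_gC, PC_gC]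
      congr 1
      ext x j
      show ((q (fun k => unitInterval.symm (x 0) * (τ fun i => x i.succ) k)) j : ℝ) =
        ((unitInterval.symm (x 0) * (q (τ fun i => x i.succ)) j : J) : ℝ)
      rw [hq, hq]
      by_cases hj : j = i
      · subst hj
        rw [Function.update_self, Function.update_self, mul_zero]
      · rw [Function.update_of_ne hj, Function.update_of_ne hj]
    exact congrArg (fun g => g u) h4
  have h5 : mapC R (n + 1) q (zz h) = 0 := by
    rw [mapC_zz, gC_deg R h2, map_zero, map_zero, map_zero, sub_zero, sub_zero]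
  rw [← h1, mapC_comp, LinearMap.comp_apply, tt_succ h, h3, h5, map_zero, map_zero]

private theorem step_id (h : TA R n) (hB : TB h) (Z : Type) [TopologicalSpace Z]
    (x : Ch R Z (n + 1)) : dC R Z (n + 1) (T0 (step_A h) Z x) + T0 h Z (dC R Z n x) =
      x - sdC R Z (n + 1) x := by
  have h1 : dC R Z (n + 1) ∘ₗ T0 (step_A h) Z + T0 h Z ∘ₗ dC R Z n =
      LinearMap.id - sdC R Z (n + 1) := by
    refine ch_ext fun σ => ?_
    rw [LinearMap.add_apply, LinearMap.comp_apply, LinearMap.comp_apply, LinearMap.sub_apply,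
      LinearMap.id_apply, T0_gC]
    have h2 : dC R Z (n + 1) (mapC R (n + 1 + 1) σ (tt R (n + 1))) =
        mapC R (n + 1) σ (dC R (Qb (n + 1)) (n + 1) (tt R (n + 1))) :=
      congrArg (fun g => g (tt R (n + 1))) (dC_mapC (R := R) (n := n + 1) σ)
    rw [h2, tt_succ h, dC_P n _ (dC_zz h hB), mapC_zz, sub_add_cancel]
  exact congrArg (fun g => g x) h1

private theorem ta_zero : TA R 0 := by
  intro Z _ σ hσ
  obtain ⟨i, -⟩ := hσ
  exact i.elim0

private theorem tb_zero (h : TA R 0) : TB h := by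
  intro Z _ y _
  have h1 : T0 h Z y = 0 := by
    have h2 : T0 h Z = 0 := by
      refine ch_ext fun σ => ?_
      rw [T0_gC, LinearMap.zero_apply]
      exact map_zero _
    rw [h2, LinearMap.zero_apply]
  rw [h1, map_zero, sdC_zero, sub_self]

private theorem tab (n : ℕ) : ∃ h : TA R n, TB h := by
  induction n with
  | zero => exact ⟨ta_zero, tb_zero _⟩
  | succ n ih =>
    obtain ⟨h, hB⟩ := ih
    refine ⟨step_A h, ?_⟩
    intro Z _ y hy
    have h1 := step_id h hB Z y
    rwa [show dC R Z n y = 0 from hy n rfl, map_zero, add_zero] at h1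

theorem tt_deg {σ : Cb Z n} (h : Deg σ) : mapC R (n + 1) σ (tt R n) = 0 :=
  (tab n).choose Z σ h

variable (R Z n) in
/-- the homotopy -/
def TC : Ch R Z n →ₗ[R] Ch R Z (n + 1) :=
  liftC (fun σ => mapC R (n + 1) σ (tt R n)) fun _ h => tt_deg h

theorem TC_gC (σ : Cb Z n) : TC R Z n (gC R σ) = mapC R (n + 1) σ (tt R n) := liftC_gC _ _ _

private theorem TC_eq (h : TA R n) (Z : Type) [TopologicalSpace Z] : TC R Z n = T0 h Z := rfl

theorem TC_mapC (f : C(Z, Z')) (x : Ch R Z n) : TC R Z' n (mapC R n f x) = mapC R (n + 1) f (TC R Z n x) := by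
  obtain ⟨h, -⟩ := tab (R := R) n
  rw [TC_eq h, TC_eq h, T0_mapC]

theorem dC_TC_zero (x : Ch R Z 0) : dC R Z 0 (TC R Z 0 x) = x - sdC R Z 0 x := by
  obtain ⟨h, hB⟩ := tab (R := R) 0
  rw [TC_eq h]
  exact hB Z x fun m e => absurd e (by omega)

theorem dC_TC (x : Ch R Z (n + 1)) :
    dC R Z (n + 1) (TC R Z (n + 1) x) + TC R Z n (dC R Z n x) = x - sdC R Z (n + 1) x := by
  obtain ⟨h, hB⟩ := tab (R := R) n
  rw [TC_eq (step_A h), TC_eq h]
  exact step_id h hB Z x

theorem TC_mem {A : Set Z} {σ : Cb Z n} (h : Set.range σ ⊆ A) : TC R Z n (gC R σ) ∈ subC R (n + 1) A := by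
  rw [TC_gC]
  have h1 : ∀ y : Ch R (Qb n) (n + 1), mapC R (n + 1) σ y ∈ subC R (n + 1) A := by
    intro y
    have hy : y ∈ Submodule.span R (Set.range (gC R : Cb (Qb n) (n + 1) → Ch R (Qb n) (n + 1))) := by
      rw [ch_span]
      exact Submodule.mem_top
    induction hy using Submodule.span_induction with
    | mem x hx =>
      obtain ⟨τ, rfl⟩ := hx
      rw [mapC_gC]
      refine gC_mem ?_
      rintro _ ⟨z, rfl⟩
      exact h ⟨τ z, rfl⟩
    | zero => rw [map_zero]; exact zero_mem _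
    | add x y _ _ hx hy => rw [map_add]; exact add_mem hx hy
    | smul a x _ hx => rw [map_smul]; exact Submodule.smul_mem _ _ hx
  exact h1 _

end

end Pool.Agent.H4.CU
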